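import Pool.Agent.W2helper61.NT.Loop

/-!
Computable functions of typed data (no resource bound), unbounded search, and the link with
Mathlib's `TM2Computable`.
-/

set_option autoImplicit false

namespace Pool.Agent.W2helper61.NT

open Turing Pool.Agent.H583R2

/-- computable -/
def Cb {α β : Type} [TEnc α] [TEnc β] (f : α → β) : Prop := ∃ c, Has f c

section
variable {α β γ δ σ : Type} [TEnc α] [TEnc β] [TEnc γ] [TEnc δ] [TEnc σ]

theorem PF.cb {f : α → β} (h : PF f) : Cb f := by
  obtain ⟨c, _, h⟩ := h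
  exact ⟨c, h⟩

theorem Cb.congr {f g : α → β} (h : Cb f) (e : ∀ a, f a = g a) : Cb g := by
  have : f = g := funext e
  rw [← this]; exact h

theorem Cb.comp {f : α → β} {g : β → γ} (hg : Cb g) (hf : Cb f) : Cb (fun a => g (f a)) := by
  obtain ⟨c, hf⟩ := hf
  obtain ⟨d, hg⟩ := hg
  exact ⟨_, hg.comp hf⟩

theorem Cb.pair {f : α → β} {g : α → γ} (hf : Cb f) (hg : Cb g) : Cb (fun a => (f a, g a)) := by
  obtain ⟨c, hf⟩ := hf
  obtain ⟨d, hg⟩ := hg
  exact ⟨_, hf.pair hg⟩

theorem Cb.id : Cb (fun a : α => a) := ⟨_, Has.id⟩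

/-- compose a polynomial-time function with a computable one -/
theorem Cb.pf {f : α → β} {g : β → γ} (hg : PF g) (hf : Cb f) : Cb (fun a => g (f a)) :=
  Cb.comp (PF.cb hg) hf

theorem Cb.ite {b : α → Bool} {f g : α → β} (hb : Cb b) (hf : Cb f) (hg : Cb g) :
    Cb (fun a => if b a then f a else g a) := by
  obtain ⟨c, hf⟩ := hf
  obtain ⟨d, hg⟩ := hg
  have h : Cb (fun p : Bool × α => if p.1 then f p.2 else g p.2) := ⟨_, Has.boolCase hf hg⟩
  exact h.comp (hb.pair Cb.id)

/-! ### while loops -/

/-- states of a while loop -/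
def wst (F : σ → Bool × σ) (s : σ) : ℕ → Bool × σ
  | 0 => (true, s)
  | i + 1 => F (wst F s i).2

def wbody (p : Prog) : Prog := .seq pop3 (.seq p (.pop .m .skip .skip .skip))

theorem wbody_spec {p : Prog} {F : σ → Bool × σ} {c : σ → ℕ} (hp : Cmp p F c)
    (s : σ) (rest A B : List Bool) :
    EvL (wbody p) (hd true s rest A B) (hd (F s).1 (F s).2 rest A B) (c s + 9) := by
  have h1 := pop3_spec s rest A B
  have h2 := hp s rest A B
  have h3 : EvL (.pop .m .skip .skip .skip) ⟨ser (enc (F s)) ++ rest, A, B, [], []⟩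
      (hd (F s).1 (F s).2 rest A B) 2 := by
    have e : ser (enc (F s)) ++ rest =
        true :: (ser (enc (F s).1) ++ (ser (enc (F s).2) ++ rest)) := by
      change ser (.node (enc (F s).1) (enc (F s).2)) ++ _ = _
      simp [ser]
    rw [e]
    exact EvL.pop (EvL.skip _)
  exact EvL.mono (h1.seq (h2.seq h3)) (by omega)

omit [TEnc σ] in
theorem wst_shift (F : σ → Bool × σ) (s : σ) (i : ℕ) :
    (wst F s (i + 2)) = wst F (F s).2 (i + 1) := by
  induction i with
  | zero => rfl
  | succ i ih => rw [wst, ih]; rfl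

theorem wloop_spec {p : Prog} {F : σ → Bool × σ} {c : σ → ℕ} (hp : Cmp p F c)
    (rest A B : List Bool) (n : ℕ) : ∀ (s : σ),
    (∀ i, 1 ≤ i → i ≤ n → (wst F s i).1 = true) → (wst F s (n + 1)).1 = false →
    ∃ k, EvL (.whil .m isT (wbody p)) (hd true s rest A B)
      (hd false (wst F s (n + 1)).2 rest A B) k ∧
      k ≤ ∑ j ∈ Finset.range (n + 1), (c (wst F s j).2 + 10) + 1 := by
  induction n with
  | zero =>
    intro s _ h1
    have h2 := wbody_spec hp s rest A B
    have h3 : (F s).1 = false := h1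
    rw [h3] at h2
    refine ⟨_, EvL.whilStep (isT_true _ _ _ _) h2 (EvL.whilDone (isT_false _ _ _ _)), ?_⟩
    simp [wst]
  | succ n ih =>
    intro s h0 h1
    have h2 := wbody_spec hp s rest A B
    have h3 : (F s).1 = true := h0 1 le_rfl (by omega)
    rw [h3] at h2
    obtain ⟨k, hk, hk2⟩ := ih (F s).2 (by
      intro i hi hi2
      obtain ⟨i, rfl⟩ : ∃ j, i = j + 1 := ⟨i - 1, by omega⟩
      rw [← wst_shift]
      exact h0 _ (by omega) (by omega)) (by
      rw [← wst_shift]
      exact h1)
    refine ⟨_, EvL.whilStep (isT_true _ _ _ _) h2 (by rw [wst_shift]; exact hk), ?_⟩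
    rw [Finset.sum_range_succ']
    have e : ∑ j ∈ Finset.range (n + 1), (c (wst F (F s).2 j).2 + 10) =
        ∑ j ∈ Finset.range (n + 1), (c (wst F s (j + 1)).2 + 10) := by
      apply Finset.sum_congr rfl
      intro j _
      cases j with
      | zero => rfl
      | succ j => rw [← wst_shift]
    rw [← e]
    have e2 : (wst F s 0).2 = s := rfl
    rw [e2]
    omega

/-- while loop: `N s` is the number of rounds -/
theorem Has.whil {F : σ → Bool × σ} {c : σ → ℕ} (hF : Has F c) (N : σ → ℕ)
    (h1 : ∀ s i, 1 ≤ i → i ≤ N s → (wst F s i).1 = true)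
    (h2 : ∀ s, (wst F s (N s + 1)).1 = false) :
    Has (fun s => (wst F s (N s + 1)).2)
      (fun s => ∑ j ∈ Finset.range (N s + 1), (c (wst F s j).2 + 10) + 6) := by
  obtain ⟨p, hp⟩ := hF
  refine ⟨.seq setFlag (.seq (.whil .m isT (wbody p)) (.pop .m .skip .skip .skip)), ?_⟩
  intro s rest A B
  obtain ⟨k, hk, hk2⟩ := wloop_spec hp rest A B (N s) s (h1 s) (h2 s)
  have h3 : EvL (.pop .m .skip .skip .skip) (hd false (wst F s (N s + 1)).2 rest A B)
      ⟨ser (enc (wst F s (N s + 1)).2) ++ rest, A, B, [], []⟩ 2 := EvL.pop (EvL.skip _)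
  exact EvL.mono ((setFlag_spec s rest A B).seq (hk.seq h3)) (by beta_reduce; omega)

/-- unbounded search -/
theorem Cb.mu {f : α × ℕ → Option β} (hf : Cb f) (d : β) (N : α → ℕ)
    (h1 : ∀ a i, i < N a → f (a, i) = none) (h2 : ∀ a, f (a, N a) ≠ none) :
    Cb (fun a => (f (a, N a)).getD d) := by
  -- state: `((a, m), result)`
  let F : (α × ℕ) × Option β → Bool × ((α × ℕ) × Option β) :=
    fun s => ((f s.1).isNone, ((s.1.1, s.1.2 + 1), f s.1))
  have hfs : Cb (fun s : (α × ℕ) × Option β => f s.1) := hf.comp (PF.cb PF.fst)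
  have hisn : PF (fun o : Option β => o.isNone) :=
    (PF.not (PF.isSome PF.id)).congr (fun o => by cases o <;> rfl)
  have hF : Cb F := by
    refine (Cb.pf (f := fun s : (α × ℕ) × Option β => (s, f s.1))
      (g := fun q => (q.2.isNone, ((q.1.1.1, q.1.1.2 + 1), q.2))) ?_ (Cb.id.pair hfs)).congr
      (fun _ => rfl)
    exact PF.pair (hisn.comp PF.snd) (PF.pair (PF.pair (PF.fst' (PF.fst' PF.fst))
      (PF.succ (PF.snd' (PF.fst' PF.fst)))) PF.snd)
  obtain ⟨c, hF⟩ := hF
  -- the loop is only started in states `((a, 0), none)`; extend to all states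
  have key : ∀ (a : α) (i : ℕ), (wst F ((a, 0), none) i).2.1 = (a, i) := by
    intro a i
    induction i with
    | zero => rfl
    | succ i ih =>
      rw [wst]
      simp only [F, ih]
  have key2 : ∀ (a : α) (i : ℕ), wst F ((a, 0), none) (i + 1) =
      ((f (a, i)).isNone, ((a, i + 1), f (a, i))) := by
    intro a i
    rw [wst]
    simp only [F, key]
  obtain ⟨p, hp⟩ := hF
  have hinit : PF (fun a : α => ((a, 0), (none : Option β))) :=
    PF.pair (PF.pair PF.id (PF.const _)) (PF.const _)
  obtain ⟨c0, _, p0, h0⟩ := hinit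
  have hlast : PF (fun s : (α × ℕ) × Option β => s.2.getD d) := PF.getD PF.snd (PF.const d)
  obtain ⟨c1, _, p1, h3⟩ := hlast
  refine ⟨fun a => c0 a + 3 + (∑ j ∈ Finset.range (N a + 1),
    (c (wst F ((a, 0), none) j).2 + 10) + 1) + 2 +
    c1 (wst F ((a, 0), none) (N a + 1)).2,
    .seq p0 (.seq setFlag (.seq (.whil .m isT (wbody p)) (.seq (.pop .m .skip .skip .skip) p1))),
    ?_⟩
  intro a rest A B
  obtain ⟨k, hk, hk2⟩ := wloop_spec hp rest A B (N a) ((a, 0), none) (by
      intro i hi hi2
      obtain ⟨i, rfl⟩ : ∃ j, i = j + 1 := ⟨i - 1, by omega⟩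
      rw [key2, h1 a i (by omega)]
      rfl) (by
      rw [key2]
      rcases h : f (a, N a) with _ | x
      · exact absurd h (h2 a)
      · rfl)
  have h4 : EvL (.pop .m .skip .skip .skip) (hd false (wst F ((a, 0), none) (N a + 1)).2 rest A B)
      ⟨ser (enc (wst F ((a, 0), none) (N a + 1)).2) ++ rest, A, B, [], []⟩ 2 :=
    EvL.pop (EvL.skip _)
  have h5 := h3 (wst F ((a, 0), none) (N a + 1)).2 rest A B
  have h6 : (wst F ((a, 0), none) (N a + 1)).2.2.getD d = (f (a, N a)).getD d := by
    rw [key2]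
  beta_reduce at h5 ⊢
  rw [h6] at h5
  exact EvL.mono ((h0 a rest A B).seq ((setFlag_spec _ rest A B).seq (hk.seq (h4.seq h5))))
    (by omega)

/-- the least witness of a decidable property is computable -/
theorem Cb.find {f : α × ℕ → Bool} (hf : Cb f) (N : α → ℕ)
    (h1 : ∀ a i, i < N a → f (a, i) = false) (h2 : ∀ a, f (a, N a) = true) : Cb N := by
  have h : Cb (fun p : α × ℕ => if f p then some p.2 else none) :=
    Cb.ite hf (PF.cb (PF.mkSome PF.snd)) (PF.cb (PF.const none))
  refine (Cb.mu h 0 N (by intro a i hi; simp [h1 a i hi]) (by intro a; simp [h2 a])).congr ?_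
  intro a
  simp [h2 a]

end

/-! ### link with Turing machines -/

theorem map_una (n : ℕ) : (una n).length = n := by simp [una]

/-- computable functions on strings are computed by machines -/
theorem tm_of_cb {f : List Bool → List Bool} (h : Cb f) :
    ∃ p : Prog, ∀ x, ∃ n, Ev p ⟨x, [], [], [], []⟩ ⟨f x, [], [], [], []⟩ n := by
  obtain ⟨c, p, hp⟩ := h
  refine ⟨.seq inP (.seq p outP), ?_⟩
  intro x
  have h1 := inP_spec x
  have h2 := hp x [] [] []
  rw [List.append_nil, List.append_nil] at h2
  have h3 := outP_spec (f x)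
  obtain ⟨i, _, h4⟩ := h1.seq (h2.seq h3)
  exact ⟨i, h4⟩

theorem pf_una {α : Type} [TEnc α] {n : α → ℕ} (hn : PF n) : PF (fun a => una (n a)) :=
  PF.replicate hn (PF.const true)

theorem tmComputable_of_cb {t : ℕ → ℕ} (h : Cb t) : TMComputable t := by
  have h1 : Cb (fun x : List Bool => una (t x.length)) :=
    Cb.pf (pf_una PF.id) (h.comp (PF.cb (PF.length PF.id)))
  obtain ⟨p, hp⟩ := tm_of_cb h1
  have key : ∀ n : ℕ, Nonempty (TM2Outputs (finTM p) (una n) (some (una (t n)))) := by
    intro n
    obtain ⟨k, hk⟩ := hp (una n)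
    rw [map_una] at hk
    obtain ⟨h5⟩ := finTM_outputs _ _ _ _ hk
    exact ⟨h5.toEvalsTo⟩
  refine ⟨{ tm := finTM p
            inputAlphabet := Equiv.refl _
            outputAlphabet := Equiv.refl _
            outputsFun := fun n => by
              have := (key n).some
              have e : ∀ (x : List Bool), List.map (Equiv.refl Bool).invFun x = x := by
                intro x
                change List.map id x = x
                simp
              have e' : ∀ (u v : List Bool), u = una n → v = una (t n) →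
                 TM2Outputs (finTM p) u (some v) := by
                intro u v hu hv
                rw [hu, hv]
                exact this
              exact e' _ _ (e _) (e _) }⟩

/-- a machine for `t` gives a code that eventually outputs `1^(t n)` on `1^n`, with
linear overhead -/
theorem code_of_tm' {t : ℕ → ℕ} (M : TM2Computable una una t) :
    ∃ (c : Code) (T : ℕ → ℕ), ∀ n s, T n ≤ s → U c (una n) s = some (una (t n)) := by
  refine ⟨codeOf M.inputAlphabet M.outputAlphabet,
    fun n => H583R2.maxDep M.tm * (M.outputsFun n).steps, ?_⟩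
  intro n s hs
  exact U_codeOf M.inputAlphabet M.outputAlphabet (una n) (una (t n)) _
    ⟨M.outputsFun n, le_refl _⟩ s hs

theorem code_of_honest {t : ℕ → ℕ} (h : Honest t) :
    ∃ (c : Code) (k : ℕ), ∀ n s, (t n + 2) ^ k ≤ s → U c (una n) s = some (una (t n)) := by
  obtain ⟨M, p, hp⟩ := h
  obtain ⟨c, hc⟩ := poly_le_pow p
  refine ⟨codeOf M.inputAlphabet M.outputAlphabet, H583R2.maxDep M.tm + c, ?_⟩
  intro n s hs
  have h1 : M.time (una n).length ≤ (t n + 2) ^ c := by
    rw [map_una]; exact (hp n).trans (hc _)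
  refine U_codeOf M.inputAlphabet M.outputAlphabet (una n) (una (t n)) _
    (M.outputsFun n) s (le_trans ?_ hs)
  rw [pow_add]
  refine Nat.mul_le_mul ?_ h1
  calc H583R2.maxDep M.tm ≤ 2 ^ H583R2.maxDep M.tm := (Nat.lt_two_pow_self).le
    _ ≤ _ := Nat.pow_le_pow_left (by omega) _

theorem U_mono {c : Code} {x z : List Bool} {s s' : ℕ} (h : U c x s = some z) (hs : s ≤ s') :
    U c x s' = some z := by
  obtain ⟨d, rfl⟩ := Nat.exists_eq_add_of_le hs
  have h1 : ¬ (runU c x s).1 < c.1.length := by
    intro hlt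
    unfold U at h
    rw [if_pos (by simpa using hlt)] at h
    cases h
  have h2 : runU c x (s + d) = runU c x s := by
    unfold runU at *
    rw [Nat.add_comm, Function.iterate_add_apply]
    generalize (stepU c.1)^[s] (initU c x) = u at *
    induction d with
    | zero => rfl
    | succ d ih =>
      rw [Function.iterate_succ_apply', ih (by omega)]
      unfold stepU
      rw [List.getElem?_eq_none (by omega)]
  unfold U at *
  rw [h2]
  exact h

theorem cb_of_tmComputable {t : ℕ → ℕ} (h : TMComputable t) : Cb t := by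
  obtain ⟨M⟩ := h
  obtain ⟨c, T, hT⟩ := code_of_tm' M
  have hex : ∀ n, ∃ s, U c (una n) s ≠ none := fun n => ⟨T n, by rw [hT n _ le_rfl]; simp⟩
  classical
  have hU : PF (fun p : ℕ × ℕ => U c (una p.1) p.2) :=
    PF.U.comp (PF.pair (PF.const c) (PF.pair (pf_una PF.fst) PF.snd))
  have h1 := Cb.mu (PF.cb hU) [] (fun n => Nat.find (hex n))
    (fun n i hi => by
      have := Nat.find_min (hex n) hi
      simpa using this) (fun n => Nat.find_spec (hex n))
  refine (Cb.pf (PF.length PF.id) h1).congr ?_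
  intro n
  have h2 := hT n (T n) le_rfl
  have h3 : U c (una n) (Nat.find (hex n)) ≠ none := Nat.find_spec (hex n)
  obtain ⟨z, hz⟩ := Option.ne_none_iff_exists'.1 h3
  have h4 := U_mono hz (le_max_left _ (T n))
  have h5 := U_mono h2 (le_max_right (Nat.find (hex n)) _)
  rw [h4] at h5
  simp only [hz, Option.getD_some]
  rw [Option.some.inj h5, map_una]

end Pool.Agent.W2helper61.NT
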