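import Mathlib

/-!
Nondeterministic and deterministic multi-stack machines and the classes
`NTIME(Pol t)`, `DTIME(Pol t)`, `coNTIME(Pol t)`.
-/

set_option autoImplicit false

namespace Pool.Agent.W2helper61.NT

open Turing

/-- unary coding of numbers -/
def una (n : ℕ) : List Bool := List.replicate n true

/-- A nondeterministic machine in guess-and-run form: a Mathlib multi-stack machine `tm` with
binary input alphabet and, next to the input stack `k₀`, a stack `g` that holds the string of
nondeterministic choices. -/
structure NTM where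
  tm : FinTM2
  g : tm.K
  hg : g ≠ tm.k₀
  inp : tm.Γ tm.k₀ ≃ Bool
  gin : tm.Γ g ≃ Bool

namespace NTM
variable (M : NTM)

/-- start configuration: input `w`, guessed string `y`, all other stacks empty -/
def start (w y : List Bool) : M.tm.Cfg where
  l := some M.tm.main
  var := M.tm.initialState
  stk := Function.update (Function.update (fun _ => []) M.g (y.map M.gin.symm)) M.tm.k₀
    (w.map M.inp.symm)

/-- with input `w` and guess `y` the machine halts after exactly `n` steps -/
def HaltsAt (w y : List Bool) (n : ℕ) : Prop :=
  ∃ c : M.tm.Cfg, (flip bind M.tm.step)^[n] (some (M.start w y)) = some c ∧ c.l = none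

/-- `M` has an accepting computation on `w` of length at most `s`: writing down the guess `y`
takes `|y|` steps, and acceptance is by halting. -/
def AccIn (w : List Bool) (s : ℕ) : Prop := ∃ y n, y.length + n ≤ s ∧ M.HaltsAt w y n

end NTM

/-- A deterministic machine. -/
structure DTM where
  tm : FinTM2
  inp : tm.Γ tm.k₀ ≃ Bool

namespace DTM
variable (M : DTM)

/-- start configuration: input `w`, all other stacks empty -/
def start (w : List Bool) : M.tm.Cfg where
  l := some M.tm.main
  var := M.tm.initialState
  stk := Function.update (fun _ => []) M.tm.k₀ (w.map M.inp.symm)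

/-- `M` accepts `w` (by halting) within `s` steps -/
def AccIn (w : List Bool) (s : ℕ) : Prop :=
  ∃ n ≤ s, ∃ c : M.tm.Cfg, (flip bind M.tm.step)^[n] (some (M.start w)) = some c ∧ c.l = none

end DTM

/-- `NTIME(Pol t)`: languages `L` accepted by a nondeterministic machine such that every word
`w ∈ L` has an accepting computation of length at most `p (t |w|)`. -/
def NTIME (t : ℕ → ℕ) : Set (Set (List Bool)) :=
  {L | ∃ (M : NTM) (p : Polynomial ℕ), (∀ w, w ∈ L ↔ ∃ s, M.AccIn w s) ∧
    ∀ w ∈ L, M.AccIn w (p.eval (t w.length))}

/-- `DTIME(Pol t)`: the same with deterministic machines. -/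
def DTIME (t : ℕ → ℕ) : Set (Set (List Bool)) :=
  {L | ∃ (M : DTM) (p : Polynomial ℕ), (∀ w, w ∈ L ↔ ∃ s, M.AccIn w s) ∧
    ∀ w ∈ L, M.AccIn w (p.eval (t w.length))}

/-- `coNTIME(Pol t)`: complements of languages in `NTIME(Pol t)` -/
def coNTIME (t : ℕ → ℕ) : Set (Set (List Bool)) := {L | Lᶜ ∈ NTIME t}

/-- `t` is a computable function (some machine maps `1^n` to `1^(t n)`) -/
def TMComputable (t : ℕ → ℕ) : Prop := Nonempty (TM2Computable una una t)

/-- `t` is honest: some machine maps `1^n` to `1^(t n)` in time polynomial in `t n` -/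
def Honest (t : ℕ → ℕ) : Prop :=
  ∃ (M : TM2ComputableInTime una una t) (p : Polynomial ℕ), ∀ n, M.time n ≤ p.eval (t n)

end Pool.Agent.W2helper61.NT
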