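import Pool.Agent.W2helper61.NT.Cb

/-!
Enumeration of the codes of nondeterministic machines and the complexity of step-bounded runs.
-/

set_option autoImplicit false

namespace Pool.Agent.W2helper61.NT

open Turing Pool.Agent.H583R2

def decNCode : Tr → NCode :=
  decP (decL (decP decN (decL (decP decN (decP decN decN)))))
    (decP decN (decP decN (decP (decP decN (decP decN decN)) (decP decN (decP decN decN)))))

theorem decNCode_enc (c : NCode) : decNCode (enc c) = c :=
  decP_enc (decL_enc (decP_enc decN_enc (decL_enc (decP_enc decN_enc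
    (decP_enc decN_enc decN_enc)))))
    (decP_enc decN_enc (decP_enc decN_enc (decP_enc (decP_enc decN_enc
      (decP_enc decN_enc decN_enc)) (decP_enc decN_enc (decP_enc decN_enc decN_enc))))) c

/-- the `e`-th code; every code occurs infinitely often -/
def mN (e : ℕ) : NCode := decNCode (parse (str e))

theorem exists_mN (c : NCode) (n : ℕ) : ∃ e, n ≤ e ∧ mN e = c := by
  obtain ⟨e, h1, h2⟩ := exists_index (enc c) n
  exact ⟨e, h1, by unfold mN; rw [h2, decNCode_enc]⟩

section
variable {α β γ δ σ : Type} [TEnc α] [TEnc β] [TEnc γ] [TEnc δ] [TEnc σ]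

theorem pf_decNCode {x : α → Tr} (hx : PF x) : PF (fun a => decNCode (x a)) := by
  have hn : PF (fun t : Tr => decN t) := PF.decN PF.id
  have h2 : PF (fun t : Tr => decP decN decN t) := PF.decP hn hn PF.id
  have h3 : PF (fun t : Tr => decP decN (decP decN decN) t) := PF.decP hn h2 PF.id
  have h4 : PF (fun t : Tr => decL (decP decN (decP decN decN)) t) := PF.decL h3 PF.id
  have h5 : PF (fun t : Tr => decP decN (decL (decP decN (decP decN decN))) t) :=
    PF.decP hn h4 PF.id
  have h6 := PF.decL h5 (PF.id (α := Tr))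
  have h7 := PF.decP h3 h3 (PF.id (α := Tr))
  have h8 := PF.decP hn h7 (PF.id (α := Tr))
  have h9 := PF.decP hn h8 (PF.id (α := Tr))
  exact PF.decP h6 h9 hx

theorem pf_mN {e : α → ℕ} (he : PF e) : PF (fun a => mN (e a)) :=
  pf_decNCode (PF.parse (PF.str he))

theorem pf_initN : PF (fun p : NCode × List Bool × List Bool => initN p.1 p.2.1 p.2.2) := by
  have hc : PF (fun p : NCode × List Bool × List Bool => p.1) := PF.fst
  have hw : PF (fun p : NCode × List Bool × List Bool => p.2.1) := PF.fst' PF.snd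
  have hy : PF (fun p : NCode × List Bool × List Bool => p.2.2) := PF.snd' PF.snd
  have hc' : PF (fun p : (NCode × List Bool × List Bool) × Bool => p.1.1) := PF.fst' PF.fst
  refine PF.pair (PF.fst' (PF.snd' hc)) (PF.set (PF.fst' (PF.fst' (PF.snd' (PF.snd' (PF.snd' hc)))))
    (PF.set (PF.fst' (PF.snd' (PF.snd' (PF.snd' (PF.snd' hc)))))
      (PF.replicate (PF.fst' (PF.snd' (PF.snd' hc))) (PF.const []))
      (PF.map (f := fun (p : NCode × List Bool × List Bool) b =>
        if b then p.1.2.2.2.2.2.2 else p.1.2.2.2.2.2.1) hy ?_))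
    (PF.map (f := fun (p : NCode × List Bool × List Bool) b =>
      if b then p.1.2.2.2.1.2.2 else p.1.2.2.2.1.2.1) hw ?_))
  · exact PF.ite PF.snd (PF.snd' (PF.snd' (PF.snd' (PF.snd' (PF.snd' (PF.snd' hc'))))))
      (PF.fst' (PF.snd' (PF.snd' (PF.snd' (PF.snd' (PF.snd' hc'))))))
  · exact PF.ite PF.snd (PF.snd' (PF.snd' (PF.fst' (PF.snd' (PF.snd' (PF.snd' hc'))))))
      (PF.fst' (PF.snd' (PF.fst' (PF.snd' (PF.snd' (PF.snd' hc'))))))

theorem pf_haltN0 : PF (fun p : NCode × (List Bool × List Bool) × ℕ =>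
    haltN p.1 p.2.1.1 p.2.1.2 p.2.2) := by
  have h : PF (fun p : NCode × (List Bool × List Bool) × ℕ =>
      (stepU p.1.1)^[p.2.2] (initN p.1 p.2.1.1 p.2.1.2)) := by
    refine PF.iterateAdd (n := fun p : NCode × (List Bool × List Bool) × ℕ => p.2.2)
      (s := fun p => initN p.1 p.2.1.1 p.2.1.2) (f := fun p c => stepU p.1.1 c)
      (PF.snd' PF.snd) (pf_initN.comp (PF.pair PF.fst (PF.fst' PF.snd)))
      (PF.stepU.comp (PF.pair (PF.fst' (PF.fst' PF.fst)) PF.snd))
      (inc := fun p => 3 * sz p.1.1 + 30) (bnd := fun _ => 0)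
      (((PB.const 3).mul (PF.size (PF.fst' PF.fst))).add (PB.const 30)) (PB.const 0) ?_
    intro p st
    exact (sz_stepU_le _ _).trans (le_max_left _ _)
  exact PF.le (PF.length (PF.fst' PF.fst)) (PF.fst' h)

theorem pf_haltN {cd : α → NCode} {w y : α → List Bool} {t : α → ℕ} (hc : PF cd) (hw : PF w)
    (hy : PF y) (ht : PF t) : PF (fun a => haltN (cd a) (w a) (y a) (t a)) :=
  pf_haltN0.comp (PF.pair hc (PF.pair (PF.pair hw hy) ht))

theorem pf_max {m n : α → ℕ} (hm : PF m) (hn : PF n) : PF (fun a => max (m a) (n a)) := by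
  refine (PF.ite (PF.le hm hn) hn hm).congr ?_
  intro a
  by_cases h : m a ≤ n a
  · simp [h]
  · simp [h, max_eq_left (not_le.1 h).le]

end

/-- powers of two are computable -/
theorem cb_two_pow : Cb (fun n : ℕ => 2 ^ n) := by
  obtain ⟨C, _, h⟩ := has_exp (m := fun n : ℕ => n) PF.id (f := fun p : ℕ × ℕ => p.2) PF.snd
  exact ⟨_, h⟩

/-- a string of length at most `G` has an index below `2 ^ (G + 1)` -/
theorem idx_lt_of_length {y : List Bool} {G : ℕ} (h : y.length ≤ G) : idx y < 2 ^ (G + 1) := by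
  have h1 := idx_lt y
  have h2 : 2 ^ (y.length + 1) ≤ 2 ^ (G + 1) := Nat.pow_le_pow_right (by norm_num) (by omega)
  omega

/-- brute force over all guesses of length at most `s`, with `E ≥ 2 ^ (s + 1)` -/
def brute (cd : NCode) (w : List Bool) (s E : ℕ) : Bool :=
  (List.range E).any (fun k => decide ((str k).length ≤ s) && haltN cd w (str k) s)

theorem brute_sound {cd : NCode} {w : List Bool} {s E : ℕ} (h : brute cd w s E = true) :
    AccC cd w s := by
  unfold brute at h
  rw [List.any_eq_true] at h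
  obtain ⟨k, _, h⟩ := h
  rw [Bool.and_eq_true, decide_eq_true_eq] at h
  exact ⟨str k, h.1, h.2⟩

theorem brute_complete {cd : NCode} {w : List Bool} {s E : ℕ} (hE : 2 ^ (s + 1) ≤ E)
    (h : AccC cd w s) : brute cd w s E = true := by
  obtain ⟨y, h1, h2⟩ := h
  unfold brute
  rw [List.any_eq_true]
  refine ⟨idx y, List.mem_range.2 ((idx_lt_of_length h1).trans_le hE), ?_⟩
  rw [str_idx, Bool.and_eq_true, decide_eq_true_eq]
  exact ⟨h1, h2⟩

theorem pf_brute {α : Type} [TEnc α] {cd : α → NCode} {w : α → List Bool} {s E : α → ℕ}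
    (hc : PF cd) (hw : PF w) (hs : PF s) (hE : PF E) :
    PF (fun a => brute (cd a) (w a) (s a) (E a)) := by
  refine PF.any (f := fun a k => decide ((str k).length ≤ s a) &&
    haltN (cd a) (w a) (str k) (s a)) (PF.range hE) ?_
  exact PF.and (PF.le (PF.length (PF.str PF.snd)) (hs.comp PF.fst))
    (pf_haltN (hc.comp PF.fst) (hw.comp PF.fst) (PF.str PF.snd) (hs.comp PF.fst))

end Pool.Agent.W2helper61.NT
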