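import Pool.Agent.W2helper61.NT.Enum

/-!
Between a time bound `t` and any honest `g` growing faster than every polynomial in `t` there is
a computable nondecreasing time bound for which the complement problem has a negative answer.
-/

set_option autoImplicit false

namespace Pool.Agent.W2helper61.NT

open Turing Pool.Agent.H583R2

/-! ### a sparse sequence -/

/-- the sparse sequence of diagonalisation points -/
def V (g : ℕ → ℕ) : ℕ → ℕ
  | 0 => 0
  | j + 1 => 2 ^ g (V g j)

/-- the number of the last point `≤ n` -/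
def lastJ (g : ℕ → ℕ) (n : ℕ) : ℕ := Nat.findGreatest (fun j => V g j ≤ n) n

section
variable {g : ℕ → ℕ}

theorem V_lt (hg : ∀ n, n ≤ g n) (j : ℕ) : V g j < V g (j + 1) := by
  have h1 := hg (V g j)
  have h2 := Nat.lt_two_pow_self (n := g (V g j))
  rw [V]
  omega

theorem V_strict (hg : ∀ n, n ≤ g n) : StrictMono (V g) := strictMono_nat_of_lt_succ (V_lt hg)

theorem le_V (hg : ∀ n, n ≤ g n) (j : ℕ) : j ≤ V g j := (V_strict hg).id_le j

theorem V_lastJ_le (n : ℕ) : V g (lastJ g n) ≤ n := by
  unfold lastJ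
  exact Nat.findGreatest_spec (P := fun j => V g j ≤ n) (m := 0) (Nat.zero_le _)
    (by simp [V])

theorem le_lastJ (hg : ∀ n, n ≤ g n) {j n : ℕ} (h : V g j ≤ n) : j ≤ lastJ g n :=
  Nat.le_findGreatest ((le_V hg j).trans h) h

theorem lastJ_le (n : ℕ) : lastJ g n ≤ n := Nat.findGreatest_le _

theorem lt_V_succ (hg : ∀ n, n ≤ g n) (n : ℕ) : n < V g (lastJ g n + 1) := by
  by_contra h
  have := le_lastJ hg (not_lt.1 h)
  omega

theorem lastJ_unique (hg : ∀ n, n ≤ g n) {j n : ℕ} (h1 : V g j ≤ n) (h2 : n < V g (j + 1)) :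
    lastJ g n = j := by
  apply le_antisymm
  · by_contra h
    have h3 : V g (j + 1) ≤ V g (lastJ g n) := (V_strict hg).monotone (by omega)
    have := V_lastJ_le (g := g) n
    omega
  · exact le_lastJ hg h1

theorem lastJ_V (hg : ∀ n, n ≤ g n) (j : ℕ) : lastJ g (V g j) = j :=
  lastJ_unique hg le_rfl (V_lt hg j)

theorem lastJ_pred (hg : ∀ n, n ≤ g n) (j : ℕ) : lastJ g (V g (j + 1) - 1) = j := by
  have := V_lt hg j
  exact lastJ_unique hg (by omega) (by omega)

end

/-! ### capped computation of the sequence -/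

section
variable (cg : Code) (kg : ℕ)

/-- value of the honest function, correct if at most `G` -/
def gC (i G : ℕ) : ℕ := ((U cg (una i) ((G + 2) ^ kg)).getD []).length

def stepV (n G : ℕ) (p : ℕ × ℕ) : ℕ × ℕ :=
  if decide (min (2 ^ gC cg kg p.2 G) (n + 1) ≤ n) then
    (p.1 + 1, min (2 ^ gC cg kg p.2 G) (n + 1)) else p

def LV (n G : ℕ) : ℕ × ℕ := (stepV cg kg n G)^[n] (0, 0)

theorem stepV_bound (n G : ℕ) (j : ℕ) :
    ((stepV cg kg n G)^[j] (0, 0)).1 ≤ j ∧ ((stepV cg kg n G)^[j] (0, 0)).2 ≤ n := by
  induction j with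
  | zero => simp
  | succ j ih =>
    rw [Function.iterate_succ_apply']
    generalize (stepV cg kg n G)^[j] (0, 0) = p at *
    unfold stepV
    split
    · rename_i h
      rw [decide_eq_true_eq] at h
      exact ⟨by simp only; omega, h⟩
    · exact ⟨by omega, ih.2⟩

variable {cg kg}
variable {α : Type} [TEnc α]

theorem pf_gC {i G : α → ℕ} (hi : PF i) (hG : PF G) : PF (fun a => gC cg kg (i a) (G a)) := by
  have h1 : PF (fun a => (G a + 2) ^ kg) := pf_powN (PF.add hG (PF.const 2)) kg
  exact PF.length (PF.getD (PF.U.comp (PF.pair (PF.const cg) (PF.pair (pf_una hi) h1)))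
    (PF.const []))

theorem pf_stepV : PF (fun q : (ℕ × ℕ) × (ℕ × ℕ) => stepV cg kg q.1.1 q.1.2 q.2) := by
  have hg : PF (fun q : (ℕ × ℕ) × (ℕ × ℕ) => min (2 ^ gC cg kg q.2.2 q.1.2) (q.1.1 + 1)) :=
    pf_cexp (pf_gC (PF.snd' PF.snd) (PF.snd' PF.fst)) (PF.succ (PF.fst' PF.fst))
  exact PF.ite (PF.le hg (PF.fst' PF.fst)) (PF.pair (PF.succ (PF.fst' PF.snd)) hg) PF.snd

theorem pb_four : PB (fun p : ℕ × ℕ => 4 * p.1 + 3) := by
  have h : PB (fun p : ℕ × ℕ => p.1) := pb_of_sz (PF.size PF.fst)
  exact ((PB.const 4).mul h).add (PB.const 3)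

theorem pf_LV0 : PF (fun p : ℕ × ℕ => (stepV cg kg p.1 p.2)^[p.1] (0, 0)) := by
  refine PF.iterate (n := fun p : ℕ × ℕ => p.1) (s := fun _ => ((0 : ℕ), (0 : ℕ)))
    (f := fun p => stepV cg kg p.1 p.2) (b := fun p => 4 * p.1 + 3) PF.fst (PF.const _)
    pf_stepV pb_four ?_
  intro p j hj
  obtain ⟨h1, h2⟩ := stepV_bound cg kg p.1 p.2 j
  rw [sz_prod, sz_nat, sz_nat]
  omega

theorem pf_LV {n G : α → ℕ} (hn : PF n) (hG : PF G) : PF (fun a => LV cg kg (n a) (G a)) := by
  have h1 := PF.comp (pf_LV0 (cg := cg) (kg := kg)) (PF.pair hn hG)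
  refine h1.congr ?_
  intro a
  unfold LV
  rfl

variable {g : ℕ → ℕ}

theorem gC_eq (hU : ∀ n s, (g n + 2) ^ kg ≤ s → U cg (una n) s = some (una (g n))) {i G : ℕ}
    (h : g i ≤ G) : gC cg kg i G = g i := by
  unfold gC
  rw [hU i _ (Nat.pow_le_pow_left (by omega) _), Option.getD_some, map_una]

theorem LV_eq (hU : ∀ n s, (g n + 2) ^ kg ≤ s → U cg (una n) s = some (una (g n)))
    (hg : ∀ n, n ≤ g n) (hmono : Monotone g) {n G : ℕ} (hG : g n ≤ G) :
    LV cg kg n G = (lastJ g n, V g (lastJ g n)) := by
  have key : ∀ i, (stepV cg kg n G)^[i] (0, 0) =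
      (min i (lastJ g n), V g (min i (lastJ g n))) := by
    intro i
    induction i with
    | zero => simp [V]
    | succ i ih =>
      rw [Function.iterate_succ_apply', ih]
      have hle : V g (min i (lastJ g n)) ≤ n :=
        ((V_strict hg).monotone (min_le_right _ _)).trans (V_lastJ_le n)
      unfold stepV
      simp only
      rw [gC_eq hU ((hmono hle).trans hG)]
      have e : 2 ^ g (V g (min i (lastJ g n))) = V g (min i (lastJ g n) + 1) := rfl
      rw [e]
      rcases Nat.lt_or_ge i (lastJ g n) with h | h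
      · have e1 : min i (lastJ g n) = i := min_eq_left h.le
        have e2 : min (i + 1) (lastJ g n) = i + 1 := min_eq_left h
        have h3 : V g (i + 1) ≤ n := ((V_strict hg).monotone h).trans (V_lastJ_le n)
        rw [e1, e2, min_eq_left (by omega), if_pos (by simpa using h3)]
      · have e1 : min i (lastJ g n) = lastJ g n := min_eq_right h
        have e2 : min (i + 1) (lastJ g n) = lastJ g n := min_eq_right (by omega)
        have h3 := lt_V_succ hg n
        rw [e1, e2, min_eq_right (by omega), if_neg (by simp)]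
  unfold LV
  rw [key, min_eq_right (lastJ_le n)]

end

/-! ### the time bound -/

open Classical in
/-- the diagonal time bound between `t` and `g` -/
noncomputable def tp (t g : ℕ → ℕ) (n : ℕ) : ℕ :=
  if V g (lastJ g n) = n ∧ AccC (mN (lastJ g n)) (una n) (g n) then g n
  else max (t n) (if n = 0 then 0 else g (V g (lastJ g (n - 1))))

section
variable {t g : ℕ → ℕ}

theorem pred_last (hmono : Monotone g) (n : ℕ) :
    (if n = 0 then 0 else g (V g (lastJ g (n - 1)))) ≤ g n := by
  split
  · exact Nat.zero_le _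
  · exact hmono ((V_lastJ_le (n - 1)).trans (by omega))

theorem tp_bounds (hmono : Monotone g) (htg : ∀ n, t n ≤ g n) (n : ℕ) :
    t n ≤ tp t g n ∧ tp t g n ≤ g n := by
  unfold tp
  split
  · exact ⟨htg n, le_rfl⟩
  · exact ⟨le_max_left _ _, max_le (htg n) (pred_last hmono n)⟩

theorem tp_mono (hg : ∀ n, n ≤ g n) (ht : Monotone t) (hmono : Monotone g)
    (htg : ∀ n, t n ≤ g n) : Monotone (tp t g) := by
  apply monotone_nat_of_le_succ
  intro n
  -- the value at `n + 1` is at least `max (t n) (g (V (lastJ n)))`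
  have h1 : max (t (n + 1)) (g (V g (lastJ g n))) ≤ tp t g (n + 1) := by
    unfold tp
    split
    · refine max_le (htg _) (hmono ((V_lastJ_le n).trans (by omega)))
    · rw [if_neg (Nat.succ_ne_zero n), Nat.add_sub_cancel]
  refine le_trans ?_ h1
  by_cases hV : V g (lastJ g n) = n
  · refine (tp_bounds hmono htg n).2.trans ?_
    rw [hV]
    exact le_max_right _ _
  · unfold tp
    rw [if_neg (fun h => hV h.1)]
    refine max_le_max (ht (Nat.le_succ n)) ?_
    split
    · exact Nat.zero_le _
    · rename_i h0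
      apply hmono
      apply (V_strict hg).monotone
      exact le_lastJ hg ((V_lastJ_le (n - 1)).trans (by omega))

end

/-- the computable form of `tp` -/
def tpF (cg : Code) (kg : ℕ) (n T G E : ℕ) : ℕ :=
  if decide ((LV cg kg n G).2 = n) && brute (mN (LV cg kg n G).1) (una n) G E then G
  else max T (if decide (n = 0) then 0 else gC cg kg (LV cg kg (n - 1) G).2 G)

theorem tp_eq {t g : ℕ → ℕ} {cg : Code} {kg : ℕ}
    (hU : ∀ n s, (g n + 2) ^ kg ≤ s → U cg (una n) s = some (una (g n)))
    (hg : ∀ n, n ≤ g n) (hmono : Monotone g) (n : ℕ) :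
    tp t g n = tpF cg kg n (t n) (g n) (2 ^ (g n + 1)) := by
  unfold tp tpF
  have h1 : LV cg kg n (g n) = (lastJ g n, V g (lastJ g n)) := LV_eq hU hg hmono le_rfl
  have h2 : LV cg kg (n - 1) (g n) = (lastJ g (n - 1), V g (lastJ g (n - 1))) :=
    LV_eq hU hg hmono (hmono (by omega))
  rw [h1, h2]
  simp only
  have h3 : gC cg kg (V g (lastJ g (n - 1))) (g n) = g (V g (lastJ g (n - 1))) :=
    gC_eq hU (hmono ((V_lastJ_le _).trans (by omega)))
  rw [h3]
  have h4 : AccC (mN (lastJ g n)) (una n) (g n) ↔
      brute (mN (lastJ g n)) (una n) (g n) (2 ^ (g n + 1)) = true :=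
    ⟨brute_complete le_rfl, brute_sound⟩
  by_cases hV : V g (lastJ g n) = n
  · by_cases hA : AccC (mN (lastJ g n)) (una n) (g n)
    · rw [if_pos ⟨hV, hA⟩, if_pos (by simp [hV, h4.1 hA])]
    · have hb : (decide (V g (lastJ g n) = n) &&
          brute (mN (lastJ g n)) (una n) (g n) (2 ^ (g n + 1))) = false := by
        rw [Bool.eq_false_iff, ne_eq, Bool.and_eq_true]; exact fun h => hA (h4.2 h.2)
      rw [if_neg (fun h => hA h.2), hb]
      simp
  · have hb : (decide (V g (lastJ g n) = n) &&
          brute (mN (lastJ g n)) (una n) (g n) (2 ^ (g n + 1))) = false := by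
        rw [Bool.eq_false_iff, ne_eq, Bool.and_eq_true, decide_eq_true_eq]; exact fun h => hV h.1
    rw [if_neg (fun h => hV h.1), hb]
    simp

theorem pf_tpF (cg : Code) (kg : ℕ) :
    PF (fun p : ℕ × ℕ × ℕ × ℕ => tpF cg kg p.1 p.2.1 p.2.2.1 p.2.2.2) := by
  have hn : PF (fun p : ℕ × ℕ × ℕ × ℕ => p.1) := PF.fst
  have hT : PF (fun p : ℕ × ℕ × ℕ × ℕ => p.2.1) := PF.fst' PF.snd
  have hG : PF (fun p : ℕ × ℕ × ℕ × ℕ => p.2.2.1) := PF.fst' (PF.snd' PF.snd)
  have hE : PF (fun p : ℕ × ℕ × ℕ × ℕ => p.2.2.2) := PF.snd' (PF.snd' PF.snd)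
  have hL := pf_LV (cg := cg) (kg := kg) hn hG
  refine PF.ite (PF.and (PF.natEq (PF.snd' hL) hn) (pf_brute (pf_mN (PF.fst' hL)) (pf_una hn)
    hG hE)) hG (pf_max hT (PF.ite (PF.natEq hn (PF.const 0)) (PF.const 0) ?_))
  exact pf_gC (PF.snd' (pf_LV (PF.pred hn) hG)) hG

/-! ### the main theorem -/

theorem nonclosure_between (t g : ℕ → ℕ) (ht : TMComputable t) (hh : Honest g)
    (htm : Monotone t) (hgm : Monotone g) (hg : ∀ n, n ≤ g n) (htg : ∀ n, t n ≤ g n)
    (hdom : ∀ c, ∃ n0, ∀ n, n0 ≤ n → t n ^ c + c ≤ g n) :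
    ∃ t' : ℕ → ℕ, TMComputable t' ∧ Monotone t' ∧ (∀ n, t n ≤ t' n ∧ t' n ≤ g n) ∧
      coNTIME t' ≠ NTIME t' := by
  obtain ⟨cg, kg, hU⟩ := code_of_honest hh
  refine ⟨tp t g, ?_, tp_mono hg htm hgm htg, tp_bounds hgm htg, ?_⟩
  · -- computability
    apply tmComputable_of_cb
    have ht' : Cb t := cb_of_tmComputable ht
    have hg' : Cb g := by
      obtain ⟨M, _⟩ := hh
      exact cb_of_tmComputable ⟨M.toTM2Computable⟩
    have hE : Cb (fun n => 2 ^ (g n + 1)) :=
      cb_two_pow.comp (Cb.pf (PF.succ PF.id) hg')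
    refine ((Cb.pf (pf_tpF cg kg) (Cb.id.pair (ht'.pair (hg'.pair hE))))).congr ?_
    intro n
    exact (tp_eq hU hg hgm n).symm
  · -- the diagonal language
    intro hco
    set L : Set (List Bool) := {w | V g (lastJ g w.length) = w.length ∧
      AccC (mN (lastJ g w.length)) (una w.length) (g w.length)} with hL
    have hLN : L ∈ NTIME (tp t g) := by
      -- the acceptance test
      let f : List Bool × List Bool × ℕ → Bool := fun q =>
        match U cg (una q.1.length) q.2.2 with
        | none => false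
        | some o => decide ((LV cg kg q.1.length o.length).2 = q.1.length) &&
            (decide (q.2.1.length ≤ o.length) &&
              haltN (mN (LV cg kg q.1.length o.length).1) (una q.1.length) q.2.1 o.length)
      have hf : PF f := by
        have hn : PF (fun q : (List Bool × List Bool × ℕ) × List Bool => q.1.1.length) :=
          PF.length (PF.fst' PF.fst)
        have ho : PF (fun q : (List Bool × List Bool × ℕ) × List Bool => q.2.length) :=
          PF.length PF.snd
        have hy : PF (fun q : (List Bool × List Bool × ℕ) × List Bool => q.1.2.1) :=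
          PF.fst' (PF.snd' PF.fst)
        refine (PF.optCase (l := fun q : List Bool × List Bool × ℕ =>
          U cg (una q.1.length) q.2.2) (g := fun _ => false)
          (h := fun q o => decide ((LV cg kg q.1.length o.length).2 = q.1.length) &&
            (decide (q.2.1.length ≤ o.length) &&
              haltN (mN (LV cg kg q.1.length o.length).1) (una q.1.length) q.2.1 o.length))
          (PF.U.comp (PF.pair (PF.const cg) (PF.pair (pf_una (PF.length PF.fst))
            (PF.snd' PF.snd)))) (PF.const false) ?_).congr ?_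
        · exact PF.and (PF.natEq (PF.snd' (pf_LV hn ho)) hn) (PF.and (PF.le (PF.length hy) ho)
            (pf_haltN (pf_mN (PF.fst' (pf_LV hn ho))) (pf_una hn) hy ho))
        · intro q
          simp only [f]
          rcases U cg (una q.1.length) q.2.2 with _ | _ <;> rfl
      have hfin : ∀ (w ys : List Bool) (m : ℕ), f (w, ys, m) = true →
          V g (lastJ g w.length) = w.length ∧ ys.length ≤ g w.length ∧
            haltN (mN (lastJ g w.length)) (una w.length) ys (g w.length) = true := by
        intro w ys m h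
        simp only [f] at h
        rcases ho : U cg (una w.length) m with _ | o
        · rw [ho] at h; cases h
        · have e : o = una (g w.length) := by
            have h1 := U_mono ho (le_max_left m ((g w.length + 2) ^ kg))
            rw [hU w.length _ (le_max_right _ _)] at h1
            exact (Option.some.inj h1).symm
          rw [ho] at h
          simp only [e, map_una] at h
          rw [LV_eq hU hg hgm le_rfl] at h
          simp only [Bool.and_eq_true, decide_eq_true_eq] at h
          exact h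
      have hfin2 : ∀ (w ys : List Bool) (m : ℕ), V g (lastJ g w.length) = w.length →
          ys.length ≤ g w.length →
          haltN (mN (lastJ g w.length)) (una w.length) ys (g w.length) = true →
          (g w.length + 2) ^ kg ≤ m → f (w, ys, m) = true := by
        intro w ys m h1 h2 h3 h4
        simp only [f, hU w.length m h4, map_una]
        rw [LV_eq hU hg hgm le_rfl]
        simp [h1, h2, h3]
      obtain ⟨M, c, hM1, hM2⟩ := guess_machine hf
      refine ⟨M, Polynomial.X + (Polynomial.X + (Polynomial.X + (Polynomial.X + 2) ^ kg) + 2) ^ c,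
        ?_, ?_⟩
      · intro w
        constructor
        · rintro ⟨h1, y, h2, h3⟩
          have h4 : y.take (max y.length ((g w.length + 2) ^ kg)) = y :=
            List.take_of_length_le (le_max_left _ _)
          have h5 := hfin2 w y (max y.length ((g w.length + 2) ^ kg)) h1 h2 h3 (le_max_right _ _)
          obtain ⟨n, hn, h6⟩ := hM2 w y _ (by rw [h4]; exact h5)
          exact ⟨y.length + n, y, n, le_rfl, h6⟩
        · rintro ⟨s, y, n, _, h⟩
          obtain ⟨m, _, h2⟩ := hM1 w y n h
          obtain ⟨h3, h4, h5⟩ := hfin _ _ _ h2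
          exact ⟨h3, _, h4, h5⟩
      · rintro w ⟨h1, y, h2, h3⟩
        have h4 : y.take (max y.length ((g w.length + 2) ^ kg)) = y :=
          List.take_of_length_le (le_max_left _ _)
        have h5 := hfin2 w y (max y.length ((g w.length + 2) ^ kg)) h1 h2 h3 (le_max_right _ _)
        obtain ⟨n, hn, h6⟩ := hM2 w y _ (by rw [h4]; exact h5)
        have h7 : tp t g w.length = g w.length := by
          unfold tp
          rw [if_pos ⟨h1, y, h2, h3⟩]
        refine ⟨y, n, ?_, h6⟩
        rw [h7]
        simp only [Polynomial.eval_add, Polynomial.eval_X, Polynomial.eval_pow,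
          Polynomial.eval_ofNat]
        have h8 : (w.length + max y.length ((g w.length + 2) ^ kg) + 2) ^ c ≤
            (g w.length + (g w.length + (g w.length + 2) ^ kg) + 2) ^ c := by
          apply Nat.pow_le_pow_left
          have := hg w.length
          have : max y.length ((g w.length + 2) ^ kg) ≤ g w.length + (g w.length + 2) ^ kg :=
            max_le (by omega) (by omega)
          omega
        omega
    have hLc : Lᶜ ∈ NTIME (tp t g) := by
      have : L ∈ coNTIME (tp t g) := by rw [hco]; exact hLN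
      exact this
    obtain ⟨M, p, hM1, hM2⟩ := hLc
    obtain ⟨cd, D, hD, hc1, hc2⟩ := exists_code M
    obtain ⟨c, hc⟩ := poly_le_pow p
    obtain ⟨c', hc'⟩ := poly_norm D c
    obtain ⟨n0, hn0⟩ := hdom c'
    obtain ⟨n1, hn1⟩ := poly_lt_exp 1 c'
    obtain ⟨j, hj, hjm⟩ := exists_mN cd (max n0 (n1 + 1) + 1)
    obtain ⟨i, rfl⟩ : ∃ i, j = i + 1 := ⟨j - 1, by omega⟩
    set n := V g (i + 1) with hn
    have hlast : lastJ g n = i + 1 := lastJ_V hg _
    have hprev : lastJ g (n - 1) = i := lastJ_pred hg i
    have hnpos : n ≠ 0 := by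
      have := le_V hg (i + 1)
      omega
    have hlen : (una n).length = n := map_una n
    -- membership of `1^n` in `L`
    have hmem : una n ∈ L ↔ AccC cd (una n) (g n) := by
      rw [hL, Set.mem_ofPred_eq, hlen, hlast, hjm]
      exact ⟨fun h => h.2, fun h => ⟨rfl, h⟩⟩
    by_cases hA : AccC cd (una n) (g n)
    · have h1 : una n ∈ Lᶜ := (hM1 _).2 ⟨_, hc2 _ _ hA⟩
      exact h1 (hmem.2 hA)
    · have h1 : una n ∈ Lᶜ := fun h => hA (hmem.1 h)
      have h2 := hc1 _ _ (hM2 _ h1)
      apply hA
      refine h2.mono ?_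
      rw [hlen]
      have h3 : tp t g n = max (t n) (g (V g i)) := by
        unfold tp
        rw [hlast, hjm, if_neg (fun h => hA h.2), if_neg hnpos, hprev]
      rw [h3]
      have h4 : ∀ x, x ^ c' + c' ≤ g n → D * p.eval x ≤ g n := by
        intro x hx
        calc D * p.eval x ≤ D * (x + 2) ^ c := Nat.mul_le_mul_left _ (hc x)
          _ ≤ x ^ c' + c' := by have := hc' x; omega
          _ ≤ g n := hx
      rcases max_choice (t n) (g (V g i)) with hmx | hmx
      · rw [hmx]
        apply h4
        apply hn0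
        have := le_V hg (i + 1)
        omega
      · rw [hmx]
        apply h4
        have h5 : n = 2 ^ g (V g i) := rfl
        have h6 : i ≤ g (V g i) := (le_V hg i).trans (hg _)
        have h7 := hn1 (g (V g i)) (by omega)
        have h8 := hg n
        rw [one_mul] at h7
        omega

end Pool.Agent.W2helper61.NT
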