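import Pool.Agent.W2helper61.NT.Tow

/-!
Arbitrarily large computable nondecreasing time bounds `t` with
`NTIME(Pol t) = DTIME(Pol t)` for which this class is not closed under complementation.
-/

set_option autoImplicit false

namespace Pool.Agent.W2helper61.NT

open Turing Pool.Agent.H583R2

section
variable (H : ℕ → ℕ)

/-- ends of the windows -/
def wi (i n : ℕ) : ℕ := tow (3 * i) (H n)

/-- no code `r ≤ n` accepts a word of length `n` for the first time inside window `i` -/
def Free (i n : ℕ) : Prop :=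
  ∀ r ≤ n, ∀ w : List Bool, w.length = n → AccC (mN r) w (wi H (i + 1) n) →
    AccC (mN r) w (wi H i n)

theorem wi_mono {i j : ℕ} (h : i ≤ j) (n : ℕ) : wi H i n ≤ wi H j n :=
  tow_mono (by omega) _

/-- a free window exists in every sufficiently long stretch -/
theorem exists_free (a n : ℕ) :
    ∃ i, a ≤ i ∧ i ≤ a + (n + 1) * 2 ^ (n + 1) ∧ Free H i n := by
  by_contra hne
  push Not at hne
  have h1 : ∀ i ∈ Finset.Icc a (a + (n + 1) * 2 ^ (n + 1)),
      ∃ q : ℕ × ℕ, q ∈ Finset.range (n + 1) ×ˢ Finset.range (2 ^ (n + 1)) ∧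
        AccC (mN q.1) (str q.2) (wi H (i + 1) n) ∧ ¬ AccC (mN q.1) (str q.2) (wi H i n) := by
    intro i hi
    rw [Finset.mem_Icc] at hi
    have h2 := hne i hi.1 hi.2
    unfold Free at h2
    push Not at h2
    obtain ⟨r, hr, w, hw, h3, h4⟩ := h2
    refine ⟨(r, idx w), ?_, ?_, ?_⟩
    · rw [Finset.mem_product, Finset.mem_range, Finset.mem_range]
      exact ⟨by simp only; omega, idx_lt_of_length hw.le⟩
    · rw [str_idx]; exact h3
    · rw [str_idx]; exact h4
  choose! q hq using h1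
  have h2 : (Finset.range (n + 1) ×ˢ Finset.range (2 ^ (n + 1))).card <
      (Finset.Icc a (a + (n + 1) * 2 ^ (n + 1))).card := by
    rw [Finset.card_product, Finset.card_range, Finset.card_range, Nat.card_Icc]
    omega
  obtain ⟨i, hi, j, hj, hij, he⟩ := Finset.exists_ne_map_eq_of_card_lt_of_maps_to h2
    (fun i hi => (hq i hi).1)
  have key : ∀ i j, i ∈ Finset.Icc a (a + (n + 1) * 2 ^ (n + 1)) →
      j ∈ Finset.Icc a (a + (n + 1) * 2 ^ (n + 1)) → q i = q j → i < j → False := by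
    intro i j hi hj he hlt
    have h3 := (hq i hi).2.1
    have h4 := (hq j hj).2.2
    rw [he] at h3
    exact h4 (h3.mono (wi_mono H (by omega) n))
  rcases Nat.lt_or_gt_of_ne hij with h | h
  · exact key i j hi hj he h
  · exact key j i hj hi he.symm h

theorem ex0 (n : ℕ) : ∃ i, Free H i n := by
  obtain ⟨i, _, _, h⟩ := exists_free H 0 n
  exact ⟨i, h⟩

open Classical in
/-- the first free window -/
noncomputable def i0 (n : ℕ) : ℕ := Nat.find (ex0 H n)

theorem i0_free (n : ℕ) : Free H (i0 H n) n := by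
  classical
  exact Nat.find_spec (ex0 H n)

theorem i0_min {n i : ℕ} (h : Free H i n) : i0 H n ≤ i := by
  classical
  exact Nat.find_min' (ex0 H n) h

theorem ex1 (n : ℕ) : ∃ i, i0 H n + 2 ≤ i ∧ Free H i n := by
  obtain ⟨i, h1, _, h⟩ := exists_free H (i0 H n + 2) n
  exact ⟨i, h1, h⟩

open Classical in
/-- the first free window above window `i0 + 1` -/
noncomputable def i1 (n : ℕ) : ℕ := Nat.find (ex1 H n)

theorem i1_free (n : ℕ) : Free H (i1 H n) n := by
  classical
  exact (Nat.find_spec (ex1 H n)).2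

theorem i1_ge (n : ℕ) : i0 H n + 2 ≤ i1 H n := by
  classical
  exact (Nat.find_spec (ex1 H n)).1

theorem i0_le (n : ℕ) : i0 H n ≤ (n + 1) * 2 ^ (n + 1) := by
  obtain ⟨i, _, h1, h⟩ := exists_free H 0 n
  have := i0_min H h
  omega

theorem i1_le (n : ℕ) : i1 H n ≤ 2 * ((n + 1) * 2 ^ (n + 1)) + 2 := by
  classical
  obtain ⟨i, h0, h1, h⟩ := exists_free H (i0 H n + 2) n
  have h2 : i1 H n ≤ i := Nat.find_min' (ex1 H n) ⟨h0, h⟩
  have := i0_le H n
  omega

theorem width (n : ℕ) : 3 * (2 * ((n + 1) * 2 ^ (n + 1)) + 2 + 1) + 1 ≤ 2 ^ (4 * n + 10) := by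
  have h1 : n + 1 ≤ 2 ^ n := Nat.lt_two_pow_self
  have h2 : (n + 1) * 2 ^ (n + 1) ≤ 2 ^ n * 2 ^ (n + 1) := Nat.mul_le_mul_right _ h1
  have h3 : 2 ^ n * 2 ^ (n + 1) = 2 ^ (2 * n + 1) := by rw [← pow_add]; congr 1; omega
  have h4 : 2 ^ (4 * n + 10) = 2 ^ (2 * n + 1) * 2 ^ (2 * n + 9) := by
    rw [← pow_add]; congr 1; omega
  have h5 : 512 ≤ 2 ^ (2 * n + 9) := by
    calc 512 = 2 ^ 9 := by norm_num
      _ ≤ _ := Nat.pow_le_pow_right (by norm_num) (by omega)
  have h6 : 1 ≤ 2 ^ (2 * n + 1) := Nat.one_le_two_pow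
  have h7 : 2 ^ (2 * n + 1) * 512 ≤ 2 ^ (2 * n + 1) * 2 ^ (2 * n + 9) :=
    Nat.mul_le_mul_left _ h5
  rw [h3] at h2
  rw [h4]
  generalize 2 ^ (2 * n + 1) * 2 ^ (2 * n + 9) = X at *
  generalize (n + 1) * 2 ^ (n + 1) = Y at *
  generalize 2 ^ (2 * n + 1) = Z at *
  omega

/-- the diagonal predicate -/
def Jd (n : ℕ) : Prop := AccC (mN n) (una n) (wi H (i0 H n + 1) n)

open Classical in
/-- the time bound -/
noncomputable def tg (n : ℕ) : ℕ :=
  if Jd H n then tow (3 * i1 H n + 1) (H n) else tow (3 * i0 H n + 1) (H n)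

variable {H}

theorem tg_ge (n : ℕ) : H n ≤ tg H n := by
  unfold tg
  split
  · exact tow_mono (Nat.zero_le _) (H n)
  · exact tow_mono (Nat.zero_le _) (H n)

theorem tg_le (n : ℕ) : tg H n ≤ tow (2 ^ (4 * n + 10)) (H n) := by
  have h1 := i1_le H n
  have h2 := i0_le H n
  have h3 := width n
  unfold tg
  split
  · exact tow_mono (by omega) (H n)
  · exact tow_mono (by omega) (H n)

theorem tg_mono (hH : BaseFn H) : Monotone (tg H) := by
  apply monotone_nat_of_le_succ
  intro n
  exact (tg_le n).trans ((hH.grow n).le.trans (tg_ge (n + 1)))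

/-! ### capped evaluation -/

section capped
variable (H)

def wiC (i n N : ℕ) : ℕ := capTow (3 * i) (min (H n) N) N

theorem wiC_eq (i n N : ℕ) : wiC H i n N = min (wi H i n) N := capTow_min _ _ _

/-- the cap is large enough for window `i` -/
def grd (i n N : ℕ) : Bool := decide (min (2 ^ (wiC H (i + 1) n N + 1)) (N + 1) ≤ N)

theorem grd_iff (i n N : ℕ) : grd H i n N = true ↔ 2 ^ (wi H (i + 1) n + 1) ≤ N := by
  unfold grd
  rw [decide_eq_true_eq, wiC_eq]
  have h1 : min (2 ^ (min (wi H (i + 1) n) N + 1)) (N + 1) ≤ N ↔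
      2 ^ (min (wi H (i + 1) n) N + 1) ≤ N := by omega
  rw [h1]
  rcases le_total (wi H (i + 1) n) N with h | h
  · rw [min_eq_left h]
  · rw [min_eq_right h]
    have h2 : N < 2 ^ (N + 1) := (Nat.lt_succ_self N).trans Nat.lt_two_pow_self
    have h3 : 2 ^ (N + 1) ≤ 2 ^ (wi H (i + 1) n + 1) :=
      Nat.pow_le_pow_right (by norm_num) (by omega)
    omega

def freeC (i n N : ℕ) : Bool := (List.range (n + 1)).all fun r => (List.range N).all fun k =>
  !(decide ((str k).length = n) && brute (mN r) (str k) (wiC H (i + 1) n N) N) ||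
    brute (mN r) (str k) (wiC H i n N) N

theorem brute_iff {cd : NCode} {w : List Bool} {s E : ℕ} (hE : 2 ^ (s + 1) ≤ E) :
    brute cd w s E = true ↔ AccC cd w s := ⟨brute_sound, brute_complete hE⟩

theorem freeC_iff {i n N : ℕ} (hn : n ≤ wi H (i + 1) n) (hg : grd H i n N = true) :
    freeC H i n N = true ↔ Free H i n := by
  rw [grd_iff] at hg
  have h1 : wi H i n ≤ wi H (i + 1) n := wi_mono H (by omega) n
  have h0 := Nat.lt_two_pow_self (n := wi H (i + 1) n + 1)
  have e1 : wiC H (i + 1) n N = wi H (i + 1) n := by rw [wiC_eq, min_eq_left (by omega)]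
  have e2 : wiC H i n N = wi H i n := by rw [wiC_eq, min_eq_left (by omega)]
  have h3 : 2 ^ (wi H i n + 1) ≤ N :=
    (Nat.pow_le_pow_right (by norm_num) (by omega)).trans hg
  unfold freeC Free
  rw [e1, e2]
  simp only [List.all_eq_true, List.mem_range, Bool.or_eq_true, Bool.not_eq_true',
    Bool.and_eq_false_iff, decide_eq_false_iff_not]
  constructor
  · intro h r hr w hw h4
    have h5 : idx w < N := (idx_lt_of_length hw.le).trans_le
      ((Nat.pow_le_pow_right (by norm_num) (by omega)).trans hg)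
    have h6 := h r (by omega) (idx w) h5
    rw [str_idx] at h6
    rcases h6 with (h6 | h6) | h6
    · exact absurd hw h6
    · rw [(brute_iff hg).2 h4] at h6; cases h6
    · exact (brute_iff h3).1 h6
  · intro h r hr k _
    by_cases hk : (str k).length = n
    · by_cases h4 : brute (mN r) (str k) (wi H (i + 1) n) N = true
      · right
        exact (brute_iff h3).2 (h r (by omega) _ hk ((brute_iff hg).1 h4))
      · left; right
        simpa using h4
    · left; left; exact hk

/-- first free window found below the cap -/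
def i0C (n N : ℕ) : Option ℕ :=
  (List.range N).find? (fun i => grd H i n N && freeC H i n N)

theorem i0C_some {n N i : ℕ} (hn : n ≤ H n) (h : i0C H n N = some i) :
    i = i0 H n ∧ grd H i n N = true := by
  unfold i0C at h
  rw [List.find?_range_eq_some] at h
  obtain ⟨h1, _, h2⟩ := h
  rw [Bool.and_eq_true] at h1
  have hw : ∀ j, n ≤ wi H j n := fun j => hn.trans (tow_mono (Nat.zero_le _) (H n))
  have h3 := (freeC_iff H (hw _) h1.1).1 h1.2
  refine ⟨le_antisymm ?_ (i0_min H h3), h1.1⟩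
  by_contra hlt
  push Not at hlt
  have h4 := h2 _ hlt
  have h5 : grd H (i0 H n) n N = true := by
    rw [grd_iff]
    have := (grd_iff H _ _ _).1 h1.1
    exact (Nat.pow_le_pow_right (by norm_num)
      (Nat.succ_le_succ (wi_mono H (by omega) n))).trans this
  rw [h5, (freeC_iff H (hw _) h5).2 (i0_free H n)] at h4
  simp at h4

theorem i0C_eq {n N : ℕ} (hn : n ≤ H n) (h : 2 ^ (wi H (i0 H n + 1) n + 1) ≤ N) :
    i0C H n N = some (i0 H n) := by
  have hg : grd H (i0 H n) n N = true := (grd_iff H _ _ _).2 h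
  have hw : ∀ j, n ≤ wi H j n := fun j => hn.trans (tow_mono (Nat.zero_le _) (H n))
  have hlt : i0 H n < N := by
    have h1 := add_le_tow (3 * (i0 H n + 1)) (H n)
    have h2 := Nat.lt_two_pow_self (n := wi H (i0 H n + 1) n + 1)
    unfold wi at *
    omega
  rcases ho : i0C H n N with _ | i
  · exfalso
    unfold i0C at ho
    rw [List.find?_eq_none] at ho
    have h3 := ho (i0 H n) (List.mem_range.2 hlt)
    rw [hg, (freeC_iff H (hw _) hg).2 (i0_free H n)] at h3
    exact h3 rfl
  · rw [(i0C_some H hn ho).1]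

/-- second free window -/
def i1C (a n N : ℕ) : Option ℕ :=
  (List.range N).find? (fun i => decide (a + 2 ≤ i) && (grd H i n N && freeC H i n N))

theorem i1C_eq {n N : ℕ} (hn : n ≤ H n) (h : 2 ^ (wi H (i1 H n + 1) n + 1) ≤ N) :
    i1C H (i0 H n) n N = some (i1 H n) := by
  classical
  have hg : ∀ j ≤ i1 H n, grd H j n N = true := fun j hj => (grd_iff H _ _ _).2
    ((Nat.pow_le_pow_right (by norm_num) (Nat.succ_le_succ (wi_mono H (by omega) n))).trans h)
  have hw : ∀ j, n ≤ wi H j n := fun j => hn.trans (tow_mono (Nat.zero_le _) (H n))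
  have hlt : i1 H n < N := by
    have h1 := add_le_tow (3 * (i1 H n + 1)) (H n)
    have h2 := Nat.lt_two_pow_self (n := wi H (i1 H n + 1) n + 1)
    unfold wi at *
    omega
  unfold i1C
  rw [List.find?_range_eq_some]
  refine ⟨?_, List.mem_range.2 hlt, ?_⟩
  · rw [hg _ le_rfl, (freeC_iff H (hw _) (hg _ le_rfl)).2 (i1_free H n)]
    simp [i1_ge H n]
  · intro j hj
    rw [hg j hj.le, Bool.not_eq_true', Bool.and_eq_false_iff, decide_eq_false_iff_not]
    by_cases h1 : i0 H n + 2 ≤ j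
    · right
      have h2 := Nat.find_min (ex1 H n) hj
      have h3 : ¬ Free H j n := fun h => h2 ⟨h1, h⟩
      rw [← freeC_iff H (hw _) (hg j hj.le)] at h3
      simpa using h3
    · left; exact h1

/-- capped form of the time bound, correct for large caps -/
def tgC (n N : ℕ) : ℕ :=
  if brute (mN n) (una n) (wiC H ((i0C H n N).getD 0 + 1) n N) N then
    capTow (3 * (i1C H ((i0C H n N).getD 0) n N).getD 0 + 1) (min (H n) N) N
  else capTow (3 * (i0C H n N).getD 0 + 1) (min (H n) N) N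

theorem tgC_eq {n N : ℕ} (hn : n ≤ H n) (h : 2 ^ (wi H (i1 H n + 1) n + 1) ≤ N) :
    tgC H n N = tg H n := by
  have h1 : wi H (i0 H n + 1) n ≤ wi H (i1 H n + 1) n := by
    have := i1_ge H n
    exact wi_mono H (by omega) n
  have h2 : 2 ^ (wi H (i0 H n + 1) n + 1) ≤ N :=
    (Nat.pow_le_pow_right (by norm_num) (by omega)).trans h
  have h3 := Nat.lt_two_pow_self (n := wi H (i1 H n + 1) n + 1)
  have h5 := i1_ge H n
  unfold tgC tg
  rw [i0C_eq H hn h2, Option.getD_some, i1C_eq H hn h, Option.getD_some, wiC_eq,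
    min_eq_left (by omega), capTow_min, capTow_min]
  have e1 : min (tow (3 * i1 H n + 1) (H n)) N = tow (3 * i1 H n + 1) (H n) := by
    apply min_eq_left
    have : tow (3 * i1 H n + 1) (H n) ≤ wi H (i1 H n + 1) n := tow_mono (by omega) _
    omega
  have e2 : min (tow (3 * i0 H n + 1) (H n)) N = tow (3 * i0 H n + 1) (H n) := by
    apply min_eq_left
    have : tow (3 * i0 H n + 1) (H n) ≤ wi H (i1 H n + 1) n := tow_mono (by omega) _
    omega
  rw [e1, e2]
  by_cases hJ : Jd H n
  · rw [if_pos hJ, if_pos ((brute_iff h2).2 hJ)]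
  · rw [if_neg hJ, if_neg (fun h => hJ ((brute_iff h2).1 h))]

end capped

/-! ### complexity -/

section pf
variable {α : Type} [TEnc α]

theorem pf_wiC (hH : BaseFn H) {i n N : α → ℕ} (hi : PF i) (hn : PF n) (hN : PF N) :
    PF (fun a => wiC H (i a) (n a) (N a)) :=
  pf_capTow (PF.mul (PF.const 3) hi) (hH.cap.comp (PF.pair hn hN)) hN

theorem pf_grd (hH : BaseFn H) {i n N : α → ℕ} (hi : PF i) (hn : PF n) (hN : PF N) :
    PF (fun a => grd H (i a) (n a) (N a)) := by
  have h1 := pf_wiC hH (PF.succ hi) hn hN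
  exact PF.le (pf_cexp (PF.succ h1) (PF.succ hN)) hN

theorem pf_freeC (hH : BaseFn H) {i n N : α → ℕ} (hi : PF i) (hn : PF n) (hN : PF N) :
    PF (fun a => freeC H (i a) (n a) (N a)) := by
  have h1 : PF (fun q : α × ℕ => wiC H (i q.1 + 1) (n q.1) (N q.1)) :=
    pf_wiC hH (PF.succ (hi.comp PF.fst)) (hn.comp PF.fst) (hN.comp PF.fst)
  have h2 : PF (fun q : α × ℕ => wiC H (i q.1) (n q.1) (N q.1)) :=
    pf_wiC hH (hi.comp PF.fst) (hn.comp PF.fst) (hN.comp PF.fst)
  refine PF.all (f := fun a r => (List.range (N a)).all fun k =>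
    !(decide ((str k).length = n a) && brute (mN r) (str k) (wiC H (i a + 1) (n a) (N a)) (N a)) ||
      brute (mN r) (str k) (wiC H (i a) (n a) (N a)) (N a)) (PF.range (PF.succ hn)) ?_
  refine PF.all (f := fun (q : α × ℕ) k =>
    !(decide ((str k).length = n q.1) &&
      brute (mN q.2) (str k) (wiC H (i q.1 + 1) (n q.1) (N q.1)) (N q.1)) ||
      brute (mN q.2) (str k) (wiC H (i q.1) (n q.1) (N q.1)) (N q.1))
      (PF.range (hN.comp PF.fst)) ?_
  have hk : PF (fun q : (α × ℕ) × ℕ => str q.2) := PF.str PF.snd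
  have hr : PF (fun q : (α × ℕ) × ℕ => mN q.1.2) := pf_mN (PF.snd' PF.fst)
  have hN' : PF (fun q : (α × ℕ) × ℕ => N q.1.1) := hN.comp (PF.fst' PF.fst)
  have hn' : PF (fun q : (α × ℕ) × ℕ => n q.1.1) := hn.comp (PF.fst' PF.fst)
  have h1' : PF (fun q : (α × ℕ) × ℕ => wiC H (i q.1.1 + 1) (n q.1.1) (N q.1.1)) :=
    h1.comp PF.fst
  have h2' : PF (fun q : (α × ℕ) × ℕ => wiC H (i q.1.1) (n q.1.1) (N q.1.1)) :=
    h2.comp PF.fst
  exact PF.or (PF.not (PF.and (PF.natEq (PF.length hk) hn') (pf_brute hr hk h1' hN')))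
    (pf_brute hr hk h2' hN')

theorem pf_i0C (hH : BaseFn H) {n N : α → ℕ} (hn : PF n) (hN : PF N) :
    PF (fun a => i0C H (n a) (N a)) := by
  refine PF.find (f := fun a i => grd H i (n a) (N a) && freeC H i (n a) (N a)) (PF.range hN) ?_
  exact PF.and (pf_grd hH PF.snd (hn.comp PF.fst) (hN.comp PF.fst))
    (pf_freeC hH PF.snd (hn.comp PF.fst) (hN.comp PF.fst))

theorem pf_i1C (hH : BaseFn H) {b n N : α → ℕ} (hb : PF b) (hn : PF n) (hN : PF N) :
    PF (fun a => i1C H (b a) (n a) (N a)) := by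
  refine PF.find (f := fun a i => decide (b a + 2 ≤ i) &&
    (grd H i (n a) (N a) && freeC H i (n a) (N a))) (PF.range hN) ?_
  exact PF.and (PF.le (PF.add (hb.comp PF.fst) (PF.const 2)) PF.snd)
    (PF.and (pf_grd hH PF.snd (hn.comp PF.fst) (hN.comp PF.fst))
      (pf_freeC hH PF.snd (hn.comp PF.fst) (hN.comp PF.fst)))

theorem pf_tgC (hH : BaseFn H) : PF (fun p : ℕ × ℕ => tgC H p.1 p.2) := by
  have hi0 : PF (fun p : ℕ × ℕ => (i0C H p.1 p.2).getD 0) :=
    PF.getD (pf_i0C hH PF.fst PF.snd) (PF.const 0)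
  have hi1 : PF (fun p : ℕ × ℕ => (i1C H ((i0C H p.1 p.2).getD 0) p.1 p.2).getD 0) :=
    PF.getD (pf_i1C hH hi0 PF.fst PF.snd) (PF.const 0)
  have hw : PF (fun p : ℕ × ℕ => wiC H ((i0C H p.1 p.2).getD 0 + 1) p.1 p.2) :=
    pf_wiC hH (PF.succ hi0) PF.fst PF.snd
  have h3 : PF (fun p : ℕ × ℕ => capTow
      (3 * (i1C H ((i0C H p.1 p.2).getD 0) p.1 p.2).getD 0 + 1) (min (H p.1) p.2) p.2) :=
    pf_capTow (PF.succ (PF.mul (PF.const 3) hi1)) hH.cap PF.snd
  have h4 : PF (fun p : ℕ × ℕ => capTow (3 * (i0C H p.1 p.2).getD 0 + 1) (min (H p.1) p.2) p.2) :=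
    pf_capTow (PF.succ (PF.mul (PF.const 3) hi0)) hH.cap PF.snd
  exact PF.ite (pf_brute (pf_mN PF.fst) (pf_una PF.fst) hw PF.snd) h3 h4

end pf

theorem pf_top (hH : BaseFn H) :
    PF (fun p : ℕ × ℕ => min (tow (2 ^ (4 * p.1 + 10)) (H p.1)) p.2) := by
  have h1 : PF (fun p : ℕ × ℕ => 4 * p.1 + 10) := PF.add (PF.mul (PF.const 4) PF.fst) (PF.const 10)
  have h2 : PF (fun p : ℕ × ℕ => min (2 ^ (4 * p.1 + 10)) p.2) := pf_cexp h1 PF.snd
  refine (pf_capTow h2 hH.cap PF.snd).congr ?_
  intro p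
  rw [capTow_min, min_tow_min]

theorem cb_tg (hH : BaseFn H) : Cb (tg H) := by
  have h1 : Cb (fun n => tow (2 ^ (4 * n + 10)) (H n)) := cb_of_cap (pf_top hH)
  have h2 : Cb (fun n => 2 ^ (tow (2 ^ (4 * n + 10)) (H n) + 1)) :=
    cb_two_pow.comp (Cb.pf (PF.succ PF.id) h1)
  refine (Cb.pf (pf_tgC hH) (Cb.id.pair h2)).congr ?_
  intro n
  apply tgC_eq H (hH.le n)
  apply Nat.pow_le_pow_right (by norm_num)
  apply Nat.succ_le_succ
  unfold wi
  apply tow_mono
  have h3 := i1_le H n
  have h4 := width n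
  omega

/-! ### equality of the deterministic and the nondeterministic class -/

/-- an unbounded brute-force search for acceptance -/
def srch (cd : NCode) (w : List Bool) (m : ℕ) : Bool :=
  (List.range m).any fun a => decide (min (2 ^ (a + 1)) (m + 1) ≤ m) && brute cd w a m

theorem pf_srch (cd : NCode) : PF (fun q : List Bool × ℕ => srch cd q.1 q.2) := by
  refine PF.any (f := fun (q : List Bool × ℕ) a =>
    decide (min (2 ^ (a + 1)) (q.2 + 1) ≤ q.2) && brute cd q.1 a q.2) (PF.range PF.snd) ?_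
  exact PF.and (PF.le (pf_cexp (PF.succ PF.snd) (PF.succ (PF.snd' PF.fst))) (PF.snd' PF.fst))
    (pf_brute (PF.const cd) (PF.fst' PF.fst) PF.snd (PF.snd' PF.fst))

theorem srch_sound {cd : NCode} {w : List Bool} {m : ℕ} (h : srch cd w m = true) :
    ∃ a, AccC cd w a := by
  unfold srch at h
  rw [List.any_eq_true] at h
  obtain ⟨a, _, h⟩ := h
  rw [Bool.and_eq_true] at h
  exact ⟨a, brute_sound h.2⟩

theorem srch_complete {cd : NCode} {w : List Bool} {a : ℕ} (h : AccC cd w a) :
    srch cd w (2 ^ (a + 1)) = true := by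
  unfold srch
  rw [List.any_eq_true]
  refine ⟨a, List.mem_range.2 ((Nat.lt_succ_self a).trans Nat.lt_two_pow_self), ?_⟩
  rw [Bool.and_eq_true, decide_eq_true_eq]
  exact ⟨by omega, brute_complete le_rfl h⟩

theorem ntime_sub_dtime (hH : BaseFn H) : NTIME (tg H) ⊆ DTIME (tg H) := by
  rintro L ⟨M, p, hM1, hM2⟩
  obtain ⟨cd, D, hD, hc1, hc2⟩ := exists_code M
  obtain ⟨c, hc⟩ := poly_le_pow p
  obtain ⟨c', hc'⟩ := poly_norm D c
  obtain ⟨n1, hn1⟩ := poly_lt_exp 1 c'
  obtain ⟨r, hr, hrm⟩ := exists_mN cd n1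
  have hacc : ∀ w, w ∈ L → ∃ a, AccC cd w a := fun w hw => ⟨_, hc1 _ _ (hM2 w hw)⟩
  obtain ⟨M', e, h1, h2⟩ := search_machine (pf_srch cd)
  -- long words
  have hlong : ∀ w ∈ L, r ≤ w.length → ∃ a, AccC cd w a ∧ 2 ^ a ≤ tg H w.length := by
    intro w hw hn
    have h3 := hc1 _ _ (hM2 w hw)
    have h4 : ∃ i, Free H i w.length ∧ tg H w.length = 2 ^ (wi H i w.length) := by
      unfold tg
      split
      · exact ⟨_, i1_free H _, tow_succ _ _⟩
      · exact ⟨_, i0_free H _, tow_succ _ _⟩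
    obtain ⟨i, hf, hi⟩ := h4
    have h5 := hf r hn w rfl
    rw [hrm] at h5
    refine ⟨wi H i w.length, h5 (h3.mono ?_), hi.ge⟩
    have h6 : w.length ≤ tg H w.length := (hH.le _).trans (tg_ge _)
    have h7 := hn1 (tg H w.length) (by omega)
    have h8 := hc' (tg H w.length)
    have h9 : D * p.eval (tg H w.length) ≤ D * (tg H w.length + 2) ^ c :=
      Nat.mul_le_mul_left _ (hc _)
    have h10 : 2 ^ tg H w.length ≤ wi H (i + 1) w.length := by
      rw [hi]
      unfold wi
      rw [← tow_succ, ← tow_succ]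
      exact tow_mono (by omega) _
    omega
  -- short words
  choose! T hT using hacc
  set C := ∑ k ∈ Finset.range (2 ^ (r + 1)), ((str k).length + 2 ^ (T (str k) + 1) + 2) ^ e
    with hC
  refine ⟨M', (Polynomial.X + 2 * Polynomial.X + 2) ^ e + Polynomial.C C, ?_, ?_⟩
  · intro w
    constructor
    · intro hw
      exact ⟨_, h2 w _ (srch_complete (hT w hw))⟩
    · rintro ⟨s, hs⟩
      obtain ⟨m, _, hm⟩ := h1 w s hs
      obtain ⟨a, ha⟩ := srch_sound hm
      exact (hM1 w).2 ⟨_, hc2 _ _ ha⟩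
  · intro w hw
    simp only [Polynomial.eval_add, Polynomial.eval_pow, Polynomial.eval_X,
      Polynomial.eval_mul, Polynomial.eval_ofNat, Polynomial.eval_C]
    rcases Nat.lt_or_ge w.length r with hlt | hge
    · have h3 : (w.length + 2 ^ (T w + 1) + 2) ^ e ≤ C := by
        have h4 : idx w ∈ Finset.range (2 ^ (r + 1)) :=
          Finset.mem_range.2 (idx_lt_of_length hlt.le)
        have h5 := Finset.single_le_sum (f := fun k => ((str k).length +
          2 ^ (T (str k) + 1) + 2) ^ e) (fun _ _ => Nat.zero_le _) h4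
        simp only [str_idx] at h5
        exact h5
      exact (h2 w _ (srch_complete (hT w hw))).mono' (by omega)
    · obtain ⟨a, ha, hle⟩ := hlong w hw hge
      refine (h2 w _ (srch_complete ha)).mono' ?_
      have h6 : w.length ≤ tg H w.length := (hH.le _).trans (tg_ge _)
      have h8 : (w.length + 2 ^ (a + 1) + 2) ^ e ≤
          (tg H w.length + 2 * tg H w.length + 2) ^ e := by
        apply Nat.pow_le_pow_left
        rw [pow_succ]
        omega
      omega

/-! ### failure of closure -/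

theorem nonclosure_tg (hH : BaseFn H) : coNTIME (tg H) ≠ NTIME (tg H) := by
  intro hco
  set L : Set (List Bool) := {w | Jd H w.length} with hL
  have hLD : L ∈ DTIME (tg H) := by
    let f : List Bool × ℕ → Bool := fun q =>
      match i0C H q.1.length q.2 with
      | none => false
      | some i => brute (mN q.1.length) (una q.1.length) (wiC H (i + 1) q.1.length q.2) q.2
    have hf : PF f := by
      have hn : PF (fun q : (List Bool × ℕ) × ℕ => q.1.1.length) := PF.length (PF.fst' PF.fst)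
      have hN : PF (fun q : (List Bool × ℕ) × ℕ => q.1.2) := PF.snd' PF.fst
      refine (PF.optCase (l := fun q : List Bool × ℕ => i0C H q.1.length q.2)
        (g := fun _ => false) (h := fun q i =>
          brute (mN q.1.length) (una q.1.length) (wiC H (i + 1) q.1.length q.2) q.2)
        (pf_i0C hH (PF.length PF.fst) PF.snd) (PF.const false) ?_).congr ?_
      · exact pf_brute (pf_mN hn) (pf_una hn) (pf_wiC hH (PF.succ PF.snd) hn hN) hN
      · intro q
        simp only [f]
        rcases i0C H q.1.length q.2 with _ | _ <;> rfl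
    have hf1 : ∀ w m, f (w, m) = true → w ∈ L := by
      intro w m h
      simp only [f] at h
      rcases ho : i0C H w.length m with _ | i
      · rw [ho] at h; cases h
      · obtain ⟨h3, h4⟩ := i0C_some H (hH.le _) ho
        rw [ho] at h
        simp only at h
        rw [grd_iff] at h4
        have h5 := Nat.lt_two_pow_self (n := wi H (i + 1) w.length + 1)
        rw [wiC_eq, min_eq_left (by omega)] at h
        subst h3
        exact brute_sound h
    have hf2 : ∀ w ∈ L, f (w, 2 ^ (wi H (i0 H w.length + 1) w.length + 1)) = true := by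
      intro w hw
      simp only [f]
      rw [i0C_eq H (hH.le _) le_rfl]
      simp only
      have h5 := Nat.lt_two_pow_self (n := wi H (i0 H w.length + 1) w.length + 1)
      rw [wiC_eq, min_eq_left (by omega)]
      exact brute_complete le_rfl hw
    obtain ⟨M, e, h1, h2⟩ := search_machine hf
    refine ⟨M, (Polynomial.X + 2 * Polynomial.X + 2) ^ e, ?_, ?_⟩
    · intro w
      constructor
      · intro hw
        exact ⟨_, h2 w _ (hf2 w hw)⟩
      · rintro ⟨s, hs⟩
        obtain ⟨m, _, hm⟩ := h1 w s hs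
        exact hf1 w m hm
    · intro w hw
      simp only [Polynomial.eval_add, Polynomial.eval_pow, Polynomial.eval_X,
        Polynomial.eval_mul, Polynomial.eval_ofNat]
      refine (h2 w _ (hf2 w hw)).mono' (Nat.pow_le_pow_left ?_ _)
      have h6 : w.length ≤ tg H w.length := (hH.le _).trans (tg_ge _)
      have h7 : 2 ^ (wi H (i0 H w.length + 1) w.length) ≤ tg H w.length := by
        have hJ : Jd H w.length := hw
        unfold tg
        rw [if_pos hJ]
        unfold wi
        rw [← tow_succ]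
        have := i1_ge H w.length
        exact tow_mono (by omega) _
      rw [pow_succ]
      omega
  have hLc : Lᶜ ∈ NTIME (tg H) := by
    have h1 : L ∈ NTIME (tg H) :=
      dtime_sub_ntime (fun n => (hH.le n).trans (tg_ge n)) hLD
    rw [← hco] at h1
    exact h1
  obtain ⟨M, p, hM1, hM2⟩ := hLc
  obtain ⟨cd, D, hD, hc1, hc2⟩ := exists_code M
  obtain ⟨c, hc⟩ := poly_le_pow p
  obtain ⟨c', hc'⟩ := poly_norm D c
  obtain ⟨n1, hn1⟩ := poly_lt_exp 1 c'
  obtain ⟨n, hn, hnm⟩ := exists_mN cd n1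
  have hlen : (una n).length = n := map_una n
  have hmem : una n ∈ L ↔ AccC cd (una n) (wi H (i0 H n + 1) n) := by
    rw [hL, Set.mem_ofPred_eq, hlen]
    unfold Jd
    rw [hnm]
  by_cases hA : AccC cd (una n) (wi H (i0 H n + 1) n)
  · have h1 : una n ∈ Lᶜ := (hM1 _).2 ⟨_, hc2 _ _ hA⟩
    exact h1 (hmem.2 hA)
  · have h1 : una n ∈ Lᶜ := fun h => hA (hmem.1 h)
    have h2 := hc1 _ _ (hM2 _ h1)
    apply hA
    refine h2.mono ?_
    rw [hlen]
    have h3 : tg H n = 2 ^ wi H (i0 H n) n := by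
      have hJ : ¬ Jd H n := by unfold Jd; rw [hnm]; exact hA
      unfold tg
      rw [if_neg hJ]
      exact tow_succ _ _
    have h6 : n ≤ tg H n := (hH.le _).trans (tg_ge _)
    have h7 := hn1 (tg H n) (by omega)
    have h8 := hc' (tg H n)
    have h9 : D * p.eval (tg H n) ≤ D * (tg H n + 2) ^ c := Nat.mul_le_mul_left _ (hc _)
    have h10 : 2 ^ tg H n ≤ wi H (i0 H n + 1) n := by
      rw [h3]
      unfold wi
      rw [← tow_succ, ← tow_succ]
      exact tow_mono (by omega) _
    omega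

end

theorem gap_nonclosure (h : ℕ → ℕ) (hh : TMComputable h) :
    ∃ t : ℕ → ℕ, TMComputable t ∧ Monotone t ∧ (∀ n, h n ≤ t n) ∧
      NTIME t = DTIME t ∧ coNTIME t ≠ NTIME t := by
  obtain ⟨H, hH, hle⟩ := exists_base hh
  exact ⟨tg H, tmComputable_of_cb (cb_tg hH), tg_mono hH, fun n => (hle n).trans (tg_ge n),
    Set.Subset.antisymm (ntime_sub_dtime hH)
      (dtime_sub_ntime (fun n => (hH.le n).trans (tg_ge n))), nonclosure_tg hH⟩

end Pool.Agent.W2helper61.NT
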