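import Pool.Agent.W2helper61.NT.Tx

/-!
The time bounds `t_x` are uniformly computable.
-/

set_option autoImplicit false

namespace Pool.Agent.W2helper61.NT

open Turing Pool.Agent.H583R2

section
variable (H : ℕ → ℕ) (c : Code)

def ellC (n N : ℕ) : ℕ := (actC H (KlC H n N) n N).getD (n + 1)

/-- capped evaluation of the time bound -/
def txC (x n N : ℕ) : ℕ :=
  match loc c x n with
  | none => tuC H n N
  | some (k, e) =>
    if decide (k + 1 ≤ ellC H n N) then
      (if brute (mN e) (una n) (lvC H (2 * k + 2) n N) N then lvC H (2 * k + 3) n N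
        else lvC H (2 * k + 1) n N)
    else tuC H n N

variable {H} {c}

theorem ell_le (n : ℕ) : ell H n ≤ n + 1 := by
  unfold ell
  rcases h : act H (Kl H n) n with _ | r
  · simp
  · have := (act_some h).1
    simp only [Option.getD_some]
    omega

theorem txC_eq (hH : BaseFn H) {x n N : ℕ} (hN : 2 ^ (lv H (2 * n + 4) n + 1) ≤ N) :
    txC H c x n N = tx H c x n := by
  have h1 : ellC H n N = ell H n := by
    unfold ellC ell
    rw [KlC_eq H hH hN, actC_eq H (hH.le n) hN]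
  have h0 := Nat.lt_two_pow_self (n := lv H (2 * n + 4) n + 1)
  unfold txC tx
  rcases loc c x n with _ | ⟨k, e⟩
  · exact tuC_eq H hH hN
  · simp only
    rw [h1]
    by_cases hk : k + 1 ≤ ell H n
    · have hkn : k ≤ n := by have := ell_le (H := H) n; omega
      rw [if_pos (by simpa using hk), if_pos hk]
      have h2 : lv H (2 * k + 2) n ≤ lv H (2 * n + 4) n := lv_mono (by omega) n
      have h3 : lv H (2 * k + 3) n ≤ lv H (2 * n + 4) n := lv_mono (by omega) n
      have h4 : lv H (2 * k + 1) n ≤ lv H (2 * n + 4) n := lv_mono (by omega) n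
      rw [lvC_eq, lvC_eq, lvC_eq, min_eq_left (a := lv H (2 * k + 2) n) (by omega),
        min_eq_left (a := lv H (2 * k + 3) n) (by omega),
        min_eq_left (a := lv H (2 * k + 1) n) (by omega)]
      have h5 : brute (mN e) (una n) (lv H (2 * k + 2) n) N = true ↔
          AccC (mN e) (una n) (lv H (2 * k + 2) n) :=
        brute_iff ((Nat.pow_le_pow_right (by norm_num) (by omega)).trans hN)
      by_cases h6 : AccC (mN e) (una n) (lv H (2 * k + 2) n)
      · rw [if_pos (h5.2 h6), if_pos h6]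
      · rw [if_neg (fun h => h6 (h5.1 h)), if_neg h6]
    · rw [if_neg (by simpa using hk), if_neg hk]
      exact tuC_eq H hH hN

theorem pf_txC (hH : BaseFn H) {α : Type} [TEnc α] {x n N : α → ℕ} (hx : PF x) (hn : PF n)
    (hN : PF N) : PF (fun a => txC H c (x a) (n a) (N a)) := by
  have htu : PF (fun a => tuC H (n a) (N a)) := by
    refine ((pf_tuC hH).comp (PF.pair hn hN)).congr ?_
    intro a
    rfl
  have hell : PF (fun a => ellC H (n a) (N a)) :=
    PF.getD (pf_actC hH (pf_KlC hH hn hN) hn hN) (PF.succ hn)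
  refine (PF.optCase (l := fun a => loc c (x a) (n a)) (g := fun a => tuC H (n a) (N a))
    (h := fun a q => if decide (q.1 + 1 ≤ ellC H (n a) (N a)) then
      (if brute (mN q.2) (una (n a)) (lvC H (2 * q.1 + 2) (n a) (N a)) (N a) then
        lvC H (2 * q.1 + 3) (n a) (N a) else lvC H (2 * q.1 + 1) (n a) (N a))
      else tuC H (n a) (N a)) (pf_loc hx hn) htu ?_).congr ?_
  · have hk : PF (fun q : α × (ℕ × ℕ) => q.2.1) := PF.fst' PF.snd
    have hn' : PF (fun q : α × (ℕ × ℕ) => n q.1) := hn.comp PF.fst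
    have hN' : PF (fun q : α × (ℕ × ℕ) => N q.1) := hN.comp PF.fst
    have h2k : PF (fun q : α × (ℕ × ℕ) => 2 * q.2.1) := PF.mul (PF.const 2) hk
    have hl1 : PF (fun q : α × (ℕ × ℕ) => lvC H (2 * q.2.1 + 1) (n q.1) (N q.1)) :=
      pf_lvC hH (PF.add h2k (PF.const 1)) hn' hN'
    have hl2 : PF (fun q : α × (ℕ × ℕ) => lvC H (2 * q.2.1 + 2) (n q.1) (N q.1)) :=
      pf_lvC hH (PF.add h2k (PF.const 2)) hn' hN'
    have hl3 : PF (fun q : α × (ℕ × ℕ) => lvC H (2 * q.2.1 + 3) (n q.1) (N q.1)) :=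
      pf_lvC hH (PF.add h2k (PF.const 3)) hn' hN'
    have hb : PF (fun q : α × (ℕ × ℕ) => brute (mN q.2.2) (una (n q.1))
        (lvC H (2 * q.2.1 + 2) (n q.1) (N q.1)) (N q.1)) :=
      pf_brute (pf_mN (PF.snd' PF.snd)) (pf_una hn') hl2 hN'
    have hell' : PF (fun q : α × (ℕ × ℕ) => ellC H (n q.1) (N q.1)) := hell.comp PF.fst
    have htu' : PF (fun q : α × (ℕ × ℕ) => tuC H (n q.1) (N q.1)) := htu.comp PF.fst
    exact PF.ite (PF.le (PF.succ hk) hell') (PF.ite hb hl3 hl1) htu'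
  · intro a
    unfold txC
    rcases loc c (x a) (n a) with _ | ⟨k, e⟩ <;> rfl

theorem cb_tx (hH : BaseFn H) : Cb (fun p : ℕ × ℕ => tx H c p.1 p.2) := by
  have h1 : Cb (fun n => tow (2 ^ (4 * n + 10)) (H n)) := cb_of_cap (pf_top hH)
  have h2 : Cb (fun n => 2 ^ (tow (2 ^ (4 * n + 10)) (H n) + 1)) :=
    cb_two_pow.comp (Cb.pf (PF.succ PF.id) h1)
  have h3 : Cb (fun p : ℕ × ℕ => (p, 2 ^ (tow (2 ^ (4 * p.2 + 10)) (H p.2) + 1))) :=
    Cb.id.pair (h2.comp (PF.cb PF.snd))
  refine (Cb.pf (pf_txC (c := c) hH (PF.fst' PF.fst) (PF.snd' PF.fst) PF.snd) h3).congr ?_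
  intro p
  apply txC_eq hH
  apply Nat.pow_le_pow_right (by norm_num)
  apply Nat.succ_le_succ
  unfold lv
  apply tow_mono
  have := width2 p.2
  simp only
  omega

end

/-- Hardness: every relation of the form `∀ a, ∃ b, ∀ d, R x a b d` with `R` computable is
reduced to closure under complementation, with nondecreasing time bounds above `h`. -/
theorem hardness (h : ℕ → ℕ) (hh : Computable h) (R : ℕ → ℕ → ℕ → ℕ → Bool)
    (hR : Computable (fun q : ℕ × ℕ × ℕ × ℕ => R q.1 q.2.1 q.2.2.1 q.2.2.2)) :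
    ∃ f : ℕ → Nat.Partrec.Code, Computable f ∧ ∀ x, ∃ t : ℕ → ℕ,
      (∀ n, t n ∈ (f x).eval n) ∧ Monotone t ∧ (∀ n, n ≤ t n ∧ h n ≤ t n) ∧
      (coNTIME t = NTIME t ↔ ∀ a, ∃ b, ∀ d, R x a b d = true) := by
  obtain ⟨H, hH, hle⟩ := exists_base (tmComputable_iff.2 hh)
  obtain ⟨c, hc⟩ := exists_ev4 hR
  have h1 : Cb (fun m : ℕ => tx H c (Nat.unpair m).1 (Nat.unpair m).2) :=
    (cb_tx (c := c) hH).comp (PF.cb (pf_unpair PF.id))
  have h2 : Computable (fun m : ℕ => tx H c (Nat.unpair m).1 (Nat.unpair m).2) :=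
    computable_of_cb h1
  obtain ⟨g, hg⟩ := Nat.Partrec.Code.exists_code.1 (Partrec.nat_iff.1 h2)
  refine ⟨fun x => Nat.Partrec.Code.curry g x, ?_, ?_⟩
  · exact (Nat.Partrec.Code.primrec₂_curry.comp (Primrec.const g) Primrec.id).to_comp
  · intro x
    refine ⟨tx H c x, ?_, tx_mono hH x, ?_, tx_iff hH hc x⟩
    · intro n
      rw [Nat.Partrec.Code.eval_curry, hg]
      simp
    · intro n
      exact ⟨id_le_tx hH x n, (hle n).trans (H_le_tx x n)⟩

end Pool.Agent.W2helper61.NT
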