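import Pool.Agent.W2helper61.NT.Rec

/-!
Coding locations: column `k` of the number `x` gets infinitely many locations if and only if
no `b` satisfies `∀ c, R x k b c`.
-/

set_option autoImplicit false

namespace Pool.Agent.W2helper61.NT

open Turing Pool.Agent.H583R2

section
variable (c : Code)

/-- the candidate `b` of column `k` is refuted within `s` steps -/
def refd (x k b s : ℕ) : Bool := (List.range s).any fun d =>
  ((U c (una (Nat.pair x (Nat.pair k (Nat.pair b d)))) s).getD [true]).isEmpty

/-- the current candidate of column `k` -/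
def cb (x k s : ℕ) : ℕ :=
  (List.range s).foldl (fun b i => if refd c x k b (i + 1) then b + 1 else b) 0

/-- the location `n`: column and machine index -/
def loc (x n : ℕ) : Option (ℕ × ℕ) :=
  if refd c x (Nat.unpair n).1 (cb c x (Nat.unpair n).1 (Nat.unpair n).2) ((Nat.unpair n).2 + 1)
  then some ((Nat.unpair n).1, (Nat.unpair (cb c x (Nat.unpair n).1 (Nat.unpair n).2)).1)
  else none

variable {c}

theorem cb_zero (x k : ℕ) : cb c x k 0 = 0 := rfl

theorem cb_succ (x k s : ℕ) : cb c x k (s + 1) =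
    if refd c x k (cb c x k s) (s + 1) then cb c x k s + 1 else cb c x k s := by
  unfold cb
  rw [List.range_succ, List.foldl_append]
  rfl

theorem cb_le_succ (x k s : ℕ) : cb c x k s ≤ cb c x k (s + 1) := by
  rw [cb_succ]; split <;> omega

theorem cb_succ_le (x k s : ℕ) : cb c x k (s + 1) ≤ cb c x k s + 1 := by
  rw [cb_succ]; split <;> omega

theorem cb_mono (x k : ℕ) : Monotone (cb c x k) := monotone_nat_of_le_succ (cb_le_succ x k)

theorem cb_le (x k s : ℕ) : cb c x k s ≤ s := by
  induction s with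
  | zero => exact le_rfl
  | succ s ih => have := cb_succ_le (c := c) x k s; omega

theorem pf_refd {α : Type} [TEnc α] {x k b s : α → ℕ} (hx : PF x) (hk : PF k) (hb : PF b)
    (hs : PF s) : PF (fun a => refd c (x a) (k a) (b a) (s a)) := by
  refine PF.any (f := fun a d => ((U c (una (Nat.pair (x a) (Nat.pair (k a)
    (Nat.pair (b a) d)))) (s a)).getD [true]).isEmpty) (PF.range hs) ?_
  refine PF.isEmpty (PF.getD (PF.U.comp (PF.pair (PF.const c) (PF.pair (pf_una ?_)
    (hs.comp PF.fst)))) (PF.const [true]))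
  exact pf_natPair (hx.comp PF.fst) (pf_natPair (hk.comp PF.fst)
    (pf_natPair (hb.comp PF.fst) PF.snd))

theorem pf_cb {α : Type} [TEnc α] {x k s : α → ℕ} (hx : PF x) (hk : PF k) (hs : PF s) :
    PF (fun a => cb c (x a) (k a) (s a)) := by
  refine PF.foldlAdd (l := fun a => List.range (s a)) (s := fun _ => 0)
    (f := fun a b i => if refd c (x a) (k a) b (i + 1) then b + 1 else b)
    (PF.range hs) (PF.const 0) ?_ (inc := fun _ => 2) (bnd := fun _ => 0) (PB.const 2)
    (PB.const 0) ?_
  · exact PF.ite (pf_refd (hx.comp PF.fst) (hk.comp PF.fst) (PF.fst' PF.snd)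
      (PF.succ (PF.snd' PF.snd))) (PF.succ (PF.fst' PF.snd)) (PF.fst' PF.snd)
  · intro a i _ b
    refine le_trans ?_ (le_max_left _ _)
    split
    · rw [sz_nat, sz_nat]; omega
    · omega

theorem pf_loc {α : Type} [TEnc α] {x n : α → ℕ} (hx : PF x) (hn : PF n) :
    PF (fun a => loc c (x a) (n a)) := by
  have h1 : PF (fun a => (Nat.unpair (n a)).1) := PF.fst' (pf_unpair hn)
  have h2 : PF (fun a => (Nat.unpair (n a)).2) := PF.snd' (pf_unpair hn)
  have h3 := pf_cb (c := c) hx h1 h2
  exact PF.ite (pf_refd hx h1 h3 (PF.succ h2))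
    (PF.mkSome (PF.pair h1 (PF.fst' (pf_unpair h3)))) (PF.const none)

theorem loc_some {x n k e : ℕ} (h : loc c x n = some (k, e)) :
    k = (Nat.unpair n).1 ∧ e = (Nat.unpair (cb c x k (Nat.unpair n).2)).1 ∧
      refd c x k (cb c x k (Nat.unpair n).2) ((Nat.unpair n).2 + 1) = true := by
  unfold loc at h
  split at h
  · rename_i h1
    obtain ⟨h2, h3⟩ := Prod.mk.inj (Option.some.inj h)
    subst h2
    exact ⟨rfl, h3.symm, h1⟩
  · cases h

end

/-! ### the meaning of the locations -/

/-- `c` evaluates the relation `R` -/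
structure Ev4 (c : Code) (R : ℕ → ℕ → ℕ → ℕ → Bool) : Prop where
  tr : ∀ x k b d s, R x k b d = true →
    ((U c (una (Nat.pair x (Nat.pair k (Nat.pair b d)))) s).getD [true]).isEmpty = false
  fa : ∀ x k b d, R x k b d = false → ∃ s0, ∀ s, s0 ≤ s →
    ((U c (una (Nat.pair x (Nat.pair k (Nat.pair b d)))) s).getD [true]).isEmpty = true

theorem exists_ev4 {R : ℕ → ℕ → ℕ → ℕ → Bool}
    (hR : Computable (fun q : ℕ × ℕ × ℕ × ℕ => R q.1 q.2.1 q.2.2.1 q.2.2.2)) :
    ∃ c, Ev4 c R := by
  set t : ℕ → ℕ := fun n => bif R (Nat.unpair n).1 (Nat.unpair (Nat.unpair n).2).1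
    (Nat.unpair (Nat.unpair (Nat.unpair n).2).2).1
    (Nat.unpair (Nat.unpair (Nat.unpair n).2).2).2 then 1 else 0 with ht
  have h1 : Computable t := by
    have hu1 : Primrec (fun n : ℕ => (Nat.unpair n).1) := Primrec.fst.comp Primrec.unpair
    have hu2 : Primrec (fun n : ℕ => (Nat.unpair n).2) := Primrec.snd.comp Primrec.unpair
    have h2 : Primrec (fun n : ℕ => ((Nat.unpair n).1, (Nat.unpair (Nat.unpair n).2).1,
        (Nat.unpair (Nat.unpair (Nat.unpair n).2).2).1,
        (Nat.unpair (Nat.unpair (Nat.unpair n).2).2).2)) :=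
      Primrec.pair hu1 (Primrec.pair (hu1.comp hu2) (Primrec.pair (hu1.comp (hu2.comp hu2))
        (hu2.comp (hu2.comp hu2))))
    exact Computable.cond (hR.comp h2.to_comp) (Computable.const 1) (Computable.const 0)
  obtain ⟨M⟩ := tmComputable_iff.2 h1
  obtain ⟨c, T, hT⟩ := code_of_tm' M
  have ht' : ∀ x k b d, t (Nat.pair x (Nat.pair k (Nat.pair b d))) =
      bif R x k b d then 1 else 0 := by
    intro x k b d
    simp only [ht, Nat.unpair_pair]
  refine ⟨c, ?_, ?_⟩
  · intro x k b d s hr
    rcases h : U c (una (Nat.pair x (Nat.pair k (Nat.pair b d)))) s with _ | z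
    · rfl
    · have h3 := U_mono h (le_max_left s (T (Nat.pair x (Nat.pair k (Nat.pair b d)))))
      rw [hT _ _ (le_max_right _ _), ht', hr] at h3
      rw [← Option.some.inj h3]
      rfl
  · intro x k b d hr
    refine ⟨T (Nat.pair x (Nat.pair k (Nat.pair b d))), ?_⟩
    intro s hs
    rw [hT _ _ hs, ht', hr]
    rfl

section
variable {c : Code} {R : ℕ → ℕ → ℕ → ℕ → Bool} (hc : Ev4 c R)

include hc

/-- a finite column -/
theorem col_fin {x k : ℕ} (h : ∃ b, ∀ d, R x k b d = true) :
    ∃ N, ∀ n, N ≤ n → ∀ e, loc c x n ≠ some (k, e) := by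
  obtain ⟨b, hb⟩ := h
  have h1 : ∀ s, refd c x k b s = false := by
    intro s
    unfold refd
    rw [List.any_eq_false]
    intro d _
    rw [hc.tr x k b d s (hb d)]
    simp
  have h2 : ∀ s, cb c x k s ≤ b := by
    intro s
    induction s with
    | zero => exact Nat.zero_le _
    | succ s ih =>
      rw [cb_succ]
      rcases Nat.lt_or_eq_of_le ih with h | h
      · split <;> omega
      · rw [h, h1]; simp
  -- transitions are finitely many
  have h3 : ∃ S, ∀ s, S ≤ s → cb c x k s = cb c x k S := by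
    by_contra hne
    push Not at hne
    have h4 : ∀ i, ∃ s, i ≤ cb c x k s := by
      intro i
      induction i with
      | zero => exact ⟨0, Nat.zero_le _⟩
      | succ i ih =>
        obtain ⟨s, hs⟩ := ih
        obtain ⟨s', hs', hne'⟩ := hne s
        have := cb_mono (c := c) x k hs'
        exact ⟨s', by omega⟩
    obtain ⟨s, hs⟩ := h4 (b + 1)
    have := h2 s
    omega
  obtain ⟨S, hS⟩ := h3
  refine ⟨Nat.pair k S, ?_⟩
  intro n hn e h
  obtain ⟨h4, _, h5⟩ := loc_some h
  have h6 : S ≤ (Nat.unpair n).2 := by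
    by_contra hlt
    rw [not_le] at hlt
    have h7 : Nat.pair (Nat.unpair n).1 (Nat.unpair n).2 < Nat.pair k S := by
      rw [h4]
      exact Nat.pair_lt_pair_right _ hlt
    rw [Nat.pair_unpair] at h7
    omega
  have h7 := hS _ h6
  have h8 := hS ((Nat.unpair n).2 + 1) (by omega)
  rw [cb_succ, h5, if_pos rfl] at h8
  omega

/-- an infinite column contains every machine index arbitrarily late -/
theorem col_inf {x k : ℕ} (h : ∀ b, ∃ d, R x k b d = false) (e N : ℕ) :
    ∃ n, N ≤ n ∧ loc c x n = some (k, e) := by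
  -- every value of the candidate is passed
  have h1 : ∀ b, ∀ s0, cb c x k s0 = b → ∃ s, s0 ≤ s ∧ cb c x k s = b ∧
      refd c x k b (s + 1) = true := by
    intro b s0 hs0
    obtain ⟨d, hd⟩ := h b
    obtain ⟨s1, hs1⟩ := hc.fa x k b d hd
    have h2 : ∃ s, s0 ≤ s ∧ refd c x k b (s + 1) = true := by
      refine ⟨max s0 (max s1 d), le_max_left _ _, ?_⟩
      unfold refd
      rw [List.any_eq_true]
      refine ⟨d, List.mem_range.2 ?_, hs1 _ ?_⟩
      · have := le_max_right s1 d
        have := le_max_right s0 (max s1 d)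
        omega
      · have := le_max_left s1 d
        have := le_max_right s0 (max s1 d)
        omega
    classical
    refine ⟨Nat.find h2, (Nat.find_spec h2).1, ?_, (Nat.find_spec h2).2⟩
    have h3 : ∀ j, s0 + j ≤ Nat.find h2 → cb c x k (s0 + j) = b := by
      intro j
      induction j with
      | zero => intro _; exact hs0
      | succ j ih =>
        intro hj
        have h4 := ih (by omega)
        have h5 := Nat.find_min h2 (m := s0 + j) (by omega)
        rw [not_and] at h5
        have h6 := h5 (by omega)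
        rw [← Nat.add_assoc, cb_succ, h4, if_neg h6]
    have h4 := (Nat.find_spec h2).1
    have h5 := h3 (Nat.find h2 - s0) (by omega)
    rwa [Nat.add_sub_cancel' h4] at h5
  have h2 : ∀ b, ∃ s, cb c x k s = b := by
    intro b
    induction b with
    | zero => exact ⟨0, rfl⟩
    | succ b ih =>
      obtain ⟨s0, hs0⟩ := ih
      obtain ⟨s, _, h3, h4⟩ := h1 b s0 hs0
      exact ⟨s + 1, by rw [cb_succ, h3, if_pos h4]⟩
  obtain ⟨s0, hs0⟩ := h2 (Nat.pair e N)
  obtain ⟨s, _, h3, h4⟩ := h1 _ s0 hs0
  refine ⟨Nat.pair k s, ?_, ?_⟩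
  · have h5 := cb_le (c := c) x k s
    have h6 := Nat.right_le_pair e N
    have h7 := Nat.right_le_pair k s
    omega
  · unfold loc
    simp only [Nat.unpair_pair, h3]
    rw [if_pos h4]

end

end Pool.Agent.W2helper61.NT
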