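import Pool.Agent.W2helper61.NT.Sim
import Pool.Agent.W2helper61.Bridge

/-!
Loops of typed stack programs: machines that repeat a computable step, reading one guessed bit
per round, until a flag is cleared.
-/

set_option autoImplicit false

namespace Pool.Agent.W2helper61.NT

open Turing Pool.Agent.H583R2

/-! ### input conversion with an arbitrary guess stack -/

theorem inP_aux1' (B : List Bool) (x : List Bool) : ∀ t : List Bool,
    EvL (.whil .m (fun o => o.isSome) (.pop .m .skip (.push .t false) (.push .t true)))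
      ⟨x, [], B, t, []⟩ ⟨[], [], B, x.reverse ++ t, []⟩ (3 * x.length + 1) := by
  induction x with
  | nil => intro t; exact EvL.whilDone rfl
  | cons z x ih =>
    intro t
    have e : (z :: x).reverse ++ t = x.reverse ++ (z :: t) := by simp
    rw [e]
    refine EvL.mono (EvL.whilStep (i := 2) (S' := ⟨x, [], B, z :: t, []⟩) rfl ?_ (ih (z :: t))) ?_
    · cases z <;> exact EvL.pop (EvL.push _ _ _)
    · simp only [List.length_cons]; omega

theorem inP_aux2' (B : List Bool) (x : List Bool) : ∀ y : List Bool,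
    EvL (.whil .t (fun o => o.isSome) (.pop .t .skip (.seq (.push .m false) (.push .m true))
        (.seq (.push .m false) (.seq (.push .m false) (.seq (.push .m true) (.push .m true))))))
      ⟨ser (enc y), [], B, x, []⟩ ⟨ser (enc (x.reverse ++ y)), [], B, [], []⟩
      (6 * x.length + 1) := by
  induction x with
  | nil => intro t; exact EvL.whilDone rfl
  | cons z x ih =>
    intro y
    have e : (z :: x).reverse ++ y = x.reverse ++ (z :: y) := by simp
    rw [e]
    refine EvL.mono (EvL.whilStep (i := 5) (S' := ⟨ser (enc (z :: y)), [], B, x, []⟩) rfl ?_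
      (ih (z :: y))) ?_
    · cases z
      · exact EvL.mono (EvL.pop (EvL.seq (EvL.push _ _ _) (EvL.push _ _ _))) (by omega)
      · exact EvL.mono (EvL.pop (EvL.seq (EvL.push _ _ _) (EvL.seq (EvL.push _ _ _)
          (EvL.seq (EvL.push _ _ _) (EvL.push _ _ _))))) (by omega)
    · simp only [List.length_cons]; omega

theorem inP_spec' (B : List Bool) (x : List Bool) :
    EvL inP ⟨x, [], B, [], []⟩ ⟨ser (enc x), [], B, [], []⟩ (9 * x.length + 3) := by
  have h1 := inP_aux1' B x []
  have h2 := inP_aux2' B (x.reverse ++ []) []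
  have e : (x.reverse ++ []).reverse ++ [] = x := by simp
  rw [e] at h2
  have h3 : EvL (.push .m false) ⟨[], [], B, x.reverse ++ [], []⟩
    ⟨ser (enc ([] : List Bool)), [], B, x.reverse ++ [], []⟩ 1 := EvL.push _ _ _
  refine EvL.mono (h1.seq (h3.seq h2)) ?_
  simp; omega

/-! ### the loop program -/

section loop
variable {σ : Type} [TEnc σ]

/-- memory at the head of the loop -/
def hd (fl : Bool) (s : σ) (rest A B : List Bool) : St :=
  ⟨ser (enc fl) ++ (ser (enc s) ++ rest), A, B, [], []⟩

def setFlag : Prog := .seq (.push .m false) (.seq (.push .m false) (.push .m true))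

theorem setFlag_spec (s : σ) (rest A B : List Bool) :
    EvL setFlag ⟨ser (enc s) ++ rest, A, B, [], []⟩ (hd true s rest A B) 3 :=
  EvL.mono (EvL.seq (EvL.push _ _ _) (EvL.seq (EvL.push _ _ _) (EvL.push _ _ _))) (by omega)

def pop3 : Prog := .seq (.pop .m .skip .skip .skip) (.seq (.pop .m .skip .skip .skip)
  (.pop .m .skip .skip .skip))

theorem pop3_spec (s : σ) (rest A B : List Bool) :
    EvL pop3 (hd true s rest A B) ⟨ser (enc s) ++ rest, A, B, [], []⟩ 6 :=
  EvL.mono (EvL.seq (EvL.pop (EvL.skip _)) (EvL.seq (EvL.pop (EvL.skip _))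
    (EvL.pop (EvL.skip _)))) (by omega)

/-- body reading a guessed bit -/
def gbody (pN pF pT : Prog) : Prog := .seq pop3 (.seq (.pop .b pN pF pT)
  (.pop .m .skip .skip .skip))

def selF {γ : Type} (o : Option Bool) (a b c : γ) : γ :=
  match o with
  | none => a
  | some false => b
  | some true => c

theorem gbody_spec {pN pF pT : Prog} {F : Option Bool → σ → Bool × σ} {c : σ → ℕ}
    (hN : Cmp pN (F none) c) (hF : Cmp pF (F (some false)) c) (hT : Cmp pT (F (some true)) c)
    (s : σ) (rest A B : List Bool) :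
    EvL (gbody pN pF pT) (hd true s rest A B)
      (hd (F B.head? s).1 (F B.head? s).2 rest A B.tail) (c s + 9) := by
  have h1 := pop3_spec s rest A B
  have h2 : EvL (.pop .b pN pF pT) ⟨ser (enc s) ++ rest, A, B, [], []⟩
      ⟨ser (enc (F B.head? s)) ++ rest, A, B.tail, [], []⟩ (c s + 1) := by
    refine EvL.pop ?_
    rcases B with _ | ⟨_ | _, B⟩
    · exact hN s rest A []
    · exact hF s rest A B
    · exact hT s rest A B
  have h3 : EvL (.pop .m .skip .skip .skip) ⟨ser (enc (F B.head? s)) ++ rest, A, B.tail, [], []⟩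
      (hd (F B.head? s).1 (F B.head? s).2 rest A B.tail) 2 := by
    have e : ser (enc (F B.head? s)) ++ rest =
        true :: (ser (enc (F B.head? s).1) ++ (ser (enc (F B.head? s).2) ++ rest)) := by
      change ser (.node (enc (F B.head? s).1) (enc (F B.head? s).2)) ++ _ = _
      simp [ser]
    rw [e]
    exact EvL.pop (EvL.skip _)
  exact EvL.mono (h1.seq (h2.seq h3)) (by omega)

/-- the loop condition -/
def isT (o : Option Bool) : Bool := o == some true

theorem isT_true (s : σ) (rest A B : List Bool) :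
    isT ((hd true s rest A B).get .m).head? = true := rfl

theorem isT_false (s : σ) (rest A B : List Bool) :
    isT ((hd false s rest A B).get .m).head? = false := rfl

/-- states of the loop; round `i` reads the `i`-th guessed bit -/
def gst (F : Option Bool → σ → Bool × σ) (y : List Bool) (s : σ) : ℕ → Bool × σ
  | 0 => (true, s)
  | i + 1 => F (y.drop i).head? (gst F y s i).2

end loop

/-! ### machine level analysis -/

section machine
variable {σ : Type} [TEnc σ]

/-- full program -/
def loopP (p0 pN pF pT : Prog) : Prog :=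
  .seq (.seq inP (.seq p0 setFlag)) (.whil .m isT (gbody pN pF pT))

abbrev LCfg (P : Prog) := SCfg (Option (Lab P))

/-- the configuration at the head of the loop -/
def headC (p0 pN pF pT : Prog) (S : St) (v : Option Bool) : LCfg (loopP p0 pN pF pT) :=
  ⟨some (some (Sum.inr none)), v, S.get⟩

/-- the start configuration -/
def startC (P : Prog) (w y : List Bool) : LCfg P :=
  ⟨some (some (entry P)), none, (⟨w, [], y, [], []⟩ : St).get⟩

theorem run_pre {p0 pN pF pT : Prog} {S S' : St} {i : ℕ}
    (h : Ev (.seq inP (.seq p0 setFlag)) S S' i) (v : Option Bool) :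
    ∃ v', steps (machine (loopP p0 pN pF pT)) i
      (some ⟨some (some (entry (loopP p0 pN pF pT))), v, S.get⟩) =
      some (headC p0 pN pF pT S' v') :=
  h.run (machine (loopP p0 pN pF pT)) (fun z => some (Sum.inl z)) (some (Sum.inr none))
    (fun _ => rfl) v

theorem run_body {p0 pN pF pT : Prog} {S S' : St} {i : ℕ}
    (hc : isT (S.get .m).head? = true)
    (h : Ev (gbody pN pF pT) S S' i) (v : Option Bool) :
    ∃ v', steps (machine (loopP p0 pN pF pT)) (i + 1) (some (headC p0 pN pF pT S v)) =
      some (headC p0 pN pF pT S' v') := by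
  obtain ⟨v1, h1⟩ := h.run (machine (loopP p0 pN pF pT))
    (fun z => some (Sum.inr (some z))) (some (Sum.inr none)) (fun _ => rfl) (S.get .m).head?
  refine ⟨v1, ?_⟩
  rw [Nat.add_comm, steps_add]
  have key : steps (machine (loopP p0 pN pF pT)) 1 (some (headC p0 pN pF pT S v)) =
      some ⟨some (some (Sum.inr (some (entry (gbody pN pF pT))))), (S.get .m).head?, S.get⟩ := by
    unfold headC
    rw [steps_one]
    change some (TM2.Cfg.mk (some (if isT (S.get .m).head? then _ else _)) _ _) = _
    rw [hc]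
    rfl
  rw [key]
  exact h1

theorem run_exit {p0 pN pF pT : Prog} {S : St}
    (hc : isT (S.get .m).head? = false) (v : Option Bool) :
    steps (machine (loopP p0 pN pF pT)) 2 (some (headC p0 pN pF pT S v)) =
      some ⟨none, none, S.get⟩ := by
  rw [show (2 : ℕ) = 1 + 1 from rfl, steps_add]
  have key : steps (machine (loopP p0 pN pF pT)) 1 (some (headC p0 pN pF pT S v)) =
      some ⟨some none, (S.get .m).head?, S.get⟩ := by
    unfold headC
    rw [steps_one]
    change some (TM2.Cfg.mk (some (if isT (S.get .m).head? then _ else _)) _ _) = _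
    rw [hc]
    rfl
  rw [key, steps_one]
  rfl

theorem steps_none {Λ : Type} (M : Λ → TM2.Stmt (fun _ : Sk => Bool) Λ (Option Bool)) (n : ℕ) :
    steps M n none = none := by
  induction n with
  | zero => rfl
  | succ n ih => rw [steps_add, ih]; rfl

/-- a halted run is undefined from the next step on -/
theorem steps_after_halt {Λ : Type} (M : Λ → TM2.Stmt (fun _ : Sk => Bool) Λ (Option Bool))
    {c c' : SCfg Λ} {o : Option (SCfg Λ)} {n m : ℕ} (h : steps M n o = some c) (hc : c.l = none)
    (h' : steps M m o = some c') : m ≤ n := by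
  by_contra hlt
  have e : m = n + (1 + (m - n - 1)) := by omega
  rw [e, steps_add, h, steps_add] at h'
  have e1 : steps M 1 (some c) = none := by
    obtain ⟨l, v, stk⟩ := c
    cases hc
    rfl
  rw [e1, steps_none] at h'
  cases h'

variable {p0 pN pF pT : Prog} {F : Option Bool → σ → Bool × σ} {c : σ → ℕ}
  {s0 : List Bool → σ} {c0 : List Bool → ℕ}

/-- as long as the flag is set the loop goes on -/
theorem loop_reach (hN : Cmp pN (F none) c) (hF : Cmp pF (F (some false)) c)
    (hT : Cmp pT (F (some true)) c) (h0 : Cmp p0 s0 c0) (w y : List Bool) (i : ℕ)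
    (h : ∀ j < i, (gst F y (s0 w) j).1 = true) :
    ∃ (T : ℕ) (v : Option Bool), i ≤ T ∧
      T ≤ 9 * w.length + c0 w + 6 + ∑ j ∈ Finset.range i, (c (gst F y (s0 w) j).2 + 10) ∧
      steps (machine (loopP p0 pN pF pT)) T (some (startC (loopP p0 pN pF pT) w y)) =
        some (headC p0 pN pF pT
          (hd (gst F y (s0 w) i).1 (gst F y (s0 w) i).2 [] [] (y.drop i)) v) := by
  induction i with
  | zero =>
    have h1 := inP_spec' y w
    have h2 := h0 w [] [] y
    rw [List.append_nil] at h2
    have h3 := setFlag_spec (s0 w) [] [] y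
    obtain ⟨i, hi, h4⟩ := h1.seq (h2.seq h3)
    obtain ⟨v', h5⟩ := run_pre (pN := pN) (pF := pF) (pT := pT) h4 none
    exact ⟨i, v', Nat.zero_le _, by simp; omega, h5⟩
  | succ i ih =>
    obtain ⟨T, v, h1, h2, h3⟩ := ih (fun j hj => h j (by omega))
    have h4 := h i (by omega)
    rw [h4] at h3
    obtain ⟨k, hk, h5⟩ := gbody_spec hN hF hT (gst F y (s0 w) i).2 [] [] (y.drop i)
    obtain ⟨v', h6⟩ := run_body (p0 := p0) (isT_true _ _ _ _) h5 v
    refine ⟨T + (k + 1), v', by omega, ?_, ?_⟩
    · rw [Finset.sum_range_succ]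
      omega
    · rw [steps_add, h3, h6]
      have e : (y.drop i).tail = y.drop (i + 1) := by
        rw [List.tail_drop]
      rw [e]
      rfl

/-- the loop halts once the flag is cleared -/
theorem loop_halt (hN : Cmp pN (F none) c) (hF : Cmp pF (F (some false)) c)
    (hT : Cmp pT (F (some true)) c) (h0 : Cmp p0 s0 c0) (w y : List Bool) (i : ℕ)
    (h : ∀ j < i, (gst F y (s0 w) j).1 = true) (hi : (gst F y (s0 w) i).1 = false) :
    ∃ (T : ℕ) (d : LCfg (loopP p0 pN pF pT)),
      T ≤ 9 * w.length + c0 w + 8 + ∑ j ∈ Finset.range i, (c (gst F y (s0 w) j).2 + 10) ∧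
      steps (machine (loopP p0 pN pF pT)) T (some (startC (loopP p0 pN pF pT) w y)) = some d ∧
      d.l = none := by
  obtain ⟨T, v, h1, h2, h3⟩ := loop_reach hN hF hT h0 w y i h
  rw [hi] at h3
  refine ⟨T + 2, ⟨none, none, (hd false (gst F y (s0 w) i).2 [] [] (y.drop i)).get⟩,
    by omega, ?_, rfl⟩
  rw [steps_add, h3]
  exact run_exit (isT_false _ _ _ _) v

/-- if the machine halts at time `n` the flag is cleared in some round `≤ n` -/
theorem loop_sound (hN : Cmp pN (F none) c) (hF : Cmp pF (F (some false)) c)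
    (hT : Cmp pT (F (some true)) c) (h0 : Cmp p0 s0 c0) (w y : List Bool) (n : ℕ)
    {d : LCfg (loopP p0 pN pF pT)}
    (h : steps (machine (loopP p0 pN pF pT)) n (some (startC (loopP p0 pN pF pT) w y)) = some d)
    (hd : d.l = none) : ∃ i ≤ n, (gst F y (s0 w) i).1 = false := by
  by_contra hne
  push Not at hne
  obtain ⟨T, v, h1, _, h3⟩ := loop_reach hN hF hT h0 w y (n + 1) (fun j hj => by
    have := hne j (by omega)
    simpa using this)
  have := steps_after_halt _ h hd h3
  omega

/-- the nondeterministic machine of a loop -/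
def loopM (p0 pN pF pT : Prog) : NTM where
  tm := finTM (loopP p0 pN pF pT)
  g := Sk.b
  hg := by intro h; cases h
  inp := Equiv.refl Bool
  gin := Equiv.refl Bool

theorem upd_eq (w y : List Bool) :
    Function.update (Function.update (fun _ : Sk => ([] : List Bool)) Sk.b y) Sk.m w =
      (⟨w, [], y, [], []⟩ : St).get := by
  funext k
  cases k <;> rfl

theorem upd_eq' (w : List Bool) :
    Function.update (fun _ : Sk => ([] : List Bool)) Sk.m w =
      (⟨w, [], [], [], []⟩ : St).get := by
  funext k
  cases k <;> rfl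

theorem loopM_start (p0 pN pF pT : Prog) (w y : List Bool) :
    ((loopM p0 pN pF pT).start w y : (finTM (loopP p0 pN pF pT)).Cfg) =
      (startC (loopP p0 pN pF pT) w y : LCfg (loopP p0 pN pF pT)) := by
  have e2 : ((loopM p0 pN pF pT).start w y : (finTM (loopP p0 pN pF pT)).Cfg) =
      (⟨some (some (entry (loopP p0 pN pF pT))), none,
        Function.update (Function.update (fun _ : Sk => ([] : List Bool)) Sk.b
          (y.map id)) Sk.m (w.map id)⟩ : LCfg (loopP p0 pN pF pT)) := rfl
  rw [e2, upd_eq, List.map_id, List.map_id]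
  rfl

/-- the deterministic machine of a loop -/
def loopD (p0 pN pF pT : Prog) : DTM where
  tm := finTM (loopP p0 pN pF pT)
  inp := Equiv.refl Bool

theorem loopD_start (p0 pN pF pT : Prog) (w : List Bool) :
    ((loopD p0 pN pF pT).start w : (finTM (loopP p0 pN pF pT)).Cfg) =
      (startC (loopP p0 pN pF pT) w [] : LCfg (loopP p0 pN pF pT)) := by
  have e2 : ((loopD p0 pN pF pT).start w : (finTM (loopP p0 pN pF pT)).Cfg) =
      (⟨some (some (entry (loopP p0 pN pF pT))), none,
        Function.update (fun _ : Sk => ([] : List Bool)) Sk.m (w.map id)⟩ :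
          LCfg (loopP p0 pN pF pT)) := rfl
  rw [e2, upd_eq', List.map_id]
  rfl

end machine


/-! ### search machines -/

section search

/-- one round of the guess-and-test search -/
def gF (f : List Bool × List Bool × ℕ → Bool) (o : Option Bool)
    (s : List Bool × List Bool × ℕ) : Bool × (List Bool × List Bool × ℕ) :=
  (!f s, (s.1, s.2.1 ++ o.toList, s.2.2 + 1))

theorem take_succ_toList (y : List Bool) (i : ℕ) :
    y.take (i + 1) = y.take i ++ ((y.drop i).head?).toList := by
  rw [List.take_add_one, List.head?_drop]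

theorem gst_gF (f : List Bool × List Bool × ℕ → Bool) (w y : List Bool) (i : ℕ) :
    (gst (gF f) y (w, [], 0) i).2 = (w, y.take i, i) := by
  induction i with
  | zero => simp [gst]
  | succ i ih =>
    rw [gst, ih, gF, take_succ_toList]

theorem gst_gF_flag (f : List Bool × List Bool × ℕ → Bool) (w y : List Bool) (i : ℕ) :
    (gst (gF f) y (w, [], 0) (i + 1)).1 = !f (w, y.take i, i) := by
  rw [gst, gst_gF]
  rfl

theorem pf_toList {α β : Type} [TEnc α] [TEnc β] {o : α → Option β} (ho : PF o) :
    PF (fun a => (o a).toList) :=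
  (ho.optCase (g := fun _ => ([] : List β)) (h := fun _ x => [x]) (PF.const _)
    (PF.cons PF.snd (PF.const _))).congr (fun a => by cases o a <;> rfl)

theorem pf_gF {f : List Bool × List Bool × ℕ → Bool} (hf : PF f) (o : Option Bool) :
    PF (gF f o) :=
  PF.pair (PF.not hf) (PF.pair PF.fst (PF.pair (PF.append (PF.fst' PF.snd) (PF.const _))
    (PF.succ (PF.snd' PF.snd))))

theorem sz_srch_le (w : List Bool) (y : List Bool) (i : ℕ) :
    sz (w, y.take i, i) ≤ 4 * w.length + 6 * i + 5 := by
  have h1 := sz_str_le w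
  have h2 := sz_str_le (y.take i)
  have h3 : (y.take i).length ≤ i := List.length_take_le _ _
  rw [sz_pair, sz_pair, sz_nat]
  omega

theorem time_bound (k k0 : ℕ) : ∃ c, ∀ n m : ℕ,
    9 * n + (4 * n + 1 + 2) ^ k0 + 8 +
      (m + 1) * ((4 * n + 6 * m + 5 + 2) ^ k + 10) ≤ (n + m + 2) ^ c := by
  refine ⟨4 * k0 + 4 * k + 10, ?_⟩
  intro n m
  have hb : 2 ≤ n + m + 2 := by omega
  generalize hB : n + m + 2 = B at *
  have h4 : ∀ x, x ≤ 8 * B → x ≤ B ^ 4 := by
    intro x hx
    refine hx.trans ?_
    have h8 : 8 ≤ B ^ 3 := by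
      calc 8 = 2 ^ 3 := by norm_num
        _ ≤ B ^ 3 := Nat.pow_le_pow_left hb 3
    calc 8 * B ≤ B ^ 3 * B := Nat.mul_le_mul_right _ h8
      _ = B ^ 4 := by ring
  have h1 : (4 * n + 1 + 2) ^ k0 ≤ B ^ (4 * k0) := by
    rw [pow_mul]; exact Nat.pow_le_pow_left (h4 _ (by omega)) _
  have h2 : (4 * n + 6 * m + 5 + 2) ^ k ≤ B ^ (4 * k) := by
    rw [pow_mul]; exact Nat.pow_le_pow_left (h4 _ (by omega)) _
  have h3 : 1 ≤ B ^ (4 * k) := Nat.one_le_pow _ _ (by omega)
  have h5 : 1 ≤ B ^ (4 * k0) := Nat.one_le_pow _ _ (by omega)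
  have h6 : (m + 1) * ((4 * n + 6 * m + 5 + 2) ^ k + 10) ≤ B * (11 * B ^ (4 * k)) :=
    Nat.mul_le_mul (by omega) (by omega)
  have h7 : B ^ (4 * k0) ≤ B ^ (4 * k0 + 4 * k) := Nat.pow_le_pow_right (by omega) (by omega)
  have h8 : B ^ (4 * k) ≤ B ^ (4 * k0 + 4 * k) := Nat.pow_le_pow_right (by omega) (by omega)
  have h9 : 9 * n + 8 + 1 + 11 * B ≤ 32 * B := by omega
  have h10 : 32 * B * B ^ (4 * k0 + 4 * k) ≤ B ^ (4 * k0 + 4 * k + 10) := by
    have h32 : 32 ≤ B ^ 5 := by
      calc 32 = 2 ^ 5 := by norm_num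
        _ ≤ B ^ 5 := Nat.pow_le_pow_left hb 5
    calc 32 * B * B ^ (4 * k0 + 4 * k) ≤ B ^ 5 * B * B ^ (4 * k0 + 4 * k) :=
          Nat.mul_le_mul_right _ (Nat.mul_le_mul_right _ h32)
      _ = B ^ (4 * k0 + 4 * k + 6) := by ring
      _ ≤ _ := Nat.pow_le_pow_right (by omega) (by omega)
  refine le_trans ?_ h10
  generalize B ^ (4 * k0 + 4 * k) = Y at *
  have h11 : 1 ≤ Y := by omega
  have h12 : 9 * n + 8 ≤ 9 * B := by omega
  have h13 : 9 * n + 8 ≤ 9 * B * Y := by nlinarith
  have h14 : B * (11 * B ^ (4 * k)) ≤ B * (11 * Y) :=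
    Nat.mul_le_mul_left _ (Nat.mul_le_mul_left _ h8)
  have h15 : Y ≤ B * Y := Nat.le_mul_of_pos_left _ (by omega)
  nlinarith

/-- the machine which guesses bits one at a time and halts as soon as the test succeeds -/
theorem guess_machine {f : List Bool × List Bool × ℕ → Bool} (hf : PF f) :
    ∃ (M : NTM) (c : ℕ),
      (∀ w y n, M.HaltsAt w y n → ∃ m ≤ n, f (w, y.take m, m) = true) ∧
      (∀ w y m, f (w, y.take m, m) = true →
        ∃ n ≤ (w.length + m + 2) ^ c, M.HaltsAt w y n) := by
  have hN := pf_gF hf none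
  have hF := pf_gF hf (some false)
  have hT := pf_gF hf (some true)
  have h0 : PF (fun w : List Bool => (w, ([] : List Bool), 0)) := PF.pair PF.id (PF.const _)
  obtain ⟨cN, hcN, pN, hN⟩ := hN
  obtain ⟨cF, hcF, pF, hF⟩ := hF
  obtain ⟨cT, hcT, pT, hT⟩ := hT
  obtain ⟨c0, ⟨k0, hc0⟩, p0, h0⟩ := h0
  obtain ⟨k, hk⟩ := (hcN.add hcF).add hcT
  have hN' : Cmp pN (gF f none) (fun a => cN a + cF a + cT a) :=
    fun a r A B => (hN a r A B).mono (by beta_reduce; omega)
  have hF' : Cmp pF (gF f (some false)) (fun a => cN a + cF a + cT a) :=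
    fun a r A B => (hF a r A B).mono (by beta_reduce; omega)
  have hT' : Cmp pT (gF f (some true)) (fun a => cN a + cF a + cT a) :=
    fun a r A B => (hT a r A B).mono (by beta_reduce; omega)
  obtain ⟨c, hc⟩ := time_bound k k0
  refine ⟨loopM p0 pN pF pT, c, ?_, ?_⟩
  · rintro w y n ⟨d, h1, h2⟩
    obtain ⟨i, hi, h3⟩ := loop_sound hN' hF' hT' h0 w y n (d := d) (by
      have := h1
      rw [loopM_start] at this
      exact this) h2
    cases i with
    | zero => simp [gst] at h3
    | succ i =>
      rw [gst_gF_flag] at h3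
      exact ⟨i, by omega, by simpa using h3⟩
  · intro w y m hm
    -- the first successful round
    have hex : ∃ j, f (w, y.take j, j) = true := ⟨m, hm⟩
    classical
    set j := Nat.find hex with hj
    have hj1 : f (w, y.take j, j) = true := Nat.find_spec hex
    have hj2 : j ≤ m := Nat.find_min' hex hm
    obtain ⟨T, d, hT1, hT2, hT3⟩ := loop_halt hN' hF' hT' h0 w y (j + 1) (by
      intro i hi
      cases i with
      | zero => rfl
      | succ i =>
        rw [gst_gF_flag]
        have := Nat.find_min hex (m := i) (by omega)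
        simpa using this) (by rw [gst_gF_flag, hj1]; rfl)
    refine ⟨T, ?_, d, ?_, hT3⟩
    · refine hT1.trans (le_trans ?_ (hc w.length m))
      have e0 : c0 w ≤ (4 * w.length + 1 + 2) ^ k0 :=
        (hc0 w).trans (Nat.pow_le_pow_left (by have := sz_str_le w; omega) _)
      have e1 : ∀ i ∈ Finset.range (j + 1),
          (fun a => cN a + cF a + cT a) (gst (gF f) y (w, [], 0) i).2 + 10 ≤
            (4 * w.length + 6 * m + 5 + 2) ^ k + 10 := by
        intro i hi
        rw [Finset.mem_range] at hi
        rw [gst_gF]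
        have h1 := hk (w, y.take i, i)
        have h2 := sz_srch_le w y i
        have h3 : (sz (w, y.take i, i) + 2) ^ k ≤ (4 * w.length + 6 * m + 5 + 2) ^ k :=
          Nat.pow_le_pow_left (by omega) _
        simp only at h1 ⊢
        omega
      have e2 := Finset.sum_le_sum e1
      rw [Finset.sum_const, Finset.card_range, smul_eq_mul] at e2
      have e3 : (j + 1) * ((4 * w.length + 6 * m + 5 + 2) ^ k + 10) ≤
          (m + 1) * ((4 * w.length + 6 * m + 5 + 2) ^ k + 10) :=
        Nat.mul_le_mul_right _ (by omega)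
      simp only at e2 ⊢
      omega
    · rw [loopM_start]
      exact hT2

/-- deterministic search machine -/
theorem search_machine {f : List Bool × ℕ → Bool} (hf : PF f) :
    ∃ (M : DTM) (c : ℕ),
      (∀ w s, M.AccIn w s → ∃ m ≤ s, f (w, m) = true) ∧
      (∀ w m, f (w, m) = true → M.AccIn w ((w.length + m + 2) ^ c)) := by
  have hf' : PF (fun p : List Bool × List Bool × ℕ => f (p.1, p.2.2)) :=
    hf.comp (PF.pair PF.fst (PF.snd' PF.snd))
  set f' : List Bool × List Bool × ℕ → Bool := fun p => f (p.1, p.2.2) with hf'def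
  have hN := pf_gF hf' none
  have hF := pf_gF hf' (some false)
  have hT := pf_gF hf' (some true)
  have h0 : PF (fun w : List Bool => (w, ([] : List Bool), 0)) := PF.pair PF.id (PF.const _)
  obtain ⟨cN, hcN, pN, hN⟩ := hN
  obtain ⟨cF, hcF, pF, hF⟩ := hF
  obtain ⟨cT, hcT, pT, hT⟩ := hT
  obtain ⟨c0, ⟨k0, hc0⟩, p0, h0⟩ := h0
  obtain ⟨k, hk⟩ := (hcN.add hcF).add hcT
  have hN' : Cmp pN (gF f' none) (fun a => cN a + cF a + cT a) :=
    fun a r A B => (hN a r A B).mono (by beta_reduce; omega)
  have hF' : Cmp pF (gF f' (some false)) (fun a => cN a + cF a + cT a) :=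
    fun a r A B => (hF a r A B).mono (by beta_reduce; omega)
  have hT' : Cmp pT (gF f' (some true)) (fun a => cN a + cF a + cT a) :=
    fun a r A B => (hT a r A B).mono (by beta_reduce; omega)
  obtain ⟨c, hc⟩ := time_bound k k0
  refine ⟨loopD p0 pN pF pT, c, ?_, ?_⟩
  · rintro w s ⟨n, hn, d, h1, h2⟩
    obtain ⟨i, hi, h3⟩ := loop_sound hN' hF' hT' h0 w [] n (d := d) (by
      have := h1
      rw [loopD_start] at this
      exact this) h2
    cases i with
    | zero => simp [gst] at h3
    | succ i =>
      rw [gst_gF_flag] at h3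
      exact ⟨i, by omega, by simpa using h3⟩
  · intro w m hm
    have hex : ∃ j, f (w, j) = true := ⟨m, hm⟩
    classical
    set j := Nat.find hex with hj
    have hj1 : f (w, j) = true := Nat.find_spec hex
    have hj2 : j ≤ m := Nat.find_min' hex hm
    obtain ⟨T, d, hT1, hT2, hT3⟩ := loop_halt hN' hF' hT' h0 w [] (j + 1) (by
      intro i hi
      cases i with
      | zero => rfl
      | succ i =>
        rw [gst_gF_flag]
        have := Nat.find_min hex (m := i) (by omega)
        simpa using this) (by rw [gst_gF_flag]; simp only [hf'def]; rw [hj1]; rfl)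
    refine ⟨T, ?_, d, ?_, hT3⟩
    · refine hT1.trans (le_trans ?_ (hc w.length m))
      have e0 : c0 w ≤ (4 * w.length + 1 + 2) ^ k0 :=
        (hc0 w).trans (Nat.pow_le_pow_left (by have := sz_str_le w; omega) _)
      have e1 : ∀ i ∈ Finset.range (j + 1),
          (fun a => cN a + cF a + cT a) (gst (gF f') [] (w, [], 0) i).2 + 10 ≤
            (4 * w.length + 6 * m + 5 + 2) ^ k + 10 := by
        intro i hi
        rw [Finset.mem_range] at hi
        rw [gst_gF]
        have h1 := hk (w, ([] : List Bool).take i, i)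
        have h2 := sz_srch_le w [] i
        have h3 : (sz (w, ([] : List Bool).take i, i) + 2) ^ k ≤
            (4 * w.length + 6 * m + 5 + 2) ^ k :=
          Nat.pow_le_pow_left (by omega) _
        simp only at h1 ⊢
        omega
      have e2 := Finset.sum_le_sum e1
      rw [Finset.sum_const, Finset.card_range, smul_eq_mul] at e2
      have e3 : (j + 1) * ((4 * w.length + 6 * m + 5 + 2) ^ k + 10) ≤
          (m + 1) * ((4 * w.length + 6 * m + 5 + 2) ^ k + 10) :=
        Nat.mul_le_mul_right _ (by omega)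
      simp only at e2 ⊢
      omega
    · rw [loopD_start]
      exact hT2

end search

end Pool.Agent.W2helper61.NT
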