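import Pool.Agent.W2helper61.NT.Upper

/-!
The arithmetical upper bound and the lower bound `not Sigma^0_3`.
-/

set_option autoImplicit false

namespace Pool.Agent.W2helper61.NT

open Turing Pool.Agent.H583R2

/-- `c` is a code of a total function `t` with `n ≤ t n` for all `n` such that `NTIME(Pol t)` is
closed under complementation. -/
def ClosedCode (c : Nat.Partrec.Code) : Prop :=
  ∃ t : ℕ → ℕ, (∀ n, t n ∈ c.eval n) ∧ (∀ n, n ≤ t n) ∧ coNTIME t = NTIME t

/-- step-bounded evaluation as a number, `0` if there is no value -/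
def evN (k : ℕ) (c : Nat.Partrec.Code) (n : ℕ) : ℕ :=
  Encodable.encode (Nat.Partrec.Code.evaln k c n)

theorem evN_pos {k : ℕ} {c : Nat.Partrec.Code} {n : ℕ} (h : 0 < evN k c n) :
    ∃ v, evN k c n = v + 1 ∧ v ∈ c.eval n := by
  unfold evN at *
  rcases h1 : Nat.Partrec.Code.evaln k c n with _ | v
  · rw [h1] at h; simp at h
  · refine ⟨v, by simp, Nat.Partrec.Code.evaln_sound h1⟩

theorem evN_of_mem {c : Nat.Partrec.Code} {n v : ℕ} (h : v ∈ c.eval n) :
    ∃ k, evN k c n = v + 1 := by
  obtain ⟨k, hk⟩ := Nat.Partrec.Code.evaln_complete.1 h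
  refine ⟨k, ?_⟩
  unfold evN
  rw [hk]
  simp

/-- the matrix -/
def mat (c : Nat.Partrec.Code) (a b d : ℕ) : Bool :=
  decide (a < evN (Nat.unpair b).1 c a) &&
  bif (Nat.unpair (Nat.unpair b).2).1 == 0 then
    decide (0 < evN (Nat.unpair (Nat.unpair (Nat.unpair (Nat.unpair b).2).2).2).2 c
      (lenS (Nat.unpair (Nat.unpair (Nat.unpair b).2).2).1)) &&
    (accB (Nat.unpair a).1 (Nat.unpair (Nat.unpair (Nat.unpair b).2).2).1
      (Nat.unpair (Nat.unpair (Nat.unpair (Nat.unpair b).2).2).2).1 &&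
    !(accB (Nat.unpair a).1 (Nat.unpair (Nat.unpair (Nat.unpair b).2).2).1
      ((evN (Nat.unpair (Nat.unpair (Nat.unpair (Nat.unpair b).2).2).2).2 c
        (lenS (Nat.unpair (Nat.unpair (Nat.unpair b).2).2).1) - 1) ^ (Nat.unpair a).2 +
        (Nat.unpair a).2)))
  else
    (evN (Nat.unpair (Nat.unpair d).2).2 c (lenS (Nat.unpair d).1) == 0) ||
    ((accB (Nat.unpair a).1 (Nat.unpair d).1
        ((evN (Nat.unpair (Nat.unpair d).2).2 c (lenS (Nat.unpair d).1) - 1) ^
          (Nat.unpair a).2 + (Nat.unpair a).2) ||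
      accB (Nat.unpair (Nat.unpair (Nat.unpair b).2).2).1 (Nat.unpair d).1
        ((evN (Nat.unpair (Nat.unpair d).2).2 c (lenS (Nat.unpair d).1) - 1) ^
          (Nat.unpair (Nat.unpair (Nat.unpair b).2).2).2 +
          (Nat.unpair (Nat.unpair (Nat.unpair b).2).2).2)) &&
    !(accB (Nat.unpair a).1 (Nat.unpair d).1 (Nat.unpair (Nat.unpair d).2).1 &&
      accB (Nat.unpair (Nat.unpair (Nat.unpair b).2).2).1 (Nat.unpair d).1
        (Nat.unpair (Nat.unpair d).2).1))

theorem mat_spec (c : Nat.Partrec.Code) :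
    ClosedCode c ↔ ∀ a, ∃ b, ∀ d, mat c a b d = true := by
  constructor
  · rintro ⟨t, h1, hid, hcl⟩ a
    rw [closed_iff hid] at hcl
    obtain ⟨k0, hk0⟩ := evN_of_mem (h1 a)
    have hp : a < t a + 1 := Nat.lt_succ_of_le (hid a)
    rcases hcl (Nat.unpair a).1 (Nat.unpair a).2 with ⟨w, s, h2, h3⟩ | ⟨e', j', h2⟩
    · obtain ⟨k1, hk1⟩ := evN_of_mem (h1 w.length)
      refine ⟨Nat.pair k0 (Nat.pair 0 (Nat.pair (idx w) (Nat.pair s k1))), ?_⟩
      intro d
      have hw : lenS (idx w) = w.length := by unfold lenS; rw [str_idx]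
      unfold mat
      simp only [Nat.unpair_pair, hk0, hw, hk1, beq_self_eq_true, cond_true,
        Bool.and_eq_true, decide_eq_true_eq, Bool.not_eq_true', Nat.add_sub_cancel]
      refine ⟨hp, Nat.succ_pos _, ?_, ?_⟩
      · rw [accB_iff, str_idx]; exact h2
      · rw [← Bool.not_eq_true, accB_iff, str_idx]; exact h3
    · refine ⟨Nat.pair k0 (Nat.pair 1 (Nat.pair e' j')), ?_⟩
      intro d
      unfold mat
      simp only [Nat.unpair_pair, hk0]
      have hcond : ((1 : ℕ) == 0) = false := rfl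
      rw [hcond, cond_false, Bool.and_eq_true, decide_eq_true_eq]
      refine ⟨hp, ?_⟩
      rcases Nat.eq_zero_or_pos (evN (Nat.unpair (Nat.unpair d).2).2 c
        (lenS (Nat.unpair d).1)) with hz | hz
      · rw [hz]; rfl
      · obtain ⟨v, hv, hv2⟩ := evN_pos hz
        have hvt : v = t (lenS (Nat.unpair d).1) := Part.mem_unique hv2 (h1 _)
        have h4 := h2 (str (Nat.unpair d).1) (Nat.unpair (Nat.unpair d).2).1
        have hl : (str (Nat.unpair d).1).length = lenS (Nat.unpair d).1 := rfl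
        rw [hl, ← hvt] at h4
        rw [hv, Nat.add_sub_cancel, Bool.or_eq_true, Bool.and_eq_true, Bool.or_eq_true,
          Bool.not_eq_true', ← Bool.not_eq_true, Bool.and_eq_true, accB_iff, accB_iff,
          accB_iff, accB_iff]
        exact Or.inr h4
  · intro h
    have htot : ∀ n, ∃ v, v ∈ c.eval n ∧ n ≤ v := by
      intro n
      obtain ⟨b, hb⟩ := h n
      have h1 := hb 0
      unfold mat at h1
      rw [Bool.and_eq_true, decide_eq_true_eq] at h1
      obtain ⟨v, hv, hv2⟩ := evN_pos (lt_of_le_of_lt (Nat.zero_le _) h1.1)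
      exact ⟨v, hv2, by omega⟩
    choose t ht hid using htot
    refine ⟨t, ht, hid, ?_⟩
    rw [closed_iff hid]
    intro e j
    obtain ⟨b, hb⟩ := h (Nat.pair e j)
    by_cases hf : (Nat.unpair (Nat.unpair b).2).1 = 0
    · left
      have h1 := hb 0
      unfold mat at h1
      simp only [Nat.unpair_pair, hf, beq_self_eq_true, cond_true,
        Bool.and_eq_true, decide_eq_true_eq, Bool.not_eq_true'] at h1
      obtain ⟨_, h2, h3, h4⟩ := h1
      obtain ⟨v, hv, hv2⟩ := evN_pos h2
      have hvt := Part.mem_unique hv2 (ht _)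
      rw [hv, Nat.add_sub_cancel, hvt, ← Bool.not_eq_true, accB_iff] at h4
      rw [accB_iff] at h3
      exact ⟨_, _, h3, h4⟩
    · right
      refine ⟨(Nat.unpair (Nat.unpair (Nat.unpair b).2).2).1,
        (Nat.unpair (Nat.unpair (Nat.unpair b).2).2).2, ?_⟩
      intro w s
      obtain ⟨k, hk⟩ := evN_of_mem (ht w.length)
      have h1 := hb (Nat.pair (idx w) (Nat.pair s k))
      have hw : lenS (idx w) = w.length := by unfold lenS; rw [str_idx]
      have hcond : ((Nat.unpair (Nat.unpair b).2).1 == 0) = false := by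
        simpa using hf
      unfold mat at h1
      rw [hcond, cond_false, Bool.and_eq_true] at h1
      simp only [Nat.unpair_pair, hw, hk] at h1
      have h2 := h1.2
      rw [Nat.add_sub_cancel, Bool.or_eq_true, Bool.and_eq_true, Bool.or_eq_true,
          Bool.not_eq_true', ← Bool.not_eq_true, Bool.and_eq_true, accB_iff, accB_iff,
          accB_iff, accB_iff, str_idx] at h2
      rcases h2 with h2 | h2
      · simp at h2
      · exact h2

theorem computable_mat : Computable (fun q : Nat.Partrec.Code × ℕ × ℕ × ℕ =>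
    mat q.1 q.2.1 q.2.2.1 q.2.2.2) := by
  have hc : Primrec (fun q : Nat.Partrec.Code × ℕ × ℕ × ℕ => q.1) := Primrec.fst
  have ha : Primrec (fun q : Nat.Partrec.Code × ℕ × ℕ × ℕ => q.2.1) :=
    Primrec.fst.comp Primrec.snd
  have hb : Primrec (fun q : Nat.Partrec.Code × ℕ × ℕ × ℕ => q.2.2.1) :=
    Primrec.fst.comp (Primrec.snd.comp Primrec.snd)
  have hd : Primrec (fun q : Nat.Partrec.Code × ℕ × ℕ × ℕ => q.2.2.2) :=
    Primrec.snd.comp (Primrec.snd.comp Primrec.snd)
  have u1 : ∀ {f : Nat.Partrec.Code × ℕ × ℕ × ℕ → ℕ}, Primrec f →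
      Primrec (fun q => (Nat.unpair (f q)).1) := fun hf =>
    Primrec.fst.comp (Primrec.unpair.comp hf)
  have u2 : ∀ {f : Nat.Partrec.Code × ℕ × ℕ × ℕ → ℕ}, Primrec f →
      Primrec (fun q => (Nat.unpair (f q)).2) := fun hf =>
    Primrec.snd.comp (Primrec.unpair.comp hf)
  have hev : ∀ {f g : Nat.Partrec.Code × ℕ × ℕ × ℕ → ℕ}, Computable f → Computable g →
      Computable (fun q => evN (f q) q.1 (g q)) := by
    intro f g hf hg
    have h1 : Computable (fun q : Nat.Partrec.Code × ℕ × ℕ × ℕ => ((f q, q.1), g q)) :=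
      (hf.pair hc.to_comp).pair hg
    exact (Primrec.encode.to_comp).comp (Nat.Partrec.Code.primrec_evaln.to_comp.comp h1)
  have hlen : ∀ {f : Nat.Partrec.Code × ℕ × ℕ × ℕ → ℕ}, Computable f →
      Computable (fun q => lenS (f q)) := fun hf => computable_lenS.comp hf
  have hpow : ∀ {f g : Nat.Partrec.Code × ℕ × ℕ × ℕ → ℕ}, Computable f → Computable g →
      Computable (fun q => (f q - 1) ^ g q + g q) := by
    intro f g hf hg
    have hp : Primrec₂ ((· ^ ·) : ℕ → ℕ → ℕ) := Primrec₂.unpaired'.1 Nat.Primrec.pow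
    exact (Primrec.nat_add.to_comp).comp (hp.to_comp.comp
      ((Primrec.nat_sub.to_comp).comp hf (Computable.const 1)) hg) hg
  have hlt : ∀ {f g : Nat.Partrec.Code × ℕ × ℕ × ℕ → ℕ}, Computable f → Computable g →
      Computable (fun q => decide (f q < g q)) := by
    intro f g hf hg
    have hp : Primrec₂ (fun a b : ℕ => decide (a < b)) := Primrec.nat_lt.decide
    exact hp.to_comp.comp hf hg
  have hbeq : ∀ {f : Nat.Partrec.Code × ℕ × ℕ × ℕ → ℕ}, Computable f →
      Computable (fun q => (f q == 0 : Bool)) := fun hf =>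
    (Primrec.beq.to_comp).comp hf (Computable.const 0)
  have hand : ∀ {f g : Nat.Partrec.Code × ℕ × ℕ × ℕ → Bool}, Computable f → Computable g →
      Computable (fun q => f q && g q) := fun hf hg => Primrec.and.to_comp.comp hf hg
  have hor : ∀ {f g : Nat.Partrec.Code × ℕ × ℕ × ℕ → Bool}, Computable f → Computable g →
      Computable (fun q => f q || g q) := fun hf hg => Primrec.or.to_comp.comp hf hg
  have hnot : ∀ {f : Nat.Partrec.Code × ℕ × ℕ × ℕ → Bool}, Computable f →
      Computable (fun q => !(f q)) := fun hf => Primrec.not.to_comp.comp hf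
  have hr := u2 (u2 hb)
  have he := (u1 ha).to_comp
  have hj := (u2 ha).to_comp
  have hz1 := hev (u2 (u2 hr)).to_comp (hlen (u1 hr).to_comp)
  have hz2 := hev (u2 (u2 hd)).to_comp (hlen (u1 hd).to_comp)
  exact hand (hlt ha.to_comp (hev (u1 hb).to_comp ha.to_comp))
    (Computable.cond (hbeq (u1 (u2 hb)).to_comp)
      (hand (hlt (Computable.const 0) hz1)
        (hand (computable_accB he (u1 hr).to_comp (u1 (u2 hr)).to_comp)
          (hnot (computable_accB he (u1 hr).to_comp (hpow hz1 hj)))))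
      (hor (hbeq hz2) (hand (hor (computable_accB he (u1 hd).to_comp (hpow hz2 hj))
          (computable_accB (u1 hr).to_comp (u1 hd).to_comp (hpow hz2 (u2 hr).to_comp)))
        (hnot (hand (computable_accB he (u1 hd).to_comp (u1 (u2 hd)).to_comp)
          (computable_accB (u1 hr).to_comp (u1 hd).to_comp (u1 (u2 hd)).to_comp))))))

end Pool.Agent.W2helper61.NT
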