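import Pool.Agent.W2helper61.NT.Union

/-!
The functions computed by the machines of this library are exactly the computable functions
of Mathlib.
-/

set_option autoImplicit false

namespace Pool.Agent.W2helper61.NT

open Turing Pool.Agent.H583R2

/-! ### pairing of numbers -/

section
variable {α β γ δ σ : Type} [TEnc α] [TEnc β] [TEnc γ] [TEnc δ] [TEnc σ]

theorem pf_natPair {a b : α → ℕ} (ha : PF a) (hb : PF b) :
    PF (fun x => Nat.pair (a x) (b x)) := by
  refine (PF.ite (PF.lt ha hb) (PF.add (PF.mul hb hb) ha)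
    (PF.add (PF.add (PF.mul ha ha) ha) hb)).congr ?_
  intro x
  unfold Nat.pair
  by_cases h : a x < b x
  · simp [h]
  · simp [h]

theorem sqrt_find (n : ℕ) :
    ((List.range (n + 1)).find? (fun s => decide (n < (s + 1) * (s + 1)))).getD 0 =
      Nat.sqrt n := by
  have h : (List.range (n + 1)).find? (fun s => decide (n < (s + 1) * (s + 1))) =
      some (Nat.sqrt n) := by
    rw [List.find?_range_eq_some]
    refine ⟨?_, ?_, ?_⟩
    · rw [decide_eq_true_eq]; exact Nat.lt_succ_sqrt n
    · rw [List.mem_range]; exact Nat.lt_succ_of_le (Nat.sqrt_le_self n)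
    · intro j hj
      simp only [Bool.not_eq_true', decide_eq_false_iff_not, not_lt]
      exact Nat.le_sqrt.1 hj
  rw [h]
  rfl

theorem pf_sqrt {a : α → ℕ} (ha : PF a) : PF (fun x => Nat.sqrt (a x)) := by
  refine (PF.getD (PF.find (l := fun x => List.range (a x + 1))
    (f := fun x s => decide (a x < (s + 1) * (s + 1))) (PF.range (PF.succ ha)) ?_)
    (PF.const 0)).congr (fun x => sqrt_find (a x))
  exact PF.lt (ha.comp PF.fst) (PF.mul (PF.succ PF.snd) (PF.succ PF.snd))

theorem pf_unpair {a : α → ℕ} (ha : PF a) : PF (fun x => Nat.unpair (a x)) := by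
  have hs := pf_sqrt ha
  have h1 : PF (fun x => a x - Nat.sqrt (a x) * Nat.sqrt (a x)) := PF.sub ha (PF.mul hs hs)
  refine (PF.ite (PF.lt h1 hs) (PF.pair h1 hs) (PF.pair hs (PF.sub h1 hs))).congr ?_
  intro x
  unfold Nat.unpair
  by_cases h : a x - Nat.sqrt (a x) * Nat.sqrt (a x) < Nat.sqrt (a x)
  · simp [h]
  · simp [h]

theorem Cb.foldl {F : β × σ → σ} (hF : Cb F) :
    Cb (fun p : List β × σ => p.1.foldl (fun s b => F (b, s)) p.2) := by
  obtain ⟨c, hF⟩ := hF
  exact ⟨_, Has.fold hF⟩

end

/-- primitive recursive functions are computed by machines -/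
theorem cb_of_primrec {f : ℕ → ℕ} (h : Nat.Primrec f) : Cb f := by
  induction h with
  | zero => exact PF.cb (PF.const 0)
  | succ => exact PF.cb (PF.succ PF.id)
  | left => exact PF.cb (PF.fst' (pf_unpair PF.id))
  | right => exact PF.cb (PF.snd' (pf_unpair PF.id))
  | pair _ _ hf hg =>
    exact (Cb.pf (pf_natPair PF.fst PF.snd) (hf.pair hg)).congr (fun _ => rfl)
  | comp _ _ hf hg => exact hf.comp hg
  | @prec f g _ _ hf hg =>
    -- state `(z, IH)`
    have h1 : Cb (fun q : ℕ × (ℕ × ℕ) => (q.2.1, g (Nat.pair q.2.1 (Nat.pair q.1 q.2.2)))) := by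
      refine Cb.pair (PF.cb (PF.fst' PF.snd)) (hg.comp (PF.cb ?_))
      exact pf_natPair (PF.fst' PF.snd) (pf_natPair PF.fst (PF.snd' PF.snd))
    have h2 := Cb.foldl h1
    have h3 : Cb (fun p : ℕ => (List.range (Nat.unpair p).2, (Nat.unpair p).1,
        f (Nat.unpair p).1)) := by
      refine Cb.pair (PF.cb (PF.range (PF.snd' (pf_unpair PF.id)))) (Cb.pair
        (PF.cb (PF.fst' (pf_unpair PF.id))) (hf.comp (PF.cb (PF.fst' (pf_unpair PF.id)))))
    refine (Cb.pf (PF.snd' PF.id) (h2.comp h3)).congr ?_
    intro p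
    unfold Nat.unpaired
    generalize (Nat.unpair p).1 = z
    generalize (Nat.unpair p).2 = n
    have key : ∀ n : ℕ, (List.range n).foldl (fun (s : ℕ × ℕ) b =>
        (s.1, g (Nat.pair s.1 (Nat.pair b s.2)))) (z, f z) =
        (z, Nat.rec (f z) (fun y IH => g (Nat.pair z (Nat.pair y IH))) n) := by
      intro n
      induction n with
      | zero => rfl
      | succ n ih => rw [List.range_succ, List.foldl_append, ih]; rfl
    have := key n
    simp only at this ⊢
    rw [this]

/-- Mathlib's total computable functions are computed by machines -/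
theorem cb_of_computable {f : ℕ → ℕ} (h : Computable f) : Cb f := by
  have h1 : Nat.Partrec (fun n => (f n : Part ℕ)) := Partrec.nat_iff.1 h
  obtain ⟨c, hc⟩ := Nat.Partrec.Code.exists_code.1 h1
  -- the step-bounded evaluation is primitive recursive
  have h2 : Primrec (fun p : ℕ => Encodable.encode
      (Nat.Partrec.Code.evaln (Nat.unpair p).2 c (Nat.unpair p).1)) := by
    have h0 : Primrec (fun p : ℕ => (((Nat.unpair p).2, c), (Nat.unpair p).1)) :=
      Primrec.pair (Primrec.pair (Primrec.snd.comp Primrec.unpair) (Primrec.const c))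
        (Primrec.fst.comp Primrec.unpair)
    exact Primrec.encode.comp (Nat.Partrec.Code.primrec_evaln.comp h0)
  have h3 := cb_of_primrec (Primrec.nat_iff.1 h2)
  have h4 : Cb (fun p : ℕ × ℕ => Encodable.encode
      (Nat.Partrec.Code.evaln p.2 c p.1)) := by
    refine (h3.comp (PF.cb (pf_natPair PF.fst PF.snd))).congr ?_
    intro p
    simp
  have h5 : Cb (fun p : ℕ × ℕ => if Encodable.encode (Nat.Partrec.Code.evaln p.2 c p.1) = 0
      then (none : Option ℕ) else
      some (Encodable.encode (Nat.Partrec.Code.evaln p.2 c p.1) - 1)) := by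
    refine (Cb.pf (f := fun p : ℕ × ℕ => Encodable.encode (Nat.Partrec.Code.evaln p.2 c p.1))
      (g := fun e => if decide (e = 0) then (none : Option ℕ) else some (e - 1))
      (PF.ite (PF.natEq PF.id (PF.const 0)) (PF.const none) (PF.mkSome (PF.pred PF.id)))
      h4).congr ?_
    intro p
    by_cases h : Encodable.encode (Nat.Partrec.Code.evaln p.2 c p.1) = 0
    · simp [h]
    · simp [h]
  have h6 : ∀ n, ∃ k, Nat.Partrec.Code.evaln k c n = some (f n) := by
    intro n
    have h7 : f n ∈ Nat.Partrec.Code.eval c n := by rw [hc]; simp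
    obtain ⟨k, hk⟩ := Nat.Partrec.Code.evaln_complete.1 h7
    exact ⟨k, hk⟩
  have h6' : ∀ n, ∃ k, Nat.Partrec.Code.evaln k c n ≠ none := by
    intro n
    obtain ⟨k, hk⟩ := h6 n
    exact ⟨k, by rw [hk]; simp⟩
  classical
  refine (Cb.mu h5 0 (fun n => Nat.find (h6' n)) ?_ ?_).congr ?_
  · intro n i hi
    have := Nat.find_min (h6' n) hi
    rw [not_not] at this
    simp [this]
  · intro n
    have := Nat.find_spec (h6' n)
    obtain ⟨v, hv⟩ := Option.ne_none_iff_exists'.1 this
    simp [hv]
  · intro n
    have h7 := Nat.find_spec (h6' n)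
    obtain ⟨v, hv⟩ := Option.ne_none_iff_exists'.1 h7
    have h8 : v ∈ Nat.Partrec.Code.eval c n := Nat.Partrec.Code.evaln_sound hv
    rw [hc] at h8
    simp only [hv]
    simpa using h8

/-! ### the converse -/

theorem primrec_una : Primrec una := by
  refine (Primrec.list_map Primrec.list_range (Primrec.const true).to₂).of_eq ?_
  intro n
  unfold una
  rw [List.map_const', List.length_range]

theorem primrec_stepU (I : List Ins) : Primrec (stepU I) := by
  have hI : Primrec (fun c : UCfg => I[c.1]?) := (Primrec.list_getElem?₁ I).comp Primrec.fst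
  refine (Primrec.option_casesOn hI Primrec.id (g := fun c ins => stepI ins c.2) ?_).of_eq ?_
  · have hs : Primrec (fun p : UCfg × Ins => p.1.2) := Primrec.snd.comp Primrec.fst
    have hi : Primrec (fun p : UCfg × Ins => p.2.1) := Primrec.fst.comp Primrec.snd
    have ht : Primrec (fun p : UCfg × Ins => p.2.2) := Primrec.snd.comp Primrec.snd
    have h0 : Primrec (fun p : UCfg × Ins => p.1.2.getD p.2.1 []) :=
      (Primrec.list_getD []).comp hs hi
    have hsym : Primrec (fun p : UCfg × Ins => symIx (p.1.2.getD p.2.1 []).head?) := by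
      have : Primrec symIx := by
        refine (Primrec.option_casesOn Primrec.id (Primrec.const 0)
          (g := fun (_ : Option ℕ) a => a + 1) (Primrec.succ.comp Primrec.snd).to₂).of_eq ?_
        intro o
        cases o <;> rfl
      exact this.comp (Primrec.list_head?.comp h0)
    have he : Primrec (fun p : UCfg × Ins =>
        p.2.2.getD (symIx (p.1.2.getD p.2.1 []).head?) (0, 0, 0)) :=
      (Primrec.list_getD (0, 0, 0)).comp ht hsym
    have h1 : Primrec (fun p : UCfg × Ins => p.1.2.set p.2.1 (p.1.2.getD p.2.1 []).tail) :=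
      Primrec.list_set.comp hs (Primrec.pair hi (Primrec.list_tail.comp h0))
    have he1 := Primrec.fst.comp he
    have he2 := Primrec.snd.comp he
    exact (Primrec.pair (Primrec.snd.comp he2) (Primrec.list_set.comp h1 (Primrec.pair he1
      (Primrec.list_cons.comp (Primrec.fst.comp he2)
        ((Primrec.list_getD []).comp h1 he1))))).to₂
  · intro c
    unfold stepU
    cases I[c.1]? <;> rfl

theorem primrec_U (c : Code) : Primrec₂ (fun (x : List Bool) (s : ℕ) => U c x s) := by
  have hinit : Primrec (fun x : List Bool => initU c x) := by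
    unfold initU
    refine Primrec.pair (Primrec.const _) (Primrec.list_set.comp (Primrec.const _)
      (Primrec.pair (Primrec.const _) (Primrec.list_map (f := fun x : List Bool => x) Primrec.id
        (g := fun _ (b : Bool) => if b then c.2.2.2.2.1.2 else c.2.2.2.2.1.1) ?_)))
    have hb : Primrec (fun p : List Bool × Bool => bif p.2 then c.2.2.2.2.1.2 else
        c.2.2.2.2.1.1) := Primrec.cond Primrec.snd (Primrec.const _) (Primrec.const _)
    have hb' : Primrec (fun p : List Bool × Bool => if p.2 then c.2.2.2.2.1.2 else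
        c.2.2.2.2.1.1) := hb.of_eq (fun p => by cases p.2 <;> rfl)
    exact hb'.to₂
  have hrun : Primrec (fun p : List Bool × ℕ => runU c p.1 p.2) :=
    Primrec.nat_iterate Primrec.snd (hinit.comp Primrec.fst)
      ((primrec_stepU c.1).comp Primrec.snd).to₂
  have hout : Primrec (fun p : List Bool × ℕ => ((runU c p.1 p.2).2.getD c.2.2.2.2.2.1 []).map
      (fun a => c.2.2.2.2.2.2.getD a false)) := by
    refine Primrec.list_map ((Primrec.list_getD []).comp (Primrec.snd.comp hrun)
      (Primrec.const _)) ?_
    exact ((Primrec.list_getD false).comp (Primrec.const _) Primrec.snd).to₂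
  have hlt : PrimrecPred (fun p : List Bool × ℕ => (runU c p.1 p.2).1 < c.1.length) :=
    Primrec.nat_lt.comp (Primrec.fst.comp hrun) (Primrec.const _)
  have hU : Primrec (fun p : List Bool × ℕ => U c p.1 p.2) := by
    refine (Primrec.ite hlt (Primrec.const none) (Primrec.option_some.comp hout)).of_eq ?_
    intro p
    unfold U
    by_cases h : (runU c p.1 p.2).1 < c.1.length
    · simp [h]
    · simp [h]
  exact hU.to₂

/-- functions computed by machines are computable in the sense of Mathlib -/
theorem computable_of_tm {t : ℕ → ℕ} (h : TMComputable t) : Computable t := by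
  obtain ⟨M⟩ := h
  obtain ⟨c, T, hT⟩ := code_of_tm' M
  have h1 : Computable₂ (fun (n s : ℕ) => (U c (una n) s).map List.length) := by
    have h2 : Primrec (fun p : ℕ × ℕ => (U c (una p.1) p.2).map List.length) :=
      Primrec.option_map ((primrec_U c).comp (primrec_una.comp Primrec.fst) Primrec.snd)
        (Primrec.list_length.comp Primrec.snd).to₂
    exact h2.to_comp.to₂
  have h3 : Partrec (fun n => Nat.rfindOpt (fun s => (U c (una n) s).map List.length)) :=
    Partrec.rfindOpt h1
  refine h3.of_eq ?_
  intro n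
  have hmono : ∀ {a m n' : ℕ}, m ≤ n' →
      a ∈ (fun s => (U c (una n) s).map List.length) m →
      a ∈ (fun s => (U c (una n) s).map List.length) n' := by
    intro a m n' hm ha
    simp only [Option.mem_def, Option.map_eq_some_iff] at ha ⊢
    obtain ⟨z, hz, rfl⟩ := ha
    exact ⟨z, U_mono hz hm, rfl⟩
  refine Part.eq_some_iff.2 ((Nat.rfindOpt_mono hmono).2 ⟨T n, ?_⟩)
  simp only [Option.mem_def, Option.map_eq_some_iff]
  exact ⟨_, hT n _ le_rfl, map_una _⟩

theorem computable_of_cb {t : ℕ → ℕ} (h : Cb t) : Computable t :=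
  computable_of_tm (tmComputable_of_cb h)

theorem tmComputable_iff {t : ℕ → ℕ} : TMComputable t ↔ Computable t :=
  ⟨computable_of_tm, fun h => tmComputable_of_cb (cb_of_computable h)⟩

end Pool.Agent.W2helper61.NT
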