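import Pool.Agent.W2helper61.NT.Mat

/-!
The closure question has no `Sigma^0_3` description.
-/

set_option autoImplicit false

namespace Pool.Agent.W2helper61.NT

open Turing Pool.Agent.H583R2

/-- the diagonal relation -/
def diagR (x a b d : ℕ) : Bool :=
  !(evN (Nat.unpair d).2 (Denumerable.ofNat Nat.Partrec.Code x)
    (Nat.pair x (Nat.pair a (Nat.pair b (Nat.unpair d).1))) == 2)

theorem computable_diagR :
    Computable (fun q : ℕ × ℕ × ℕ × ℕ => diagR q.1 q.2.1 q.2.2.1 q.2.2.2) := by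
  have hx : Primrec (fun q : ℕ × ℕ × ℕ × ℕ => q.1) := Primrec.fst
  have ha : Primrec (fun q : ℕ × ℕ × ℕ × ℕ => q.2.1) := Primrec.fst.comp Primrec.snd
  have hb : Primrec (fun q : ℕ × ℕ × ℕ × ℕ => q.2.2.1) :=
    Primrec.fst.comp (Primrec.snd.comp Primrec.snd)
  have hd : Primrec (fun q : ℕ × ℕ × ℕ × ℕ => q.2.2.2) :=
    Primrec.snd.comp (Primrec.snd.comp Primrec.snd)
  have hd1 : Primrec (fun q : ℕ × ℕ × ℕ × ℕ => (Nat.unpair q.2.2.2).1) :=
    Primrec.fst.comp (Primrec.unpair.comp hd)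
  have hd2 : Primrec (fun q : ℕ × ℕ × ℕ × ℕ => (Nat.unpair q.2.2.2).2) :=
    Primrec.snd.comp (Primrec.unpair.comp hd)
  have h1 : Primrec (fun q : ℕ × ℕ × ℕ × ℕ => (((Nat.unpair q.2.2.2).2,
      Denumerable.ofNat Nat.Partrec.Code q.1),
      Nat.pair q.1 (Nat.pair q.2.1 (Nat.pair q.2.2.1 (Nat.unpair q.2.2.2).1)))) :=
    Primrec.pair (Primrec.pair hd2 ((Primrec.ofNat Nat.Partrec.Code).comp hx))
      (Primrec₂.natPair.comp hx (Primrec₂.natPair.comp ha (Primrec₂.natPair.comp hb hd1)))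
  have h2 : Primrec (fun q : ℕ × ℕ × ℕ × ℕ => evN (Nat.unpair q.2.2.2).2
      (Denumerable.ofNat Nat.Partrec.Code q.1)
      (Nat.pair q.1 (Nat.pair q.2.1 (Nat.pair q.2.2.1 (Nat.unpair q.2.2.2).1)))) :=
    Primrec.encode.comp (Nat.Partrec.Code.primrec_evaln.comp h1)
  exact (Primrec.not.comp (Primrec.beq.comp h2 (Primrec.const 2))).to_comp

theorem not_sigma3 (h : ℕ → ℕ) (hh : Computable h) :
    ¬ ∃ S : Nat.Partrec.Code → ℕ → ℕ → ℕ → Bool,
      Computable (fun q : Nat.Partrec.Code × ℕ × ℕ × ℕ => S q.1 q.2.1 q.2.2.1 q.2.2.2) ∧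
      ∀ (c : Nat.Partrec.Code) (t : ℕ → ℕ), (∀ n, t n ∈ c.eval n) → Monotone t →
        (∀ n, n ≤ t n ∧ h n ≤ t n) →
        (coNTIME t = NTIME t ↔ ∃ a, ∀ b, ∃ d, S c a b d = true) := by
  rintro ⟨S, hS, hspec⟩
  obtain ⟨f, hf, hft⟩ := hardness h hh diagR computable_diagR
  have hK : ∀ x, (∀ a, ∃ b, ∀ d, diagR x a b d = true) ↔
      ∃ a, ∀ b, ∃ d, S (f x) a b d = true := by
    intro x
    obtain ⟨t, h1, h2, h3, h4⟩ := hft x
    exact h4.symm.trans (hspec (f x) t h1 h2 h3)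
  set g : ℕ → ℕ := fun z => bif S (f (Nat.unpair z).1) (Nat.unpair (Nat.unpair z).2).1
    (Nat.unpair (Nat.unpair (Nat.unpair z).2).2).1
    (Nat.unpair (Nat.unpair (Nat.unpair z).2).2).2 then 1 else 0 with hg
  have hgc : Computable g := by
    have hu1 : Primrec (fun n : ℕ => (Nat.unpair n).1) := Primrec.fst.comp Primrec.unpair
    have hu2 : Primrec (fun n : ℕ => (Nat.unpair n).2) := Primrec.snd.comp Primrec.unpair
    have h2 : Computable (fun n : ℕ => (f (Nat.unpair n).1, (Nat.unpair (Nat.unpair n).2).1,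
        (Nat.unpair (Nat.unpair (Nat.unpair n).2).2).1,
        (Nat.unpair (Nat.unpair (Nat.unpair n).2).2).2)) :=
      Computable.pair (hf.comp hu1.to_comp) (Primrec.pair (hu1.comp hu2)
        (Primrec.pair (hu1.comp (hu2.comp hu2)) (hu2.comp (hu2.comp hu2)))).to_comp
    exact Computable.cond (hS.comp h2) (Computable.const 1) (Computable.const 0)
  obtain ⟨c0, hc0⟩ := Nat.Partrec.Code.exists_code.1 (Partrec.nat_iff.1 hgc)
  set x0 := Encodable.encode c0 with hx0
  have hg0 : ∀ a b d, g (Nat.pair x0 (Nat.pair a (Nat.pair b d))) =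
      bif S (f x0) a b d then 1 else 0 := by
    intro a b d
    simp only [hg, Nat.unpair_pair]
  have hval : ∀ z, g z ∈ c0.eval z := by
    intro z
    rw [hc0]
    simp
  have h5 : (∃ a, ∀ b, ∃ d, S (f x0) a b d = true) ↔
      ¬ ∀ a, ∃ b, ∀ d, diagR x0 a b d = true := by
    push Not
    constructor
    · rintro ⟨a, ha⟩
      refine ⟨a, fun b => ?_⟩
      obtain ⟨d, hd⟩ := ha b
      have h6 := hval (Nat.pair x0 (Nat.pair a (Nat.pair b d)))
      rw [hg0, hd, cond_true] at h6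
      obtain ⟨k, hk⟩ := evN_of_mem h6
      refine ⟨Nat.pair d k, ?_⟩
      unfold diagR
      rw [hx0, Denumerable.ofNat_encode, ← hx0]
      simp only [Nat.unpair_pair]
      rw [hk]
      simp
    · rintro ⟨a, ha⟩
      refine ⟨a, fun b => ?_⟩
      obtain ⟨d, hd⟩ := ha b
      refine ⟨(Nat.unpair d).1, ?_⟩
      unfold diagR at hd
      rw [hx0, Denumerable.ofNat_encode, ← hx0] at hd
      have h6 : evN (Nat.unpair d).2 c0
          (Nat.pair x0 (Nat.pair a (Nat.pair b (Nat.unpair d).1))) = 2 := by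
        simpa using hd
      obtain ⟨v, hv, hv2⟩ := evN_pos (by rw [h6]; norm_num)
      have h7 := Part.mem_unique hv2 (hval _)
      rw [hg0] at h7
      have h8 : v = 1 := by omega
      rw [h8] at h7
      rcases hs : S (f x0) a b (Nat.unpair d).1 with _ | _
      · rw [hs] at h7; simp at h7
      · rfl
  have h6 := hK x0
  rw [h5] at h6
  tauto

end Pool.Agent.W2helper61.NT
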