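import Pool.Agent.H583R2.Univ
import Pool.Agent.W2helper61.NT.Defs

/-!
Every Mathlib `FinTM2` is simulated by a code of the universal simulation with linear overhead.
-/

namespace Pool.Agent.W2helper61.NT

open Turing Classical Pool.Agent.H583R2

noncomputable section

attribute [local instance] FinTM2.kFin FinTM2.ΛFin FinTM2.σFin FinTM2.Γk₀Fin

variable (tm : FinTM2)

abbrev Stm := TM2.Stmt tm.Γ tm.Λ tm.σ

/-- all sub-statements -/
def sS : Finset (Stm tm) := Finset.univ.biUnion fun l => TM2.stmts₁ (tm.m l)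

theorem sS_sub {q q' : Stm tm} (h : q' ∈ TM2.stmts₁ q) (hq : q ∈ sS tm) : q' ∈ sS tm := by
  unfold sS at *
  rw [Finset.mem_biUnion] at *
  obtain ⟨l, hl, hq⟩ := hq
  exact ⟨l, hl, TM2.stmts₁_trans hq h⟩

theorem sS_main (l : tm.Λ) : (tm.m l : Stm tm) ∈ sS tm := by
  unfold sS
  rw [Finset.mem_biUnion]
  exact ⟨l, Finset.mem_univ _, TM2.stmts₁_self⟩

def sF : Finset (Stm tm × tm.σ) := sS tm ×ˢ Finset.univ

theorem mem_sF {q : Stm tm} (v : tm.σ) (h : q ∈ sS tm) : (q, v) ∈ sF tm :=
  Finset.mem_product.2 ⟨h, Finset.mem_univ _⟩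

def numSt (p : Stm tm × tm.σ) : ℕ :=
  if h : p ∈ sF tm then ((sF tm).equivFin ⟨p, h⟩ : ℕ) else (sF tm).card

abbrev Sy := Σ k, tm.Γ k

variable (X : Finset (Sy tm))

def symOf (p : Stm tm × tm.σ) : Finset (Sy tm) :=
  match p with
  | (.push k f _, v) => {⟨k, f v⟩}
  | _ => ∅

def sG : Finset (Sy tm) :=
  (sF tm).biUnion (symOf tm) ∪ X

def numSy (s : Sy tm) : ℕ := if h : s ∈ sG tm X then ((sG tm X).equivFin ⟨s, h⟩ : ℕ) else 0

def tbl {β : Type} (T : Sy tm → β) : List β :=
  List.ofFn (fun j : Fin (sG tm X).card => T ((sG tm X).equivFin.symm j).1)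

theorem tbl_getD {β : Type} (T : Sy tm → β) (d : β) {s : Sy tm} (h : s ∈ sG tm X) :
    (tbl tm X T).getD (numSy tm X s) d = T s := by
  unfold tbl numSy
  rw [dif_pos h, List.getD_eq_getElem?_getD, List.getElem?_ofFn]
  rw [dif_pos (Fin.is_lt _)]
  simp

def kNum (k : tm.K) : ℕ := (Fintype.equivFin tm.K k : ℕ)

def nK : ℕ := Fintype.card tm.K

theorem kNum_lt (k : tm.K) : kNum tm k < nK tm := Fin.is_lt _

def encMap (k : tm.K) (l : List (tm.Γ k)) : List ℕ := l.map (fun a => numSy tm X ⟨k, a⟩)

def encStk (stk : ∀ k, List (tm.Γ k)) : List (List ℕ) :=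
  List.ofFn (fun j : Fin (Fintype.card tm.K) =>
    encMap tm X ((Fintype.equivFin tm.K).symm j) (stk ((Fintype.equivFin tm.K).symm j)))

theorem encStk_length (stk : ∀ k, List (tm.Γ k)) : (encStk tm X stk).length = nK tm := by
  simp [encStk, nK]

theorem encStk_get (stk : ∀ k, List (tm.Γ k)) (k : tm.K) :
    (encStk tm X stk)[kNum tm k]? = some (encMap tm X k (stk k)) := by
  unfold encStk kNum
  rw [List.getElem?_ofFn, dif_pos (Fin.is_lt _)]
  have h : ∀ k', k' = k → encMap tm X k' (stk k') = encMap tm X k (stk k) := by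
    intro k' h; subst h; rfl
  rw [h _ (by simp)]

theorem encStk_getD (stk : ∀ k, List (tm.Γ k)) (k : tm.K) :
    (encStk tm X stk).getD (kNum tm k) [] = encMap tm X k (stk k) := by
  rw [List.getD_eq_getElem?_getD, encStk_get]; rfl

theorem encStk_getD_nK (stk : ∀ k, List (tm.Γ k)) : (encStk tm X stk).getD (nK tm) [] = [] := by
  rw [List.getD_eq_getElem?_getD, List.getElem?_eq_none (by rw [encStk_length])]; rfl

theorem encStk_set_nK (stk : ∀ k, List (tm.Γ k)) (x : List ℕ) :
    (encStk tm X stk).set (nK tm) x = encStk tm X stk :=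
  List.set_eq_of_length_le (by rw [encStk_length])

theorem exists_kNum {n : ℕ} (h : n < nK tm) : ∃ k, kNum tm k = n :=
  ⟨(Fintype.equivFin tm.K).symm ⟨n, h⟩, by simp [kNum]⟩

theorem kNum_inj {k k' : tm.K} (h : kNum tm k = kNum tm k') : k = k' :=
  (Fintype.equivFin tm.K).injective (Fin.ext h)

theorem encStk_set (stk : ∀ k, List (tm.Γ k)) (k : tm.K) (l : List (tm.Γ k)) :
    (encStk tm X stk).set (kNum tm k) (encMap tm X k l) = encStk tm X (Function.update stk k l) := by
  apply List.ext_getElem?
  intro n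
  rcases lt_or_ge n (nK tm) with h | h
  · obtain ⟨k', rfl⟩ := exists_kNum tm h
    rw [encStk_get, List.getElem?_set, encStk_get]
    by_cases hk : kNum tm k = kNum tm k'
    · have := kNum_inj tm hk
      subst this
      rw [if_pos rfl, if_pos (by rw [encStk_length]; exact kNum_lt tm k), Function.update_self]
    · rw [if_neg hk, Function.update_of_ne (fun e => hk (by rw [e]))]
  · rw [List.getElem?_eq_none (by rw [List.length_set, encStk_length]; exact h),
      List.getElem?_eq_none (by rw [encStk_length]; exact h)]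

/-- instruction of a control state -/
def insOf (p : Stm tm × tm.σ) : Ins :=
  match p with
  | (.push k f q, v) => (nK tm, [(kNum tm k, numSy tm X ⟨k, f v⟩, numSt tm (q, v))])
  | (.peek k f q, v) => (kNum tm k, (nK tm, 0, numSt tm (q, f v none)) ::
      tbl tm X (fun s => if h : s.1 = k then
        (kNum tm k, numSy tm X s, numSt tm (q, f v (some (h ▸ s.2)))) else (0, 0, 0)))
  | (.pop k f q, v) => (kNum tm k, (nK tm, 0, numSt tm (q, f v none)) ::
      tbl tm X (fun s => if h : s.1 = k then
        (nK tm, 0, numSt tm (q, f v (some (h ▸ s.2)))) else (0, 0, 0)))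
  | (.load a q, v) => (nK tm, [(nK tm, 0, numSt tm (q, a v))])
  | (.branch c q₁ q₂, v) => (nK tm, [(nK tm, 0, numSt tm (cond (c v) q₁ q₂, v))])
  | (.goto l, v) => (nK tm, [(nK tm, 0, numSt tm (tm.m (l v), v))])
  | (.halt, _) => (nK tm, [(nK tm, 0, (sF tm).card)])

def codeL : List Ins :=
  List.ofFn (fun j : Fin (sF tm).card => insOf tm X ((sF tm).equivFin.symm j).1)

theorem codeL_length : (codeL tm X).length = (sF tm).card := by simp [codeL]

theorem codeL_get {p : Stm tm × tm.σ} (h : p ∈ sF tm) :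
    (codeL tm X)[numSt tm p]? = some (insOf tm X p) := by
  unfold codeL numSt
  rw [dif_pos h, List.getElem?_ofFn, dif_pos (Fin.is_lt _)]
  simp

theorem numSt_lt {p : Stm tm × tm.σ} (h : p ∈ sF tm) : numSt tm p < (codeL tm X).length := by
  rw [codeL_length]
  unfold numSt
  rw [dif_pos h]
  exact Fin.is_lt _

def GoodStk (stk : ∀ k, List (tm.Γ k)) : Prop :=
  ∀ k, ∀ a ∈ stk k, (⟨k, a⟩ : Sy tm) ∈ sG tm X

def encCfg (c : TM2.Cfg tm.Γ tm.Λ tm.σ) : UCfg :=
  match c with
  | ⟨some l, v, stk⟩ => (numSt tm (tm.m l, v), encStk tm X stk)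
  | ⟨none, _, stk⟩ => ((sF tm).card, encStk tm X stk)

theorem stepU_eq {I : List Ins} {c : UCfg} {ins : Ins} (h : I[c.1]? = some ins) :
    stepU I c = stepI ins c.2 := by
  unfold stepU
  rw [h]

theorem stepI_nop (stk : ∀ k, List (tm.Γ k)) (n : ℕ) :
    stepI (nK tm, [(nK tm, 0, n)]) (encStk tm X stk) = (n, encStk tm X stk) := by
  unfold stepI
  simp only [encStk_getD_nK, List.tail_nil, encStk_set_nK, List.head?_nil, symIx,
    List.getD_cons_zero]

theorem stepI_push (stk : ∀ k, List (tm.Γ k)) (k : tm.K) (a : tm.Γ k) (n : ℕ) :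
    stepI (nK tm, [(kNum tm k, numSy tm X ⟨k, a⟩, n)]) (encStk tm X stk) =
      (n, encStk tm X (Function.update stk k (a :: stk k))) := by
  unfold stepI
  simp only [encStk_getD_nK, List.tail_nil, encStk_set_nK, List.head?_nil, symIx,
    List.getD_cons_zero, encStk_getD]
  rw [← encStk_set]
  rfl

theorem stepI_pop (stk : ∀ k, List (tm.Γ k)) (hg : GoodStk tm X stk) (k : tm.K)
    (g : Option (tm.Γ k) → ℕ) :
    stepI (kNum tm k, (nK tm, 0, g none) ::
      tbl tm X (fun s => if h : s.1 = k then (nK tm, 0, g (some (h ▸ s.2))) else (0, 0, 0)))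
      (encStk tm X stk) =
      (g (stk k).head?, encStk tm X (Function.update stk k (stk k).tail)) := by
  unfold stepI
  simp only [encStk_getD]
  rcases hs : stk k with _ | ⟨a, l⟩
  · have e : encMap tm X k ([] : List (tm.Γ k)) = [] := rfl
    simp only [e, List.head?_nil, symIx, List.getD_cons_zero, List.tail_nil]
    have h1 : (encStk tm X stk).set (kNum tm k) [] = encStk tm X (Function.update stk k []) :=
      encStk_set tm X stk k []
    rw [h1, encStk_set_nK]
  · have e : (encMap tm X k (a :: l)).head? = some (numSy tm X ⟨k, a⟩) := rfl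
    have e2 : (encMap tm X k (a :: l)).tail = encMap tm X k l := rfl
    have hm : (⟨k, a⟩ : Sy tm) ∈ sG tm X := hg k a (by rw [hs]; exact List.mem_cons_self)
    simp only [e, e2, symIx, List.getD_cons_succ, tbl_getD tm X _ _ hm, dif_pos]
    rw [encStk_set, encStk_set_nK]
    rfl

theorem stepI_peek (stk : ∀ k, List (tm.Γ k)) (hg : GoodStk tm X stk) (k : tm.K)
    (g : Option (tm.Γ k) → ℕ) :
    stepI (kNum tm k, (nK tm, 0, g none) ::
      tbl tm X (fun s => if h : s.1 = k then (kNum tm k, numSy tm X s, g (some (h ▸ s.2)))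
        else (0, 0, 0)))
      (encStk tm X stk) = (g (stk k).head?, encStk tm X stk) := by
  unfold stepI
  simp only [encStk_getD]
  rcases hs : stk k with _ | ⟨a, l⟩
  · have e : encMap tm X k ([] : List (tm.Γ k)) = [] := rfl
    simp only [e, List.head?_nil, symIx, List.getD_cons_zero, List.tail_nil]
    have h1 : (encStk tm X stk).set (kNum tm k) [] = encStk tm X (Function.update stk k []) :=
      encStk_set tm X stk k []
    rw [h1, encStk_set_nK]
    rw [← hs, Function.update_eq_self]
  · have e : (encMap tm X k (a :: l)).head? = some (numSy tm X ⟨k, a⟩) := rfl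
    have e2 : (encMap tm X k (a :: l)).tail = encMap tm X k l := rfl
    have hm : (⟨k, a⟩ : Sy tm) ∈ sG tm X := hg k a (by rw [hs]; exact List.mem_cons_self)
    simp only [e, e2, symIx, List.getD_cons_succ, tbl_getD tm X _ _ hm, dif_pos]
    rw [encStk_set, encStk_getD, Function.update_self]
    have e3 : numSy tm X ⟨k, a⟩ :: encMap tm X k l = encMap tm X k (a :: l) := rfl
    rw [e3, encStk_set, Function.update_idem, ← hs, Function.update_eq_self, hs]
    rfl

theorem GoodStk.update {stk : ∀ k, List (tm.Γ k)} (hg : GoodStk tm X stk) (k : tm.K)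
    (l : List (tm.Γ k)) (hl : ∀ a ∈ l, (⟨k, a⟩ : Sy tm) ∈ sG tm X) :
    GoodStk tm X (Function.update stk k l) := by
  intro k' a ha
  by_cases h : k' = k
  · subst h
    rw [Function.update_self] at ha
    exact hl a ha
  · rw [Function.update_of_ne h] at ha
    exact hg k' a ha

/-- depth of a statement -/
def dep : Stm tm → ℕ
  | .push _ _ q => dep q + 1
  | .peek _ _ q => dep q + 1
  | .pop _ _ q => dep q + 1
  | .load _ q => dep q + 1
  | .branch _ q₁ q₂ => dep q₁ + dep q₂ + 1
  | .goto _ => 1
  | .halt => 1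

theorem sim_stmt (q : Stm tm) : q ∈ sS tm → ∀ (v : tm.σ) (stk : ∀ k, List (tm.Γ k)),
    GoodStk tm X stk → ∃ j, (1 ≤ j ∧ j ≤ dep tm q) ∧ (stepU (codeL tm X))^[j] (numSt tm (q, v), encStk tm X stk) =
      encCfg tm X (TM2.stepAux q v stk) ∧ GoodStk tm X (TM2.stepAux q v stk).stk := by
  induction q with
  | push k f q ih =>
    intro hq v stk hg
    have hq' : q ∈ sS tm := sS_sub tm (by
      rw [TM2.stmts₁]; exact Finset.mem_insert_of_mem TM2.stmts₁_self) hq
    have hsy : (⟨k, f v⟩ : Sy tm) ∈ sG tm X := by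
      refine Finset.mem_union_left _ (Finset.mem_biUnion.2 ⟨_, mem_sF tm v hq, ?_⟩)
      exact Finset.mem_singleton_self _
    obtain ⟨j, hj, h1, h2⟩ := ih hq' v (Function.update stk k (f v :: stk k))
      (hg.update tm X k _ (by
        intro a ha
        rcases List.mem_cons.1 ha with rfl | ha
        · exact hsy
        · exact hg k a ha))
    refine ⟨j + 1, ⟨Nat.le_add_left 1 j, Nat.succ_le_succ hj.2⟩, ?_, h2⟩
    rw [Function.iterate_succ_apply, stepU_eq (codeL_get tm X (mem_sF tm v hq))]
    change (stepU (codeL tm X))^[j] (stepI (nK tm, [(kNum tm k, numSy tm X ⟨k, f v⟩,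
      numSt tm (q, v))]) (encStk tm X stk)) = _
    rw [stepI_push, h1]
    rfl
  | peek k f q ih =>
    intro hq v stk hg
    have hq' : q ∈ sS tm := sS_sub tm (by
      rw [TM2.stmts₁]; exact Finset.mem_insert_of_mem TM2.stmts₁_self) hq
    obtain ⟨j, hj, h1, h2⟩ := ih hq' (f v (stk k).head?) stk hg
    refine ⟨j + 1, ⟨Nat.le_add_left 1 j, Nat.succ_le_succ hj.2⟩, ?_, h2⟩
    rw [Function.iterate_succ_apply, stepU_eq (codeL_get tm X (mem_sF tm v hq))]
    have h3 := stepI_peek tm X stk hg k (fun o => numSt tm (q, f v o))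
    change (stepU (codeL tm X))^[j] (stepI (insOf tm X (.peek k f q, v)) (encStk tm X stk)) = _
    refine Eq.trans ?_ h1
    congr 1
  | pop k f q ih =>
    intro hq v stk hg
    have hq' : q ∈ sS tm := sS_sub tm (by
      rw [TM2.stmts₁]; exact Finset.mem_insert_of_mem TM2.stmts₁_self) hq
    obtain ⟨j, hj, h1, h2⟩ := ih hq' (f v (stk k).head?) (Function.update stk k (stk k).tail)
      (hg.update tm X k _ (fun a ha => hg k a (List.mem_of_mem_tail ha)))
    refine ⟨j + 1, ⟨Nat.le_add_left 1 j, Nat.succ_le_succ hj.2⟩, ?_, h2⟩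
    rw [Function.iterate_succ_apply, stepU_eq (codeL_get tm X (mem_sF tm v hq))]
    have h3 := stepI_pop tm X stk hg k (fun o => numSt tm (q, f v o))
    refine Eq.trans ?_ h1
    congr 1
  | load a q ih =>
    intro hq v stk hg
    have hq' : q ∈ sS tm := sS_sub tm (by
      rw [TM2.stmts₁]; exact Finset.mem_insert_of_mem TM2.stmts₁_self) hq
    obtain ⟨j, hj, h1, h2⟩ := ih hq' (a v) stk hg
    refine ⟨j + 1, ⟨Nat.le_add_left 1 j, Nat.succ_le_succ hj.2⟩, ?_, h2⟩
    rw [Function.iterate_succ_apply, stepU_eq (codeL_get tm X (mem_sF tm v hq))]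
    have h3 := stepI_nop tm X stk (numSt tm (q, a v))
    refine Eq.trans ?_ h1
    congr 1
  | branch c q₁ q₂ ih₁ ih₂ =>
    intro hq v stk hg
    have hq1 : q₁ ∈ sS tm := sS_sub tm (by
      rw [TM2.stmts₁]
      exact Finset.mem_insert_of_mem (Finset.mem_union_left _ TM2.stmts₁_self)) hq
    have hq2 : q₂ ∈ sS tm := sS_sub tm (by
      rw [TM2.stmts₁]
      exact Finset.mem_insert_of_mem (Finset.mem_union_right _ TM2.stmts₁_self)) hq
    have h3 := stepI_nop tm X stk (numSt tm (cond (c v) q₁ q₂, v))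
    cases hc : c v with
    | true =>
      obtain ⟨j, hj, h1, h2⟩ := ih₁ hq1 v stk hg
      rw [hc] at h3
      refine ⟨j + 1, ?_, ?_, ?_⟩
      · refine ⟨Nat.le_add_left 1 j, ?_⟩
        change j + 1 ≤ dep tm q₁ + dep tm q₂ + 1
        omega
      · rw [Function.iterate_succ_apply, stepU_eq (codeL_get tm X (mem_sF tm v hq))]
        have h4 : TM2.stepAux (.branch c q₁ q₂) v stk = TM2.stepAux q₁ v stk := by
          rw [TM2.stepAux, hc]; rfl
        rw [h4]
        refine Eq.trans ?_ h1
        congr 1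
        refine Eq.trans ?_ h3
        change stepI (nK tm, [(nK tm, 0, numSt tm (cond (c v) q₁ q₂, v))]) _ = _
        rw [hc]
      · have h4 : TM2.stepAux (.branch c q₁ q₂) v stk = TM2.stepAux q₁ v stk := by
          rw [TM2.stepAux, hc]; rfl
        rw [h4]; exact h2
    | false =>
      obtain ⟨j, hj, h1, h2⟩ := ih₂ hq2 v stk hg
      rw [hc] at h3
      refine ⟨j + 1, ?_, ?_, ?_⟩
      · refine ⟨Nat.le_add_left 1 j, ?_⟩
        change j + 1 ≤ dep tm q₁ + dep tm q₂ + 1
        omega
      · rw [Function.iterate_succ_apply, stepU_eq (codeL_get tm X (mem_sF tm v hq))]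
        have h4 : TM2.stepAux (.branch c q₁ q₂) v stk = TM2.stepAux q₂ v stk := by
          rw [TM2.stepAux, hc]; rfl
        rw [h4]
        refine Eq.trans ?_ h1
        congr 1
        refine Eq.trans ?_ h3
        change stepI (nK tm, [(nK tm, 0, numSt tm (cond (c v) q₁ q₂, v))]) _ = _
        rw [hc]
      · have h4 : TM2.stepAux (.branch c q₁ q₂) v stk = TM2.stepAux q₂ v stk := by
          rw [TM2.stepAux, hc]; rfl
        rw [h4]; exact h2
  | goto l =>
    intro hq v stk hg
    refine ⟨1, ⟨le_refl _, le_refl _⟩, ?_, hg⟩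
    rw [Function.iterate_one, stepU_eq (codeL_get tm X (mem_sF tm v hq))]
    exact stepI_nop tm X stk (numSt tm (tm.m (l v), v))
  | halt =>
    intro hq v stk hg
    refine ⟨1, ⟨le_refl _, le_refl _⟩, ?_, hg⟩
    rw [Function.iterate_one, stepU_eq (codeL_get tm X (mem_sF tm v hq))]
    exact stepI_nop tm X stk ((sF tm).card)

/-- maximal depth -/
def maxDep : ℕ := Finset.univ.sup (fun l : tm.Λ => dep tm (tm.m l))

theorem stepU_halted (n : ℕ) (c : UCfg) (h : (codeL tm X).length ≤ c.1) :
    (stepU (codeL tm X))^[n] c = c := by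
  induction n with
  | zero => rfl
  | succ n ih =>
    rw [Function.iterate_succ_apply', ih]
    unfold stepU
    rw [List.getElem?_eq_none h]

/-- simulation of complete runs -/
theorem sim_run (n : ℕ) : ∀ (c c' : TM2.Cfg tm.Γ tm.Λ tm.σ), GoodStk tm X c.stk →
    (flip bind (TM2.step tm.m))^[n] (some c) = some c' → c'.l = none →
    GoodStk tm X c'.stk ∧
    ∀ t, maxDep tm * n ≤ t → (stepU (codeL tm X))^[t] (encCfg tm X c) = encCfg tm X c' := by
  induction n with
  | zero =>
    intro c c' hg h hl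
    have h' : c = c' := by simpa using h
    subst h'
    refine ⟨hg, ?_⟩
    intro t _
    obtain ⟨l, v, stk⟩ := c
    cases hl
    exact stepU_halted tm X t _ (by rw [codeL_length]; exact le_refl _)
  | succ n ih =>
    intro c c' hg h hl
    obtain ⟨l, v, stk⟩ := c
    cases l with
    | none =>
      exfalso
      rw [Function.iterate_succ_apply] at h
      have h1 : flip bind (TM2.step tm.m) (some ⟨none, v, stk⟩) = none := rfl
      rw [h1] at h
      have h2 : ∀ m : ℕ, (flip bind (TM2.step tm.m))^[m] none = none := by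
        intro m
        induction m with
        | zero => rfl
        | succ m ihm => rw [Function.iterate_succ_apply']; rw [ihm]; rfl
      rw [h2] at h
      cases h
    | some l =>
      rw [Function.iterate_succ_apply] at h
      have h1 : flip bind (TM2.step tm.m) (some ⟨some l, v, stk⟩) =
        some (TM2.stepAux (tm.m l) v stk) := rfl
      rw [h1] at h
      obtain ⟨j, hj, h2, h3⟩ := sim_stmt tm X (tm.m l) (sS_main tm l) v stk hg
      have h4 : dep tm (tm.m l) ≤ maxDep tm :=
        Finset.le_sup (f := fun l : tm.Λ => dep tm (tm.m l)) (Finset.mem_univ l)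
      obtain ⟨h6, h7⟩ := ih _ _ h3 h hl
      refine ⟨h6, ?_⟩
      intro t ht
      rw [Nat.mul_succ] at ht
      have h5 := h7 (t - j) (by omega)
      rw [show t = (t - j) + j by omega, Function.iterate_add_apply]
      change (stepU (codeL tm X))^[t - j] ((stepU (codeL tm X))^[j]
        (numSt tm (tm.m l, v), encStk tm X stk)) = _
      rw [h2, h5]

theorem encStk_nil : encStk tm X (fun _ => []) = List.replicate (nK tm) [] := by
  apply List.ext_getElem?
  intro n
  rcases lt_or_ge n (nK tm) with h | h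
  · obtain ⟨k', rfl⟩ := exists_kNum tm h
    rw [encStk_get, List.getElem?_replicate, if_pos h]; rfl
  · rw [List.getElem?_eq_none (by rw [encStk_length]; exact h),
      List.getElem?_eq_none (by rw [List.length_replicate]; exact h)]


theorem numSt_lt' {p : Stm tm × tm.σ} (h : p ∈ sF tm) : numSt tm p < (codeL tm X).length := by
  rw [codeL_length]
  unfold numSt
  rw [dif_pos h]
  exact Fin.is_lt _

/-- the code halts no earlier than the machine -/
theorem sim_back (s : ℕ) : ∀ (c : TM2.Cfg tm.Γ tm.Λ tm.σ), GoodStk tm X c.stk →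
    (codeL tm X).length ≤ ((stepU (codeL tm X))^[s] (encCfg tm X c)).1 →
    ∃ n ≤ s, ∃ c', (flip bind (TM2.step tm.m))^[n] (some c) = some c' ∧ c'.l = none := by
  induction s using Nat.strong_induction_on with
  | _ s ih =>
    intro c hg h
    obtain ⟨l, v, stk⟩ := c
    cases l with
    | none => exact ⟨0, Nat.zero_le _, ⟨none, v, stk⟩, rfl, rfl⟩
    | some l =>
      have hs : 1 ≤ s := by
        rcases Nat.eq_zero_or_pos s with h0 | h0
        · subst h0
          exfalso
          have := numSt_lt' tm X (mem_sF tm v (sS_main tm l))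
          simp only [Function.iterate_zero, id] at h
          exact absurd this (not_lt.2 h)
        · exact h0
      obtain ⟨j, hj, h2, h3⟩ := sim_stmt tm X (tm.m l) (sS_main tm l) v stk hg
      have h1 : flip bind (TM2.step tm.m) (some ⟨some l, v, stk⟩) =
        some (TM2.stepAux (tm.m l) v stk) := rfl
      have h2' : (stepU (codeL tm X))^[j] (encCfg tm X ⟨some l, v, stk⟩) =
        encCfg tm X (TM2.stepAux (tm.m l) v stk) := h2
      rcases Nat.lt_or_ge s j with hlt | hge
      · -- halted before the end of the statement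
        have e : (stepU (codeL tm X))^[j] (encCfg tm X ⟨some l, v, stk⟩) =
            (stepU (codeL tm X))^[s] (encCfg tm X ⟨some l, v, stk⟩) := by
          rw [show j = (j - s) + s by omega, Function.iterate_add_apply]
          exact stepU_halted tm X _ _ h
        rw [h2'] at e
        rw [← e] at h
        refine ⟨1, hs, TM2.stepAux (tm.m l) v stk, h1, ?_⟩
        generalize TM2.stepAux (tm.m l) v stk = c1 at *
        obtain ⟨l1, v1, stk1⟩ := c1
        cases l1 with
        | none => rfl
        | some l1 =>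
          exfalso
          have := numSt_lt' tm X (mem_sF tm v1 (sS_main tm l1))
          exact absurd this (not_lt.2 h)
      · have e : (stepU (codeL tm X))^[s] (encCfg tm X ⟨some l, v, stk⟩) =
            (stepU (codeL tm X))^[s - j] (encCfg tm X (TM2.stepAux (tm.m l) v stk)) := by
          rw [← h2', ← Function.iterate_add_apply]
          congr 1
          omega
        rw [e] at h
        obtain ⟨n, hn, c', h4, h5⟩ := ih (s - j) (by omega) _ h3 h
        refine ⟨n + 1, by omega, c', ?_, h5⟩
        rw [Function.iterate_succ_apply, h1, h4]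

end

/-- code of a nondeterministic machine: instructions, start state, number of stacks,
input stack with its symbols for `false`, `true`, guess stack with its symbols -/
abbrev NCode := List Ins × ℕ × ℕ × (ℕ × ℕ × ℕ) × (ℕ × ℕ × ℕ)

def initN (cd : NCode) (w y : List Bool) : UCfg :=
  (cd.2.1, ((List.replicate cd.2.2.1 []).set cd.2.2.2.2.1
    (y.map (fun b => if b then cd.2.2.2.2.2.2 else cd.2.2.2.2.2.1))).set cd.2.2.2.1.1
    (w.map (fun b => if b then cd.2.2.2.1.2.2 else cd.2.2.2.1.2.1)))

/-- the code `cd` has halted after `t` steps on input `w` and guess `y` -/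
def haltN (cd : NCode) (w y : List Bool) (t : ℕ) : Bool :=
  decide (cd.1.length ≤ ((stepU cd.1)^[t] (initN cd w y)).1)

theorem haltN_mono {cd : NCode} {w y : List Bool} {t t' : ℕ} (h : haltN cd w y t = true)
    (ht : t ≤ t') : haltN cd w y t' = true := by
  unfold haltN at *
  rw [decide_eq_true_eq] at *
  obtain ⟨d, rfl⟩ := Nat.exists_eq_add_of_le ht
  rw [Nat.add_comm, Function.iterate_add_apply]
  generalize (stepU cd.1)^[t] (initN cd w y) = c at *
  have : ∀ d : ℕ, (stepU cd.1)^[d] c = c := by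
    intro d
    induction d with
    | zero => rfl
    | succ d ih =>
      rw [Function.iterate_succ_apply', ih]
      unfold stepU
      rw [List.getElem?_eq_none h]
  rw [this]
  exact h

noncomputable section

attribute [local instance] FinTM2.kFin FinTM2.ΛFin FinTM2.σFin FinTM2.Γk₀Fin

/-- the input and guess symbols of a machine -/
def symX (M : NTM) : Finset (Sy M.tm) :=
  {⟨M.tm.k₀, M.inp.symm false⟩, ⟨M.tm.k₀, M.inp.symm true⟩, ⟨M.g, M.gin.symm false⟩,
    ⟨M.g, M.gin.symm true⟩}

/-- the code of a nondeterministic machine -/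
def codeN (M : NTM) : NCode :=
  (codeL M.tm (symX M), numSt M.tm (M.tm.m M.tm.main, M.tm.initialState), nK M.tm,
    (kNum M.tm M.tm.k₀, numSy M.tm (symX M) ⟨M.tm.k₀, M.inp.symm false⟩,
      numSy M.tm (symX M) ⟨M.tm.k₀, M.inp.symm true⟩),
    (kNum M.tm M.g, numSy M.tm (symX M) ⟨M.g, M.gin.symm false⟩,
      numSy M.tm (symX M) ⟨M.g, M.gin.symm true⟩))

theorem good_start (M : NTM) (w y : List Bool) : GoodStk M.tm (symX M) (M.start w y).stk := by
  intro k a ha
  unfold sG
  refine Finset.mem_union_right _ ?_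
  simp only [NTM.start] at ha
  by_cases hk : k = M.tm.k₀
  · subst hk
    rw [Function.update_self] at ha
    obtain ⟨b, _, rfl⟩ := List.mem_map.1 ha
    unfold symX
    cases b <;> simp
  · rw [Function.update_of_ne hk] at ha
    by_cases hk2 : k = M.g
    · subst hk2
      rw [Function.update_self] at ha
      obtain ⟨b, _, rfl⟩ := List.mem_map.1 ha
      unfold symX
      cases b <;> simp
    · rw [Function.update_of_ne hk2] at ha
      simp at ha

theorem initN_codeN (M : NTM) (w y : List Bool) :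
    initN (codeN M) w y = encCfg M.tm (symX M) (M.start w y) := by
  have h4 : encCfg M.tm (symX M) (M.start w y) =
      (numSt M.tm (M.tm.m M.tm.main, M.tm.initialState),
        encStk M.tm (symX M) (M.start w y).stk) := rfl
  have h3 : (M.start w y).stk = Function.update (Function.update (fun _ => []) M.g
    (y.map M.gin.symm)) M.tm.k₀ (w.map M.inp.symm) := rfl
  have e1 : encMap M.tm (symX M) M.g (y.map M.gin.symm) = y.map (fun b => if b then
      numSy M.tm (symX M) ⟨M.g, M.gin.symm true⟩ else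
        numSy M.tm (symX M) ⟨M.g, M.gin.symm false⟩) := by
    unfold encMap
    rw [List.map_map]
    apply List.map_congr_left
    intro b _
    cases b <;> rfl
  have e2 : encMap M.tm (symX M) M.tm.k₀ (w.map M.inp.symm) = w.map (fun b => if b then
      numSy M.tm (symX M) ⟨M.tm.k₀, M.inp.symm true⟩ else
        numSy M.tm (symX M) ⟨M.tm.k₀, M.inp.symm false⟩) := by
    unfold encMap
    rw [List.map_map]
    apply List.map_congr_left
    intro b _
    cases b <;> rfl
  rw [h4, h3, ← encStk_set, ← encStk_set, encStk_nil, e1, e2]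
  rfl

theorem haltN_of_haltsAt {M : NTM} {w y : List Bool} {n : ℕ} (h : M.HaltsAt w y n) {t : ℕ}
    (ht : maxDep M.tm * n ≤ t) : haltN (codeN M) w y t = true := by
  obtain ⟨c, h1, h2⟩ := h
  obtain ⟨_, h3⟩ := sim_run M.tm (symX M) n (M.start w y) c (good_start M w y) h1 h2
  unfold haltN
  rw [decide_eq_true_eq, initN_codeN]
  have h4 : (codeN M).1 = codeL M.tm (symX M) := rfl
  rw [h4, h3 t ht, codeL_length]
  obtain ⟨l, v, stk⟩ := c
  cases h2
  exact le_refl _

theorem haltsAt_of_haltN {M : NTM} {w y : List Bool} {t : ℕ}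
    (h : haltN (codeN M) w y t = true) : ∃ n ≤ t, M.HaltsAt w y n := by
  unfold haltN at h
  rw [decide_eq_true_eq, initN_codeN] at h
  obtain ⟨n, hn, c, h1, h2⟩ := sim_back M.tm (symX M) t (M.start w y) (good_start M w y) h
  exact ⟨n, hn, c, h1, h2⟩

/-- acceptance of a code -/
def AccC (cd : NCode) (w : List Bool) (s : ℕ) : Prop :=
  ∃ y : List Bool, y.length ≤ s ∧ haltN cd w y s = true

theorem AccC.mono {cd : NCode} {w : List Bool} {s s' : ℕ} (h : AccC cd w s) (hs : s ≤ s') :
    AccC cd w s' := by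
  obtain ⟨y, h1, h2⟩ := h
  exact ⟨y, h1.trans hs, haltN_mono h2 hs⟩

theorem AccIn.mono {M : NTM} {w : List Bool} {s s' : ℕ} (h : M.AccIn w s) (hs : s ≤ s') :
    M.AccIn w s' := by
  obtain ⟨y, n, h1, h2⟩ := h
  exact ⟨y, n, h1.trans hs, h2⟩

/-- every machine has a code accepting the same words with linear overhead -/
theorem exists_code (M : NTM) : ∃ (cd : NCode) (D : ℕ), 1 ≤ D ∧
    (∀ w s, M.AccIn w s → AccC cd w (D * s)) ∧
    (∀ w s, AccC cd w s → M.AccIn w (2 * s)) := by
  refine ⟨codeN M, maxDep M.tm + 1, by omega, ?_, ?_⟩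
  · rintro w s ⟨y, n, h1, h2⟩
    have h3 : (maxDep M.tm + 1) * (y.length + n) ≤ (maxDep M.tm + 1) * s :=
      Nat.mul_le_mul_left _ h1
    refine ⟨y, ?_, haltN_of_haltsAt h2 ?_⟩
    · nlinarith
    · nlinarith [Nat.zero_le (maxDep M.tm * y.length)]
  · rintro w s ⟨y, h1, h2⟩
    obtain ⟨n, hn, h3⟩ := haltsAt_of_haltN h2
    exact ⟨y, n, by omega, h3⟩

end

end Pool.Agent.W2helper61.NT
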