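import Pool.Agent.W2helper61.NT.Enum

/-!
Towers of powers of two, an honest base function above any computable function, and capped
evaluation; deterministic acceptance implies nondeterministic acceptance.
-/

set_option autoImplicit false

namespace Pool.Agent.W2helper61.NT

open Turing Pool.Agent.H583R2

/-! ### towers -/

/-- `k` iterations of `y ↦ 2 ^ y` from `x` -/
def tow (k x : ℕ) : ℕ := (fun y => 2 ^ y)^[k] x

theorem tow_zero (x : ℕ) : tow 0 x = x := rfl

theorem tow_succ (k x : ℕ) : tow (k + 1) x = 2 ^ tow k x := by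
  unfold tow; rw [Function.iterate_succ_apply']

theorem tow_add (a b x : ℕ) : tow (a + b) x = tow a (tow b x) := by
  unfold tow; rw [Function.iterate_add_apply]

theorem tow_lt (k x : ℕ) : tow k x < tow (k + 1) x := by
  rw [tow_succ]; exact Nat.lt_two_pow_self

theorem tow_mono {k l : ℕ} (h : k ≤ l) (x : ℕ) : tow k x ≤ tow l x :=
  (monotone_nat_of_le_succ (f := fun k => tow k x) (fun k => (tow_lt k x).le)) h

theorem tow_mono_right (k : ℕ) {x y : ℕ} (h : x ≤ y) : tow k x ≤ tow k y := by
  induction k with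
  | zero => exact h
  | succ k ih => rw [tow_succ, tow_succ]; exact Nat.pow_le_pow_right (by norm_num) ih

theorem add_le_tow (k x : ℕ) : k + x ≤ tow k x := by
  induction k with
  | zero => simp [tow_zero]
  | succ k ih => have := tow_lt k x; omega

/-- capped towers -/
def capTow (k x N : ℕ) : ℕ := (fun y => min (2 ^ y) N)^[k] (min x N)

theorem capTow_eq (k x N : ℕ) : capTow k x N = min (tow k x) N := by
  induction k with
  | zero => rfl
  | succ k ih =>
    unfold capTow at *
    rw [Function.iterate_succ_apply', ih, min_exp_min, tow_succ]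

theorem capTow_min (k x N : ℕ) : capTow k (min x N) N = min (tow k x) N := by
  rw [← capTow_eq]
  unfold capTow
  rw [min_assoc, min_self]

theorem min_tow_min (k x N : ℕ) : min (tow (min k N) x) N = min (tow k x) N := by
  rcases le_total k N with h | h
  · rw [min_eq_left h]
  · rw [min_eq_right h]
    have h1 := add_le_tow N x
    have h2 := add_le_tow k x
    rw [min_eq_right (by omega), min_eq_right (by omega)]

section
variable {α : Type} [TEnc α]

theorem pf_capTow {k x N : α → ℕ} (hk : PF k) (hx : PF x) (hN : PF N) :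
    PF (fun a => capTow (k a) (x a) (N a)) := by
  refine PF.iterate (n := k) (s := fun a => min (x a) (N a))
    (f := fun a y => min (2 ^ y) (N a)) (b := fun a => 2 * N a + 1) hk (PF.min hx hN)
    (pf_cexp PF.snd (hN.comp PF.fst)) ?_ ?_
  · exact ((PB.const 2).mul (pb_of_sz hN.size)).add (PB.const 1)
  · intro a j _
    rw [sz_nat]
    have : (fun y => min (2 ^ y) (N a))^[j] (min (x a) (N a)) ≤ N a := by
      cases j with
      | zero => exact min_le_right _ _
      | succ j => rw [Function.iterate_succ_apply']; exact min_le_right _ _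
    omega

end

/-! ### the base function -/

section base
variable (c : Code) (hT : ∀ n, ∃ s, (U c (una n) s).isSome = true)

/-- halting time of the code `c` on `1^n` -/
def Th (n : ℕ) : ℕ := Nat.find (hT n)

def ThC (n N : ℕ) : ℕ := ((List.range N).find? (fun s => (U c (una n) s).isSome)).getD N

/-- first element of an initial segment of `ℕ` with a property -/
theorem find_range (p : ℕ → Bool) (hex : ∃ s, p s = true) (N : ℕ) :
    (List.range N).find? p = if Nat.find hex < N then some (Nat.find hex) else none := by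
  split
  · rename_i h
    rw [List.find?_range_eq_some]
    exact ⟨Nat.find_spec hex, List.mem_range.2 h, fun j hj => by
      have := Nat.find_min hex hj
      simpa using this⟩
  · rename_i h
    rw [List.find?_eq_none]
    intro s hs
    rw [List.mem_range] at hs
    exact Nat.find_min hex (by omega)

theorem ThC_eq (n N : ℕ) : ThC c n N = min (Th c hT n) N := by
  unfold ThC Th
  rw [find_range _ (hT n)]
  split
  · rename_i h; simp [h.le]
  · rename_i h; simp [not_lt.1 h]

/-- the base function -/
def Hb : ℕ → ℕ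
  | 0 => Th c hT 0
  | n + 1 => max (tow (2 ^ (4 * n + 10)) (Hb n)) (Th c hT (n + 1)) + (n + 1)

def stepH (N v i : ℕ) : ℕ :=
  min (max (capTow (min (2 ^ (4 * i + 10)) N) v N) (ThC c (i + 1) N) + (i + 1)) N

def HbC (n N : ℕ) : ℕ := (List.range n).foldl (stepH c N) (ThC c 0 N)

theorem stepH_le (N v i : ℕ) : stepH c N v i ≤ N := min_le_right _ _

theorem foldl_stepH_le (N : ℕ) (l : List ℕ) : ∀ v ≤ N, l.foldl (stepH c N) v ≤ N := by
  induction l with
  | nil => intro v hv; exact hv
  | cons i l ih => intro v _; exact ih _ (stepH_le c N v i)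

theorem HbC_eq (n N : ℕ) : HbC c n N = min (Hb c hT n) N := by
  induction n with
  | zero => exact ThC_eq c hT 0 N
  | succ n ih =>
    unfold HbC at *
    rw [List.range_succ, List.foldl_append, ih, List.foldl_cons, List.foldl_nil]
    unfold stepH
    rw [capTow_min, min_tow_min, ThC_eq c hT, Hb]
    generalize tow (2 ^ (4 * n + 10)) (Hb c hT n) = a
    omega

end base

/-- what the constructions need of a base function -/
structure BaseFn (H : ℕ → ℕ) : Prop where
  cap : PF (fun p : ℕ × ℕ => min (H p.1) p.2)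
  grow : ∀ n, tow (2 ^ (4 * n + 10)) (H n) < H (n + 1)

theorem BaseFn.lt_succ {H : ℕ → ℕ} (h : BaseFn H) (n : ℕ) : H n < H (n + 1) := by
  exact lt_of_le_of_lt ((Nat.le_add_left _ _).trans (add_le_tow (2 ^ (4 * n + 10)) (H n)))
    (h.grow n)

theorem BaseFn.mono {H : ℕ → ℕ} (h : BaseFn H) : StrictMono H := strictMono_nat_of_lt_succ h.lt_succ

theorem BaseFn.le {H : ℕ → ℕ} (h : BaseFn H) (n : ℕ) : n ≤ H n := h.mono.id_le n

/-- above every computable function there is a base function -/
theorem pf_ThC (c : Code) {α : Type} [TEnc α] {n N : α → ℕ} (hn : PF n) (hN : PF N) :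
    PF (fun a => ThC c (n a) (N a)) := by
  refine PF.getD (PF.find (l := fun a => List.range (N a))
    (f := fun a s => (U c (una (n a)) s).isSome) (PF.range hN) ?_) hN
  exact PF.isSome (PF.U.comp (PF.pair (PF.const c) (PF.pair (pf_una (hn.comp PF.fst)) PF.snd)))

theorem pf_stepH (c : Code) {α : Type} [TEnc α] {v i N : α → ℕ} (hv : PF v) (hi : PF i)
    (hN : PF N) : PF (fun a => stepH c (N a) (v a) (i a)) := by
  have h1 : PF (fun a => 4 * i a + 10) := PF.add (PF.mul (PF.const 4) hi) (PF.const 10)
  have h2 : PF (fun a => min (2 ^ (4 * i a + 10)) (N a)) := pf_cexp h1 hN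
  have h3 : PF (fun a => capTow (min (2 ^ (4 * i a + 10)) (N a)) (v a) (N a)) :=
    pf_capTow h2 hv hN
  have h4 : PF (fun a => ThC c (i a + 1) (N a)) := pf_ThC c (PF.succ hi) hN
  exact PF.min (PF.add (pf_max h3 h4) (PF.succ hi)) hN

theorem pf_HbC (c : Code) (hT : ∀ n, ∃ s, (U c (una n) s).isSome = true) :
    PF (fun p : ℕ × ℕ => HbC c p.1 p.2) := by
  have hb : PB (fun p : ℕ × ℕ => 2 * p.2 + 1) :=
    ((PB.const 2).mul (pb_of_sz (PF.size PF.snd))).add (PB.const 1)
  refine PF.foldl (l := fun p : ℕ × ℕ => List.range p.1) (s := fun p => ThC c 0 p.2)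
    (f := fun p => stepH c p.2) (b := fun p => 2 * p.2 + 1)
    (PF.range PF.fst) (pf_ThC c (PF.const 0) PF.snd) ?_ hb ?_
  · exact pf_stepH c (PF.fst' PF.snd) (PF.snd' PF.snd) (PF.snd' PF.fst)
  · intro p j _
    rw [sz_nat]
    have h0 : ThC c 0 p.2 ≤ p.2 := by rw [ThC_eq c hT]; exact min_le_right _ _
    have := foldl_stepH_le c p.2 ((List.range p.1).take j) _ h0
    omega

theorem exists_base {h : ℕ → ℕ} (hh : TMComputable h) :
    ∃ H : ℕ → ℕ, BaseFn H ∧ ∀ n, h n ≤ H n := by
  obtain ⟨M⟩ := hh
  obtain ⟨c, T, hcT⟩ := code_of_tm' M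
  have hT : ∀ n, ∃ s, (U c (una n) s).isSome = true := fun n =>
    ⟨T n, by rw [hcT n _ le_rfl]; rfl⟩
  refine ⟨Hb c hT, ⟨?_, ?_⟩, ?_⟩
  · exact (pf_HbC c hT).congr (fun p => HbC_eq c hT p.1 p.2)
  · intro n
    rw [Hb]
    have := le_max_left (tow (2 ^ (4 * n + 10)) (Hb c hT n)) (Th c hT (n + 1))
    omega
  · intro n
    have h1 : h n ≤ Th c hT n + n := by
      have h2 : (U c (una n) (Th c hT n)).isSome = true := Nat.find_spec (hT n)
      obtain ⟨z, hz⟩ := Option.isSome_iff_exists.1 h2
      have h3 := U_mono hz (le_max_left _ (T n))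
      rw [hcT n _ (le_max_right _ _)] at h3
      have h4 := U_length_le c (una n) (Th c hT n)
      rw [hz, Option.getD_some, ← Option.some.inj h3, map_una, map_una] at h4
      omega
    refine h1.trans ?_
    cases n with
    | zero => rw [Hb]; omega
    | succ n =>
      rw [Hb]
      have := le_max_right (tow (2 ^ (4 * n + 10)) (Hb c hT n)) (Th c hT (n + 1))
      omega

/-- a function with polynomial-time capped evaluation is computable -/
theorem cb_of_cap {f : ℕ → ℕ} (hf : PF (fun p : ℕ × ℕ => min (f p.1) p.2)) : Cb f := by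
  have h1 : PF (fun p : ℕ × ℕ => decide (min (f p.1) (p.2 + 1) ≤ p.2)) :=
    PF.le (hf.comp (PF.pair PF.fst (PF.succ PF.snd))) PF.snd
  refine Cb.find (PF.cb h1) f ?_ ?_
  · intro a i hi
    rw [decide_eq_false_iff_not]
    simp only
    omega
  · intro a
    rw [decide_eq_true_eq]
    simp only
    omega

/-! ### deterministic machines are nondeterministic machines -/

noncomputable section

open Classical

attribute [local instance] FinTM2.kFin FinTM2.ΛFin FinTM2.σFin FinTM2.Γk₀Fin

/-- the input symbols of a deterministic machine -/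
def symD (M : DTM) : Finset (Sy M.tm) :=
  {⟨M.tm.k₀, M.inp.symm false⟩, ⟨M.tm.k₀, M.inp.symm true⟩}

/-- the code of a deterministic machine; the guess stack is missing -/
def codeD (M : DTM) : NCode :=
  (codeL M.tm (symD M), numSt M.tm (M.tm.m M.tm.main, M.tm.initialState), nK M.tm,
    (kNum M.tm M.tm.k₀, numSy M.tm (symD M) ⟨M.tm.k₀, M.inp.symm false⟩,
      numSy M.tm (symD M) ⟨M.tm.k₀, M.inp.symm true⟩), (nK M.tm, 0, 0))

theorem good_startD (M : DTM) (w : List Bool) : GoodStk M.tm (symD M) (M.start w).stk := by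
  intro k a ha
  unfold sG
  refine Finset.mem_union_right _ ?_
  simp only [DTM.start] at ha
  by_cases hk : k = M.tm.k₀
  · subst hk
    rw [Function.update_self] at ha
    obtain ⟨b, _, rfl⟩ := List.mem_map.1 ha
    unfold symD
    cases b <;> simp
  · rw [Function.update_of_ne hk] at ha
    simp at ha

theorem initN_codeD (M : DTM) (w y : List Bool) :
    initN (codeD M) w y = encCfg M.tm (symD M) (M.start w) := by
  have h4 : encCfg M.tm (symD M) (M.start w) =
      (numSt M.tm (M.tm.m M.tm.main, M.tm.initialState),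
        encStk M.tm (symD M) (M.start w).stk) := rfl
  have h3 : (M.start w).stk = Function.update (fun _ => []) M.tm.k₀ (w.map M.inp.symm) := rfl
  have e2 : encMap M.tm (symD M) M.tm.k₀ (w.map M.inp.symm) = w.map (fun b => if b then
      numSy M.tm (symD M) ⟨M.tm.k₀, M.inp.symm true⟩ else
        numSy M.tm (symD M) ⟨M.tm.k₀, M.inp.symm false⟩) := by
    unfold encMap
    rw [List.map_map]
    apply List.map_congr_left
    intro b _
    cases b <;> rfl
  rw [h4, h3, ← encStk_set, encStk_nil, e2]
  have e5 : (List.replicate (nK M.tm) ([] : List ℕ)).set (nK M.tm)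
      (y.map (fun b => if b then 0 else 0)) = List.replicate (nK M.tm) [] :=
    List.set_eq_of_length_le (by rw [List.length_replicate])
  unfold initN codeD
  simp only
  rw [e5]

theorem exists_codeD (M : DTM) : ∃ (cd : NCode) (D : ℕ),
    (∀ w s, M.AccIn w s → haltN cd w [] (D * s) = true) ∧
    (∀ w s, haltN cd w [] s = true → M.AccIn w s) := by
  refine ⟨codeD M, maxDep M.tm, ?_, ?_⟩
  · rintro w s ⟨n, hn, c, h1, h2⟩
    obtain ⟨_, h3⟩ := sim_run M.tm (symD M) n (M.start w) c (good_startD M w) h1 h2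
    unfold haltN
    rw [decide_eq_true_eq, initN_codeD]
    have h4 : (codeD M).1 = codeL M.tm (symD M) := rfl
    rw [h4, h3 _ (Nat.mul_le_mul_left _ hn), codeL_length]
    obtain ⟨l, v, stk⟩ := c
    cases h2
    exact le_refl _
  · intro w s h
    unfold haltN at h
    rw [decide_eq_true_eq, initN_codeD] at h
    obtain ⟨n, hn, c, h1, h2⟩ := sim_back M.tm (symD M) s (M.start w) (good_startD M w) h
    exact ⟨n, hn, c, h1, h2⟩

end

theorem DTM.AccIn.mono' {M : DTM} {w : List Bool} {s s' : ℕ} (h : M.AccIn w s) (hs : s ≤ s') :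
    M.AccIn w s' := by
  obtain ⟨n, hn, h1⟩ := h
  exact ⟨n, hn.trans hs, h1⟩

theorem dtime_sub_ntime {t : ℕ → ℕ} (ht : ∀ n, n ≤ t n) : DTIME t ⊆ NTIME t := by
  rintro L ⟨M, p, h1, h2⟩
  obtain ⟨cd, D, h3, h4⟩ := exists_codeD M
  have hf : PF (fun q : List Bool × List Bool × ℕ => haltN cd q.1 [] q.2.2) :=
    pf_haltN (PF.const cd) PF.fst (PF.const []) (PF.snd' PF.snd)
  obtain ⟨M', c, h5, h6⟩ := guess_machine hf
  refine ⟨M', (Polynomial.X + Polynomial.C D * p + 2) ^ c, ?_, ?_⟩
  · intro w
    rw [h1]
    constructor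
    · rintro ⟨s, hs⟩
      obtain ⟨n, hn, h7⟩ := h6 w [] (D * s) (h3 w s hs)
      exact ⟨n, [], n, by simp, h7⟩
    · rintro ⟨s, y, n, _, h⟩
      obtain ⟨m, _, h8⟩ := h5 w y n h
      exact ⟨m, h4 w m h8⟩
  · intro w hw
    obtain ⟨n, hn, h7⟩ := h6 w [] (D * p.eval (t w.length)) (h3 w _ (h2 w hw))
    refine ⟨[], n, ?_, h7⟩
    simp only [List.length_nil, Nat.zero_add, Polynomial.eval_pow, Polynomial.eval_add,
      Polynomial.eval_X, Polynomial.eval_mul, Polynomial.eval_C, Polynomial.eval_ofNat]
    refine hn.trans (Nat.pow_le_pow_left ?_ _)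
    have := ht w.length
    omega

end Pool.Agent.W2helper61.NT
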