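import Pool.Agent.W2helper61.NT.Loc

/-!
The time bounds `t_x`: `NTIME(Pol t_x)` is closed under complementation if and only if every
column of `x` is finite.
-/

set_option autoImplicit false

namespace Pool.Agent.W2helper61.NT

open Turing Pool.Agent.H583R2

section
variable {H : ℕ → ℕ}

/-- a language of `NTIME(Pol tu)` and its complement are in `DTIME(Pol t)` for every `t` that
is eventually above every level -/
theorem both_dtime' (hH : BaseFn H) {t : ℕ → ℕ} (hid : ∀ n, n ≤ t n)
    (hlev : ∀ r, ∃ N, ∀ n, N ≤ n → lv H (2 * r + 3) n ≤ t n)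
    {L : Set (List Bool)} (hL : L ∈ NTIME (tu H)) (b : Bool) :
    {w : List Bool | w ∈ L ↔ b = true} ∈ DTIME t := by
  classical
  obtain ⟨M, p, hM1, hM2⟩ := hL
  obtain ⟨cd, D, hD, hc1, hc2⟩ := exists_code M
  obtain ⟨c, hc⟩ := poly_le_pow p
  obtain ⟨c', hc'⟩ := poly_norm D c
  obtain ⟨n1, hn1⟩ := poly_lt_exp 1 c'
  obtain ⟨r, hr, hrm⟩ := exists_mN cd n1
  -- acceptance times are below `2 ^ t` for long words
  have hbound : ∀ n, r ≤ n → D * p.eval (tu H n) ≤ 2 ^ tu H n := by
    intro n hn
    have h6 : n ≤ tu H n := (hH.le _).trans (tu_ge _)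
    have h7 := hn1 (tu H n) (by omega)
    have h8 := hc' (tu H n)
    have h9 : D * p.eval (tu H n) ≤ D * (tu H n + 2) ^ c := Nat.mul_le_mul_left _ (hc _)
    omega
  have hnever : ∀ n, act H (Kl H n) n ≠ some r := by
    intro n h
    obtain ⟨h1, _, w, hw, h2, h3⟩ := act_some h
    rw [hrm] at h2 h3
    have h4 : w ∈ L := (hM1 w).2 ⟨_, hc2 _ _ h2⟩
    have h5 := hc1 _ _ (hM2 w h4)
    rw [hw] at h5
    apply h3
    refine h5.mono ((hbound n h1).trans ?_)
    unfold tu
    rw [h, Option.getD_some]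
    unfold lv
    rw [← tow_succ]
  obtain ⟨Nq, hNq⟩ := quiet (H := H) r
  obtain ⟨Nl, hNl⟩ := hlev r
  set N := max Nq Nl with hNdef
  have hN : ∀ n, N ≤ n → ∀ r' ≤ r, act H (Kl H n) n ≠ some r' := fun n hn =>
    hNq n ((le_max_left _ _).trans hn)
  set N0 := max N r with hN0
  have hdec : ∀ w : List Bool, N0 ≤ w.length →
      (w ∈ L ↔ AccC cd w (lv H (2 * r + 2) w.length)) := by
    intro w hw
    constructor
    · intro h
      have h1 : N ≤ w.length := (le_max_left _ _).trans hw
      have h2 : r ≤ w.length := (le_max_right _ _).trans hw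
      have h3 := hc1 _ _ (hM2 w h)
      have h4 : AccC cd w (lv H (2 * w.length + 4) w.length) := by
        refine h3.mono ((hbound _ h2).trans ?_)
        refine (Nat.pow_le_pow_right (by norm_num) (tu_le _)).trans ?_
        unfold lv
        rw [← tow_succ]
      by_contra h5
      refine no_viol hN hnever h1 h2 ⟨w, rfl, ?_, ?_⟩
      · rw [hrm]; exact h4
      · rw [hrm]; exact h5
    · intro h
      exact (hM1 w).2 ⟨_, hc2 _ _ h⟩
  -- the table of short words
  set tb : List (List Bool) := ((List.range (2 ^ (N0 + 1))).map str).filter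
    (fun w => decide (w ∈ L ↔ b = true)) with htb
  have htb1 : ∀ w : List Bool, w.length < N0 → (w ∈ tb ↔ (w ∈ L ↔ b = true)) := by
    intro w hw
    rw [htb, List.mem_filter, decide_eq_true_eq]
    constructor
    · exact fun h => h.2
    · intro h
      refine ⟨List.mem_map.2 ⟨idx w, List.mem_range.2 (idx_lt_of_length hw.le), str_idx w⟩, h⟩
  let f : List Bool × ℕ → Bool := fun q =>
    if decide (q.1.length < N0) then tb.any (fun x => x == q.1)
    else decide (min (2 ^ (lvC H (2 * r + 2) q.1.length q.2 + 1)) (q.2 + 1) ≤ q.2) &&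
      (brute cd q.1 (lvC H (2 * r + 2) q.1.length q.2) q.2 == b)
  have hf : PF f := by
    have hl : PF (fun q : List Bool × ℕ => lvC H (2 * r + 2) q.1.length q.2) :=
      pf_lvC hH (PF.const _) (PF.length PF.fst) PF.snd
    refine PF.ite (PF.lt (PF.length PF.fst) (PF.const N0)) ?_ ?_
    · exact PF.any (f := fun (q : List Bool × ℕ) x => x == q.1) (PF.const tb)
        (PF.beqStr PF.snd (PF.fst' PF.fst))
    · exact PF.and (PF.le (pf_cexp (PF.succ hl) (PF.succ PF.snd)) PF.snd)
        (PF.beqBool (pf_brute (PF.const cd) PF.fst hl PF.snd) (PF.const b))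
  have hbb : ∀ (w : List Bool) (m : ℕ), 2 ^ (lv H (2 * r + 2) w.length + 1) ≤ m →
      N0 ≤ w.length → ((brute cd w (lv H (2 * r + 2) w.length) m == b) = true ↔
        (w ∈ L ↔ b = true)) := by
    intro w m hm hw
    have h1 := brute_iff (cd := cd) (w := w) hm
    rw [hdec w hw, ← h1, beq_iff_eq, Bool.eq_iff_iff]
  have hf1 : ∀ w m, f (w, m) = true → (w ∈ L ↔ b = true) := by
    intro w m h
    simp only [f] at h
    by_cases hw : w.length < N0
    · rw [if_pos (by simpa using hw), List.any_eq_true] at h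
      obtain ⟨x, hx, he⟩ := h
      rw [beq_iff_eq] at he
      subst he
      exact (htb1 x hw).1 hx
    · rw [if_neg (by simpa using hw), Bool.and_eq_true, decide_eq_true_eq, lvC_eq] at h
      obtain ⟨h1, h2⟩ := h
      have h3 : 2 ^ (min (lv H (2 * r + 2) w.length) m + 1) ≤ m := by omega
      have h4 := Nat.lt_two_pow_self (n := min (lv H (2 * r + 2) w.length) m + 1)
      have h5 : min (lv H (2 * r + 2) w.length) m = lv H (2 * r + 2) w.length := by omega
      rw [h5] at h2 h3
      exact (hbb w m h3 (not_lt.1 hw)).1 h2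
  have hf2 : ∀ w, (w ∈ L ↔ b = true) → w.length < N0 → f (w, 0) = true := by
    intro w hw hlt
    simp only [f]
    rw [if_pos (by simpa using hlt), List.any_eq_true]
    exact ⟨w, (htb1 w hlt).2 hw, by simp⟩
  have hf3 : ∀ w, (w ∈ L ↔ b = true) → N0 ≤ w.length →
      f (w, 2 ^ (lv H (2 * r + 2) w.length + 1)) = true := by
    intro w hw hge
    simp only [f]
    have h4 := Nat.lt_two_pow_self (n := lv H (2 * r + 2) w.length + 1)
    rw [if_neg (by simpa using hge), lvC_eq, min_eq_left (a := lv H (2 * r + 2) w.length)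
      (by omega), Bool.and_eq_true, decide_eq_true_eq]
    exact ⟨by omega, (hbb w _ le_rfl hge).2 hw⟩
  obtain ⟨M', e, h1, h2⟩ := search_machine hf
  refine ⟨M', (Polynomial.X + 2 * Polynomial.X + 2) ^ e, ?_, ?_⟩
  · intro w
    rw [Set.mem_ofPred_eq]
    constructor
    · intro hw
      rcases Nat.lt_or_ge w.length N0 with h | h
      · exact ⟨_, h2 w _ (hf2 w hw h)⟩
      · exact ⟨_, h2 w _ (hf3 w hw h)⟩
    · rintro ⟨s, hs⟩
      obtain ⟨m, _, hm⟩ := h1 w s hs
      exact hf1 w m hm
  · intro w hw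
    rw [Set.mem_ofPred_eq] at hw
    simp only [Polynomial.eval_add, Polynomial.eval_pow, Polynomial.eval_X,
      Polynomial.eval_mul, Polynomial.eval_ofNat]
    have h6 : w.length ≤ t w.length := hid _
    rcases Nat.lt_or_ge w.length N0 with h | h
    · exact (h2 w _ (hf2 w hw h)).mono' (Nat.pow_le_pow_left (by omega) _)
    · refine (h2 w _ (hf3 w hw h)).mono' (Nat.pow_le_pow_left ?_ _)
      have h7 : 2 ^ lv H (2 * r + 2) w.length ≤ t w.length := by
        refine le_trans ?_ (hNl _ (((le_max_right Nq Nl).trans (le_max_left _ _)).trans h))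
        unfold lv
        rw [← tow_succ]
      rw [pow_succ]
      omega

end

section
variable (H : ℕ → ℕ) (c : Code)

/-- the index of the acting code at `n`, `n + 1` if there is none -/
noncomputable def ell (n : ℕ) : ℕ := (act H (Kl H n) n).getD (n + 1)

open Classical in
/-- the time bound of `x` -/
noncomputable def tx (x n : ℕ) : ℕ :=
  match loc c x n with
  | none => tu H n
  | some (k, e) =>
    if k + 1 ≤ ell H n then
      (if AccC (mN e) (una n) (lv H (2 * k + 2) n) then lv H (2 * k + 3) n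
        else lv H (2 * k + 1) n)
    else tu H n

variable {H} {c}

theorem tu_eq (n : ℕ) : tu H n = lv H (2 * ell H n + 1) n := rfl

theorem tx_le_tu (x n : ℕ) : tx H c x n ≤ tu H n := by
  unfold tx
  rcases loc c x n with _ | ⟨k, e⟩
  · exact le_rfl
  · simp only
    split
    · rename_i h
      rw [tu_eq]
      split
      · exact lv_mono (by omega) n
      · exact lv_mono (by omega) n
    · exact le_rfl

theorem H_le_tx (x n : ℕ) : H n ≤ tx H c x n := by
  have h0 : ∀ j, H n ≤ lv H j n := fun j => tow_mono (Nat.zero_le _) (H n)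
  unfold tx
  rcases loc c x n with _ | ⟨k, e⟩
  · exact tu_ge n
  · simp only
    split
    · split
      · exact h0 _
      · exact h0 _
    · exact tu_ge n

theorem id_le_tx (hH : BaseFn H) (x n : ℕ) : n ≤ tx H c x n := (hH.le n).trans (H_le_tx x n)

theorem tx_mono (hH : BaseFn H) (x : ℕ) : Monotone (tx H c x) := by
  apply monotone_nat_of_le_succ
  intro n
  refine (tx_le_tu x n).trans ((tu_le n).trans (le_trans ?_ (H_le_tx x (n + 1))))
  refine le_trans (tow_mono ?_ (H n)) (hH.grow n).le
  have := width2 n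
  omega

theorem ell_ge {k N : ℕ} (hN : ∀ n, N ≤ n → ∀ r' ≤ k, act H (Kl H n) n ≠ some r') {n : ℕ}
    (h1 : N ≤ n) (h2 : k ≤ n) : k + 1 ≤ ell H n := by
  unfold ell
  rcases h : act H (Kl H n) n with _ | r'
  · simp only [Option.getD_none]; omega
  · have : k < r' := by
      by_contra hle
      exact hN n h1 r' (by omega) h
    simp only [Option.getD_some]
    omega

/-- if the columns are finite, the bound is eventually above every level -/
theorem tx_high {x : ℕ} (hfin : ∀ k, ∃ N, ∀ n, N ≤ n → ∀ e, loc c x n ≠ some (k, e)) (r : ℕ) :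
    ∃ N, ∀ n, N ≤ n → lv H (2 * r + 3) n ≤ tx H c x n := by
  obtain ⟨N, hN⟩ := quiet (H := H) r
  have h1 : ∃ N', ∀ n, N' ≤ n → ∀ k ≤ r, ∀ e, loc c x n ≠ some (k, e) := by
    choose F hF using hfin
    refine ⟨(Finset.range (r + 1)).sup F, ?_⟩
    intro n hn k hk e
    exact hF k n ((Finset.le_sup (Finset.mem_range.2 (by omega))).trans hn) e
  obtain ⟨N', hN'⟩ := h1
  refine ⟨max (max N r) N', ?_⟩
  intro n hn
  have h2 : lv H (2 * r + 3) n ≤ tu H n := tu_high hN
    (((le_max_left _ _).trans (le_max_left _ _)).trans hn)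
    (((le_max_right _ _).trans (le_max_left _ _)).trans hn)
  unfold tx
  rcases h : loc c x n with _ | ⟨k, e⟩
  · exact h2
  · have h3 : r < k := by
      by_contra hle
      exact hN' n ((le_max_right _ _).trans hn) k (by omega) e h
    simp only
    split
    · split
      · exact lv_mono (by omega) n
      · exact lv_mono (by omega) n
    · exact h2

theorem ntime_mono {t t' : ℕ → ℕ} (h : ∀ n, t n ≤ t' n) : NTIME t ⊆ NTIME t' := by
  rintro L ⟨M, p, h1, h2⟩
  refine ⟨M, p, h1, fun w hw => AccIn.mono (h2 w hw) ?_⟩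
  have : Monotone (fun n : ℕ => p.eval n) := by
    intro a b hab
    simp only [Polynomial.eval_eq_sum_range]
    exact Finset.sum_le_sum fun i _ => Nat.mul_le_mul_left _ (Nat.pow_le_pow_left hab _)
  exact this (h _)

/-- all columns finite: closure -/
theorem tx_closed (hH : BaseFn H) {x : ℕ}
    (hfin : ∀ k, ∃ N, ∀ n, N ≤ n → ∀ e, loc c x n ≠ some (k, e)) :
    coNTIME (tx H c x) = NTIME (tx H c x) := by
  have hid := id_le_tx (c := c) hH x
  have h2 : ∀ L ∈ NTIME (tx H c x), Lᶜ ∈ NTIME (tx H c x) := by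
    intro L hL
    have h3 := dtime_sub_ntime hid (both_dtime' hH hid (tx_high hfin)
      (ntime_mono (tx_le_tu x) hL) false)
    have e : {w : List Bool | w ∈ L ↔ false = true} = Lᶜ := by
      ext w
      simp
    rw [e] at h3
    exact h3
  refine Set.Subset.antisymm ?_ ?_
  · intro L hL
    have := h2 _ hL
    rwa [compl_compl] at this
  · intro L hL
    exact h2 L hL

/-- the column language -/
def colL (H : ℕ → ℕ) (c : Code) (x k n0 : ℕ) : Set (List Bool) :=
  {w | w = una w.length ∧ n0 ≤ w.length ∧ ∃ e, loc c x w.length = some (k, e) ∧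
    AccC (mN e) w (lv H (2 * k + 2) w.length)}

theorem una_len (n : ℕ) : (una n).length = n := by simp [una]

theorem tx_coded {x k e n : ℕ} (h : loc c x n = some (k, e)) (hl : k + 1 ≤ ell H n) :
    (AccC (mN e) (una n) (lv H (2 * k + 2) n) → tx H c x n = lv H (2 * k + 3) n) ∧
    (¬ AccC (mN e) (una n) (lv H (2 * k + 2) n) → tx H c x n = lv H (2 * k + 1) n) := by
  constructor
  · intro h1
    unfold tx
    rw [h]
    simp only
    rw [if_pos hl, if_pos h1]
  · intro h1
    unfold tx
    rw [h]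
    simp only
    rw [if_pos hl, if_neg h1]

theorem colL_dtime (hH : BaseFn H) {x k n0 : ℕ}
    (hn0 : ∀ n, n0 ≤ n → k + 1 ≤ ell H n) : colL H c x k n0 ∈ DTIME (tx H c x) := by
  let f : List Bool × ℕ → Bool := fun q =>
    (q.1 == una q.1.length) && (decide (n0 ≤ q.1.length) &&
      (decide (min (2 ^ (lvC H (2 * k + 2) q.1.length q.2 + 1)) (q.2 + 1) ≤ q.2) &&
        ((loc c x q.1.length).isSome && (decide (((loc c x q.1.length).getD (0, 0)).1 = k) &&
          brute (mN ((loc c x q.1.length).getD (0, 0)).2) q.1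
            (lvC H (2 * k + 2) q.1.length q.2) q.2))))
  have hf : PF f := by
    have hlen : PF (fun q : List Bool × ℕ => q.1.length) := PF.length PF.fst
    have hl : PF (fun q : List Bool × ℕ => lvC H (2 * k + 2) q.1.length q.2) :=
      pf_lvC hH (PF.const _) hlen PF.snd
    have hloc : PF (fun q : List Bool × ℕ => loc c x q.1.length) := pf_loc (PF.const x) hlen
    have hg : PF (fun q : List Bool × ℕ => (loc c x q.1.length).getD (0, 0)) :=
      PF.getD hloc (PF.const _)
    exact PF.and (PF.beqStr PF.fst (pf_una hlen)) (PF.and (PF.le (PF.const n0) hlen)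
      (PF.and (PF.le (pf_cexp (PF.succ hl) (PF.succ PF.snd)) PF.snd)
        (PF.and (PF.isSome hloc) (PF.and (PF.natEq (PF.fst' hg) (PF.const k))
          (pf_brute (pf_mN (PF.snd' hg)) PF.fst hl PF.snd)))))
  have hf1 : ∀ w m, f (w, m) = true → w ∈ colL H c x k n0 := by
    intro w m h
    simp only [f, Bool.and_eq_true, decide_eq_true_eq, beq_iff_eq] at h
    obtain ⟨h1, h2, h3, h4, h5, h6⟩ := h
    obtain ⟨⟨k', e⟩, hke⟩ := Option.isSome_iff_exists.1 h4
    rw [hke] at h5 h6
    simp only [Option.getD_some] at h5 h6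
    subst h5
    refine ⟨h1, h2, e, hke, ?_⟩
    rw [lvC_eq] at h6
    exact (brute_sound h6).mono (min_le_left _ _)
  have hf2 : ∀ w, w ∈ colL H c x k n0 → f (w, 2 ^ (lv H (2 * k + 2) w.length + 1)) = true := by
    intro w hw
    obtain ⟨h1, h2, e, h3, h4⟩ := hw
    have h5 := Nat.lt_two_pow_self (n := lv H (2 * k + 2) w.length + 1)
    simp only [f, Bool.and_eq_true, decide_eq_true_eq, beq_iff_eq]
    rw [h3, lvC_eq, min_eq_left (a := lv H (2 * k + 2) w.length) (by omega)]
    simp only [Option.getD_some, Option.isSome_some]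
    exact ⟨h1, h2, by omega, trivial, trivial, brute_complete le_rfl h4⟩
  obtain ⟨M', d, h1, h2⟩ := search_machine hf
  refine ⟨M', (Polynomial.X + 2 * Polynomial.X + 2) ^ d, ?_, ?_⟩
  · intro w
    constructor
    · intro hw
      exact ⟨_, h2 w _ (hf2 w hw)⟩
    · rintro ⟨s, hs⟩
      obtain ⟨m, _, hm⟩ := h1 w s hs
      exact hf1 w m hm
  · intro w hw
    simp only [Polynomial.eval_add, Polynomial.eval_pow, Polynomial.eval_X,
      Polynomial.eval_mul, Polynomial.eval_ofNat]
    have h6 : w.length ≤ tx H c x w.length := id_le_tx hH x _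
    refine (h2 w _ (hf2 w hw)).mono' (Nat.pow_le_pow_left ?_ _)
    obtain ⟨h3, h4, e, h5, h7⟩ := hw
    rw [h3] at h7
    rw [una_len] at h7
    have h8 := (tx_coded h5 (hn0 _ h4)).1 h7
    have h9 : tx H c x w.length = 2 ^ lv H (2 * k + 2) w.length := by
      rw [h8]
      unfold lv
      rw [← tow_succ]
    rw [pow_succ]
    omega

/-- some column is infinite: no closure -/
theorem tx_not_closed (hH : BaseFn H) {x k : ℕ}
    (hinf : ∀ e N, ∃ n, N ≤ n ∧ loc c x n = some (k, e)) :
    coNTIME (tx H c x) ≠ NTIME (tx H c x) := by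
  intro heq
  obtain ⟨N, hN⟩ := quiet (H := H) k
  set n0 := max N k with hn0
  have hell : ∀ n, n0 ≤ n → k + 1 ≤ ell H n := fun n hn =>
    ell_ge hN ((le_max_left _ _).trans hn) ((le_max_right _ _).trans hn)
  have h1 : colL H c x k n0 ∈ NTIME (tx H c x) :=
    dtime_sub_ntime (id_le_tx hH x) (colL_dtime hH hell)
  rw [← heq] at h1
  obtain ⟨M, p, hM1, hM2⟩ := h1
  obtain ⟨cd, D, hD, hc1, hc2⟩ := exists_code M
  obtain ⟨q, hq⟩ := poly_le_pow p
  obtain ⟨q', hq'⟩ := poly_norm D q
  obtain ⟨n1, hn1⟩ := poly_lt_exp 1 q'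
  obtain ⟨e, _, hem⟩ := exists_mN cd 0
  obtain ⟨n, hn, hloc⟩ := hinf e (max n0 n1)
  have hn0' : n0 ≤ n := (le_max_left _ _).trans hn
  have hbound : D * p.eval (lv H (2 * k + 1) n) ≤ lv H (2 * k + 2) n := by
    have h6 : n ≤ lv H (2 * k + 1) n := (hH.le _).trans (tow_mono (Nat.zero_le _) _)
    have h7 := hn1 (lv H (2 * k + 1) n) (((le_max_right _ _).trans hn).trans h6)
    have h8 := hq' (lv H (2 * k + 1) n)
    have h9 : D * p.eval (lv H (2 * k + 1) n) ≤ D * (lv H (2 * k + 1) n + 2) ^ q :=
      Nat.mul_le_mul_left _ (hq _)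
    have h10 : lv H (2 * k + 2) n = 2 ^ lv H (2 * k + 1) n := by
      unfold lv
      rw [← tow_succ]
    omega
  by_cases hacc : AccC (mN e) (una n) (lv H (2 * k + 2) n)
  · -- the word is in the language and accepted by the machine for the complement
    have h2 : una n ∈ colL H c x k n0 := by
      refine ⟨by rw [una_len], by rw [una_len]; exact hn0', e, by rw [una_len]; exact hloc, ?_⟩
      rw [una_len]
      exact hacc
    rw [hem] at hacc
    exact (hM1 (una n)).2 ⟨_, hc2 _ _ hacc⟩ h2
  · have h2 : una n ∉ colL H c x k n0 := by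
      rintro ⟨_, _, e', h3, h4⟩
      rw [una_len] at h3 h4
      rw [hloc] at h3
      obtain ⟨_, h5⟩ := Prod.mk.inj (Option.some.inj h3)
      exact hacc (h5 ▸ h4)
    have h3 := hc1 _ _ (hM2 (una n) h2)
    rw [una_len, (tx_coded hloc (hell n hn0')).2 hacc] at h3
    apply hacc
    rw [hem]
    exact h3.mono hbound

/-- the equivalence -/
theorem tx_iff (hH : BaseFn H) {R : ℕ → ℕ → ℕ → ℕ → Bool} (hc : Ev4 c R) (x : ℕ) :
    coNTIME (tx H c x) = NTIME (tx H c x) ↔ ∀ a, ∃ b, ∀ d, R x a b d = true := by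
  constructor
  · intro h
    by_contra hne
    push Not at hne
    obtain ⟨k, hk⟩ := hne
    refine tx_not_closed hH (k := k) ?_ h
    intro e N
    refine col_inf hc ?_ e N
    intro b
    obtain ⟨d, hd⟩ := hk b
    exact ⟨d, by simpa using hd⟩
  · intro h
    exact tx_closed hH fun k => col_fin hc (h k)

end

end Pool.Agent.W2helper61.NT
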