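import Pool.Agent.W2helper61.NT.Gap2

/-!
Arbitrarily large computable nondecreasing time bounds `t` for which `NTIME(Pol t)` is closed
under complementation.
-/

set_option autoImplicit false

namespace Pool.Agent.W2helper61.NT

open Turing Pool.Agent.H583R2

section
variable (H : ℕ → ℕ)

/-- levels -/
def lv (j n : ℕ) : ℕ := tow j (H n)

/-- code `r` accepts some word of length `n` between its own level and the top level -/
def Viol (r n : ℕ) : Prop := ∃ w : List Bool, w.length = n ∧
  AccC (mN r) w (lv H (2 * n + 4) n) ∧ ¬ AccC (mN r) w (lv H (2 * r + 2) n)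

open Classical in
/-- the code acting at `n`, given the list of codes that acted before -/
noncomputable def act (K : List ℕ) (n : ℕ) : Option ℕ :=
  (List.range (n + 1)).find? (fun r => decide (r ∉ K ∧ Viol H r n))

/-- the codes that acted before `n` -/
noncomputable def Kl : ℕ → List ℕ
  | 0 => []
  | n + 1 => (act H (Kl n) n).toList ++ Kl n

/-- the time bound -/
noncomputable def tu (n : ℕ) : ℕ :=
  lv H (2 * ((act H (Kl H n) n).getD (n + 1)) + 1) n

variable {H}

theorem lv_mono {i j : ℕ} (h : i ≤ j) (n : ℕ) : lv H i n ≤ lv H j n := tow_mono h _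

theorem act_some {K : List ℕ} {n r : ℕ} (h : act H K n = some r) :
    r ≤ n ∧ r ∉ K ∧ Viol H r n := by
  classical
  unfold act at h
  rw [List.find?_range_eq_some] at h
  obtain ⟨h1, h2, _⟩ := h
  rw [decide_eq_true_eq] at h1
  rw [List.mem_range] at h2
  exact ⟨by omega, h1⟩

theorem act_le {K : List ℕ} {n r : ℕ} (hr : r ≤ n) (h1 : r ∉ K) (h2 : Viol H r n) :
    ∃ r' ≤ r, act H K n = some r' := by
  classical
  rcases h : act H K n with _ | r'
  · exfalso
    unfold act at h
    rw [List.find?_eq_none] at h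
    exact h r (List.mem_range.2 (by omega)) (by simpa using ⟨h1, h2⟩)
  · refine ⟨r', ?_, rfl⟩
    unfold act at h
    rw [List.find?_range_eq_some] at h
    by_contra hlt
    have := h.2.2 r (by omega)
    simp [h1, h2] at this

theorem Kl_mono {m n : ℕ} (h : m ≤ n) {r : ℕ} (hr : r ∈ Kl H m) : r ∈ Kl H n := by
  induction n, h using Nat.le_induction with
  | base => exact hr
  | succ n _ ih => rw [Kl]; exact List.mem_append_right _ ih

theorem mem_Kl_succ {n r : ℕ} (h : act H (Kl H n) n = some r) : r ∈ Kl H (n + 1) := by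
  rw [Kl, h]; simp

theorem act_once {m n r : ℕ} (h1 : act H (Kl H m) m = some r) (h2 : act H (Kl H n) n = some r) :
    m = n := by
  by_contra hne
  rcases Nat.lt_or_gt_of_ne hne with h | h
  · exact (act_some h2).2.1 (Kl_mono h (mem_Kl_succ h1))
  · exact (act_some h1).2.1 (Kl_mono h (mem_Kl_succ h2))

theorem mem_Kl {n r : ℕ} (h : r ∈ Kl H n) : ∃ m < n, act H (Kl H m) m = some r := by
  induction n with
  | zero => simp [Kl] at h
  | succ n ih =>
    rw [Kl, List.mem_append, Option.mem_toList] at h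
    rcases h with h | h
    · exact ⟨n, by omega, h⟩
    · obtain ⟨m, hm, h1⟩ := ih h
      exact ⟨m, by omega, h1⟩

/-- from some point on no code `≤ r` acts -/
theorem quiet (r : ℕ) : ∃ N, ∀ n, N ≤ n → ∀ r' ≤ r, act H (Kl H n) n ≠ some r' := by
  induction r with
  | zero =>
    by_cases h : ∃ m, act H (Kl H m) m = some 0
    · obtain ⟨m, hm⟩ := h
      refine ⟨m + 1, ?_⟩
      intro n hn r' hr' h1
      obtain rfl : r' = 0 := by omega
      have := act_once hm h1
      omega
    · push Not at h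
      refine ⟨0, ?_⟩
      intro n _ r' hr'
      obtain rfl : r' = 0 := by omega
      exact h n
  | succ r ih =>
    obtain ⟨N, hN⟩ := ih
    by_cases h : ∃ m, act H (Kl H m) m = some (r + 1)
    · obtain ⟨m, hm⟩ := h
      refine ⟨max N (m + 1), ?_⟩
      intro n hn r' hr' h1
      rcases Nat.lt_or_ge r r' with h2 | h2
      · obtain rfl : r' = r + 1 := by omega
        have := act_once hm h1
        have := le_max_right N (m + 1)
        omega
      · exact hN n ((le_max_left _ _).trans hn) r' h2 h1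
    · push Not at h
      refine ⟨N, ?_⟩
      intro n hn r' hr' h1
      rcases Nat.lt_or_ge r r' with h2 | h2
      · obtain rfl : r' = r + 1 := by omega
        exact h n h1
      · exact hN n hn r' h2 h1

/-- eventually the bound is above the level of `r` -/
theorem tu_high {r N : ℕ} (hN : ∀ n, N ≤ n → ∀ r' ≤ r, act H (Kl H n) n ≠ some r') {n : ℕ}
    (h1 : N ≤ n) (h2 : r ≤ n) : lv H (2 * r + 3) n ≤ tu H n := by
  unfold tu
  apply lv_mono
  rcases h : act H (Kl H n) n with _ | r'
  · simp only [Option.getD_none]; omega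
  · have : r < r' := by
      by_contra hle
      exact hN n h1 r' (by omega) h
    simp only [Option.getD_some]
    omega

theorem tu_le (n : ℕ) : tu H n ≤ lv H (2 * n + 3) n := by
  unfold tu
  apply lv_mono
  rcases h : act H (Kl H n) n with _ | r'
  · simp only [Option.getD_none]; omega
  · have := (act_some h).1
    simp only [Option.getD_some]
    omega

theorem tu_ge (n : ℕ) : H n ≤ tu H n := tow_mono (Nat.zero_le _) (H n)

theorem width2 (n : ℕ) : 2 * n + 5 ≤ 2 ^ (4 * n + 10) := by
  have h1 := width n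
  have h2 : n + 1 ≤ (n + 1) * 2 ^ (n + 1) := Nat.le_mul_of_pos_right _ (by positivity)
  omega

theorem tu_mono (hH : BaseFn H) : Monotone (tu H) := by
  apply monotone_nat_of_le_succ
  intro n
  refine (tu_le n).trans (le_trans ?_ (tu_ge (n + 1)))
  refine le_trans (tow_mono ?_ (H n)) (hH.grow n).le
  have := width2 n
  omega

/-- a code whose language has an appropriate machine never acts and has no violations
from some point on -/
theorem no_viol {r N : ℕ} (hN : ∀ n, N ≤ n → ∀ r' ≤ r, act H (Kl H n) n ≠ some r')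
    (hr : ∀ n, act H (Kl H n) n ≠ some r) {n : ℕ} (h1 : N ≤ n) (h2 : r ≤ n) :
    ¬ Viol H r n := by
  intro hv
  have h3 : r ∉ Kl H n := by
    intro h
    obtain ⟨m, _, h4⟩ := mem_Kl h
    exact hr m h4
  obtain ⟨r', h4, h5⟩ := act_le h2 h3 hv
  exact hN n h1 r' h4 h5

/-! ### capped evaluation -/

section capped
variable (H)

def lvC (j n N : ℕ) : ℕ := capTow j (min (H n) N) N

theorem lvC_eq (j n N : ℕ) : lvC H j n N = min (lv H j n) N := capTow_min _ _ _

def violC (r n N : ℕ) : Bool := (List.range N).any fun k =>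
  decide ((str k).length = n) && (brute (mN r) (str k) (lvC H (2 * n + 4) n N) N &&
    !brute (mN r) (str k) (lvC H (2 * r + 2) n N) N)

theorem violC_iff {r n N : ℕ} (hn : n ≤ H n) (hr : r ≤ n)
    (hN : 2 ^ (lv H (2 * n + 4) n + 1) ≤ N) : violC H r n N = true ↔ Viol H r n := by
  have h0 := Nat.lt_two_pow_self (n := lv H (2 * n + 4) n + 1)
  have h1 : lv H (2 * r + 2) n ≤ lv H (2 * n + 4) n := lv_mono (by omega) n
  have h2 : 2 ^ (lv H (2 * r + 2) n + 1) ≤ N :=
    (Nat.pow_le_pow_right (by norm_num) (by omega)).trans hN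
  have h3 : n ≤ lv H (2 * n + 4) n := hn.trans (tow_mono (Nat.zero_le _) (H n))
  unfold violC Viol
  rw [lvC_eq, lvC_eq, min_eq_left (by omega), min_eq_left (by omega)]
  rw [List.any_eq_true]
  constructor
  · rintro ⟨k, _, h⟩
    rw [Bool.and_eq_true, Bool.and_eq_true, decide_eq_true_eq, Bool.not_eq_true'] at h
    refine ⟨str k, h.1, brute_sound h.2.1, fun h4 => ?_⟩
    rw [brute_complete h2 h4] at h
    exact absurd h.2.2 (by simp)
  · rintro ⟨w, h4, h5, h6⟩
    have h7 : idx w < N := (idx_lt_of_length h4.le).trans_le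
      ((Nat.pow_le_pow_right (by norm_num) (by omega)).trans hN)
    refine ⟨idx w, List.mem_range.2 h7, ?_⟩
    rw [str_idx, Bool.and_eq_true, Bool.and_eq_true, decide_eq_true_eq, Bool.not_eq_true']
    refine ⟨h4, brute_complete hN h5, ?_⟩
    by_contra hb
    exact h6 (brute_sound (by simpa using hb))

def actC (K : List ℕ) (n N : ℕ) : Option ℕ :=
  (List.range (n + 1)).find? (fun r => !(K.any fun x => decide (x = r)) && violC H r n N)

theorem actC_eq {K : List ℕ} {n N : ℕ} (hn : n ≤ H n)
    (hN : 2 ^ (lv H (2 * n + 4) n + 1) ≤ N) : actC H K n N = act H K n := by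
  classical
  unfold actC act
  apply List.find?_congr
  intro r hr
  rw [List.mem_range] at hr
  have h1 := violC_iff H (r := r) hn (by omega) hN
  rw [Bool.eq_iff_iff, Bool.and_eq_true, h1, decide_eq_true_eq, Bool.not_eq_true',
    List.any_eq_false]
  simp only [decide_eq_true_eq]
  constructor
  · rintro ⟨h2, h3⟩
    exact ⟨fun h => h2 r h rfl, h3⟩
  · rintro ⟨h2, h3⟩
    exact ⟨fun x hx h => h2 (h ▸ hx), h3⟩

def KlC (n N : ℕ) : List ℕ :=
  (List.range n).foldl (fun K i => (actC H K i N).toList ++ K) []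

theorem KlC_eq (hH : BaseFn H) {n N : ℕ} (hN : 2 ^ (lv H (2 * n + 4) n + 1) ≤ N) :
    KlC H n N = Kl H n := by
  induction n with
  | zero => rfl
  | succ n ih =>
    have h1 : lv H (2 * n + 4) n ≤ lv H (2 * (n + 1) + 4) (n + 1) :=
      (lv_mono (by omega) n).trans (tow_mono_right _ (hH.lt_succ n).le)
    have h2 : 2 ^ (lv H (2 * n + 4) n + 1) ≤ N :=
      (Nat.pow_le_pow_right (by norm_num) (by omega)).trans hN
    unfold KlC at *
    rw [List.range_succ, List.foldl_append, ih h2, List.foldl_cons, List.foldl_nil,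
      actC_eq H (hH.le n) h2, Kl]

def tuC (n N : ℕ) : ℕ := lvC H (2 * ((actC H (KlC H n N) n N).getD (n + 1)) + 1) n N

theorem tuC_eq (hH : BaseFn H) {n N : ℕ} (hN : 2 ^ (lv H (2 * n + 4) n + 1) ≤ N) :
    tuC H n N = tu H n := by
  unfold tuC tu
  rw [KlC_eq H hH hN, actC_eq H (hH.le n) hN, lvC_eq]
  apply min_eq_left
  have h1 : tu H n ≤ lv H (2 * n + 4) n := (tu_le n).trans (lv_mono (by omega) n)
  have h2 := Nat.lt_two_pow_self (n := lv H (2 * n + 4) n + 1)
  unfold tu at h1
  omega

end capped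

section pf
variable {α : Type} [TEnc α]

theorem pf_lvC (hH : BaseFn H) {j n N : α → ℕ} (hj : PF j) (hn : PF n) (hN : PF N) :
    PF (fun a => lvC H (j a) (n a) (N a)) :=
  pf_capTow hj (hH.cap.comp (PF.pair hn hN)) hN

theorem pf_violC (hH : BaseFn H) {r n N : α → ℕ} (hr : PF r) (hn : PF n) (hN : PF N) :
    PF (fun a => violC H (r a) (n a) (N a)) := by
  have h1 : PF (fun a => lvC H (2 * n a + 4) (n a) (N a)) :=
    pf_lvC hH (PF.add (PF.mul (PF.const 2) hn) (PF.const 4)) hn hN
  have h2 : PF (fun a => lvC H (2 * r a + 2) (n a) (N a)) :=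
    pf_lvC hH (PF.add (PF.mul (PF.const 2) hr) (PF.const 2)) hn hN
  refine PF.any (f := fun a k => decide ((str k).length = n a) &&
    (brute (mN (r a)) (str k) (lvC H (2 * n a + 4) (n a) (N a)) (N a) &&
      !brute (mN (r a)) (str k) (lvC H (2 * r a + 2) (n a) (N a)) (N a))) (PF.range hN) ?_
  have hk : PF (fun q : α × ℕ => str q.2) := PF.str PF.snd
  have hc : PF (fun q : α × ℕ => mN (r q.1)) := pf_mN (hr.comp PF.fst)
  exact PF.and (PF.natEq (PF.length hk) (hn.comp PF.fst))
    (PF.and (pf_brute hc hk (h1.comp PF.fst) (hN.comp PF.fst))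
      (PF.not (pf_brute hc hk (h2.comp PF.fst) (hN.comp PF.fst))))

theorem pf_actC (hH : BaseFn H) {K : α → List ℕ} {n N : α → ℕ} (hK : PF K) (hn : PF n)
    (hN : PF N) : PF (fun a => actC H (K a) (n a) (N a)) := by
  refine PF.find (f := fun a r => !((K a).any fun x => decide (x = r)) &&
    violC H r (n a) (N a)) (PF.range (PF.succ hn)) ?_
  refine PF.and (PF.not ?_) (pf_violC hH PF.snd (hn.comp PF.fst) (hN.comp PF.fst))
  exact PF.any (f := fun (q : α × ℕ) x => decide (x = q.2)) (hK.comp PF.fst)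
    (PF.natEq PF.snd (PF.snd' PF.fst))

theorem actC_size (K : List ℕ) (n N : ℕ) : sz ((actC H K n N).toList) ≤ 2 * n + 3 := by
  rcases h : actC H K n N with _ | r
  · simp only [Option.toList_none, sz_nil]; omega
  · unfold actC at h
    rw [List.find?_range_eq_some] at h
    have h2 := h.2.1
    rw [List.mem_range] at h2
    simp only [Option.toList_some, sz_cons, sz_nil, sz_nat]
    omega

theorem pf_KlC (hH : BaseFn H) {n N : α → ℕ} (hn : PF n) (hN : PF N) :
    PF (fun a => KlC H (n a) (N a)) := by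
  have hb : PB (fun a => 2 * n a + 3) :=
    ((PB.const 2).mul (pb_of_sz hn.size)).add (PB.const 3)
  refine PF.foldlAdd (l := fun a => List.range (n a)) (s := fun _ => ([] : List ℕ))
    (f := fun a K i => (actC H K i (N a)).toList ++ K) (PF.range hn) (PF.const _) ?_
    (inc := fun a => 2 * n a + 3) (bnd := fun _ => 0) hb (PB.const 0) ?_
  · exact PF.append (pf_toList (pf_actC hH (PF.fst' PF.snd) (PF.snd' PF.snd)
      (hN.comp PF.fst))) (PF.fst' PF.snd)
  · intro a i hi K
    have h1 := sz_append (actC H K i (N a)).toList K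
    have h2 := actC_size (H := H) K i (N a)
    rw [List.mem_range] at hi
    omega

theorem pf_tuC (hH : BaseFn H) : PF (fun p : ℕ × ℕ => tuC H p.1 p.2) := by
  have h1 : PF (fun p : ℕ × ℕ => (actC H (KlC H p.1 p.2) p.1 p.2).getD (p.1 + 1)) :=
    PF.getD (pf_actC hH (pf_KlC hH PF.fst PF.snd) PF.fst PF.snd) (PF.succ PF.fst)
  exact pf_lvC hH (PF.succ (PF.mul (PF.const 2) h1)) PF.fst PF.snd

end pf

theorem cb_tu (hH : BaseFn H) : Cb (tu H) := by
  have h1 : Cb (fun n => tow (2 ^ (4 * n + 10)) (H n)) := cb_of_cap (pf_top hH)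
  have h2 : Cb (fun n => 2 ^ (tow (2 ^ (4 * n + 10)) (H n) + 1)) :=
    cb_two_pow.comp (Cb.pf (PF.succ PF.id) h1)
  refine (Cb.pf (pf_tuC hH) (Cb.id.pair h2)).congr ?_
  intro n
  apply tuC_eq H hH
  apply Nat.pow_le_pow_right (by norm_num)
  apply Nat.succ_le_succ
  unfold lv
  apply tow_mono
  have := width2 n
  omega

/-! ### the classes -/

/-- both a language of `NTIME(Pol t)` and its complement are in `DTIME(Pol t)` -/
theorem both_dtime (hH : BaseFn H) {L : Set (List Bool)} (hL : L ∈ NTIME (tu H)) (b : Bool) :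
    {w : List Bool | w ∈ L ↔ b = true} ∈ DTIME (tu H) := by
  classical
  obtain ⟨M, p, hM1, hM2⟩ := hL
  obtain ⟨cd, D, hD, hc1, hc2⟩ := exists_code M
  obtain ⟨c, hc⟩ := poly_le_pow p
  obtain ⟨c', hc'⟩ := poly_norm D c
  obtain ⟨n1, hn1⟩ := poly_lt_exp 1 c'
  obtain ⟨r, hr, hrm⟩ := exists_mN cd n1
  -- acceptance times are below `2 ^ t` for long words
  have hbound : ∀ n, r ≤ n → D * p.eval (tu H n) ≤ 2 ^ tu H n := by
    intro n hn
    have h6 : n ≤ tu H n := (hH.le _).trans (tu_ge _)
    have h7 := hn1 (tu H n) (by omega)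
    have h8 := hc' (tu H n)
    have h9 : D * p.eval (tu H n) ≤ D * (tu H n + 2) ^ c := Nat.mul_le_mul_left _ (hc _)
    omega
  have hnever : ∀ n, act H (Kl H n) n ≠ some r := by
    intro n h
    obtain ⟨h1, _, w, hw, h2, h3⟩ := act_some h
    rw [hrm] at h2 h3
    have h4 : w ∈ L := (hM1 w).2 ⟨_, hc2 _ _ h2⟩
    have h5 := hc1 _ _ (hM2 w h4)
    rw [hw] at h5
    apply h3
    refine h5.mono ((hbound n h1).trans ?_)
    unfold tu
    rw [h, Option.getD_some]
    unfold lv
    rw [← tow_succ]
  obtain ⟨N, hN⟩ := quiet (H := H) r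
  set N0 := max N r with hN0
  have hdec : ∀ w : List Bool, N0 ≤ w.length →
      (w ∈ L ↔ AccC cd w (lv H (2 * r + 2) w.length)) := by
    intro w hw
    constructor
    · intro h
      have h1 : N ≤ w.length := (le_max_left _ _).trans hw
      have h2 : r ≤ w.length := (le_max_right _ _).trans hw
      have h3 := hc1 _ _ (hM2 w h)
      have h4 : AccC cd w (lv H (2 * w.length + 4) w.length) := by
        refine h3.mono ((hbound _ h2).trans ?_)
        refine (Nat.pow_le_pow_right (by norm_num) (tu_le _)).trans ?_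
        unfold lv
        rw [← tow_succ]
      by_contra h5
      refine no_viol hN hnever h1 h2 ⟨w, rfl, ?_, ?_⟩
      · rw [hrm]; exact h4
      · rw [hrm]; exact h5
    · intro h
      exact (hM1 w).2 ⟨_, hc2 _ _ h⟩
  -- the table of short words
  set tb : List (List Bool) := ((List.range (2 ^ (N0 + 1))).map str).filter
    (fun w => decide (w ∈ L ↔ b = true)) with htb
  have htb1 : ∀ w : List Bool, w.length < N0 → (w ∈ tb ↔ (w ∈ L ↔ b = true)) := by
    intro w hw
    rw [htb, List.mem_filter, decide_eq_true_eq]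
    constructor
    · exact fun h => h.2
    · intro h
      refine ⟨List.mem_map.2 ⟨idx w, List.mem_range.2 (idx_lt_of_length hw.le), str_idx w⟩, h⟩
  let f : List Bool × ℕ → Bool := fun q =>
    if decide (q.1.length < N0) then tb.any (fun x => x == q.1)
    else decide (min (2 ^ (lvC H (2 * r + 2) q.1.length q.2 + 1)) (q.2 + 1) ≤ q.2) &&
      (brute cd q.1 (lvC H (2 * r + 2) q.1.length q.2) q.2 == b)
  have hf : PF f := by
    have hl : PF (fun q : List Bool × ℕ => lvC H (2 * r + 2) q.1.length q.2) :=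
      pf_lvC hH (PF.const _) (PF.length PF.fst) PF.snd
    refine PF.ite (PF.lt (PF.length PF.fst) (PF.const N0)) ?_ ?_
    · exact PF.any (f := fun (q : List Bool × ℕ) x => x == q.1) (PF.const tb)
        (PF.beqStr PF.snd (PF.fst' PF.fst))
    · exact PF.and (PF.le (pf_cexp (PF.succ hl) (PF.succ PF.snd)) PF.snd)
        (PF.beqBool (pf_brute (PF.const cd) PF.fst hl PF.snd) (PF.const b))
  have hbb : ∀ (w : List Bool) (m : ℕ), 2 ^ (lv H (2 * r + 2) w.length + 1) ≤ m →
      N0 ≤ w.length → ((brute cd w (lv H (2 * r + 2) w.length) m == b) = true ↔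
        (w ∈ L ↔ b = true)) := by
    intro w m hm hw
    have h1 := brute_iff (cd := cd) (w := w) hm
    rw [hdec w hw, ← h1, beq_iff_eq, Bool.eq_iff_iff]
  have hf1 : ∀ w m, f (w, m) = true → (w ∈ L ↔ b = true) := by
    intro w m h
    simp only [f] at h
    by_cases hw : w.length < N0
    · rw [if_pos (by simpa using hw), List.any_eq_true] at h
      obtain ⟨x, hx, he⟩ := h
      rw [beq_iff_eq] at he
      subst he
      exact (htb1 x hw).1 hx
    · rw [if_neg (by simpa using hw), Bool.and_eq_true, decide_eq_true_eq, lvC_eq] at h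
      obtain ⟨h1, h2⟩ := h
      have h3 : 2 ^ (min (lv H (2 * r + 2) w.length) m + 1) ≤ m := by omega
      have h4 := Nat.lt_two_pow_self (n := min (lv H (2 * r + 2) w.length) m + 1)
      have h5 : min (lv H (2 * r + 2) w.length) m = lv H (2 * r + 2) w.length := by omega
      rw [h5] at h2 h3
      exact (hbb w m h3 (not_lt.1 hw)).1 h2
  have hf2 : ∀ w, (w ∈ L ↔ b = true) → w.length < N0 → f (w, 0) = true := by
    intro w hw hlt
    simp only [f]
    rw [if_pos (by simpa using hlt), List.any_eq_true]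
    exact ⟨w, (htb1 w hlt).2 hw, by simp⟩
  have hf3 : ∀ w, (w ∈ L ↔ b = true) → N0 ≤ w.length →
      f (w, 2 ^ (lv H (2 * r + 2) w.length + 1)) = true := by
    intro w hw hge
    simp only [f]
    have h4 := Nat.lt_two_pow_self (n := lv H (2 * r + 2) w.length + 1)
    rw [if_neg (by simpa using hge), lvC_eq, min_eq_left (a := lv H (2 * r + 2) w.length)
      (by omega), Bool.and_eq_true, decide_eq_true_eq]
    exact ⟨by omega, (hbb w _ le_rfl hge).2 hw⟩
  obtain ⟨M', e, h1, h2⟩ := search_machine hf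
  refine ⟨M', (Polynomial.X + 2 * Polynomial.X + 2) ^ e, ?_, ?_⟩
  · intro w
    rw [Set.mem_ofPred_eq]
    constructor
    · intro hw
      rcases Nat.lt_or_ge w.length N0 with h | h
      · exact ⟨_, h2 w _ (hf2 w hw h)⟩
      · exact ⟨_, h2 w _ (hf3 w hw h)⟩
    · rintro ⟨s, hs⟩
      obtain ⟨m, _, hm⟩ := h1 w s hs
      exact hf1 w m hm
  · intro w hw
    rw [Set.mem_ofPred_eq] at hw
    simp only [Polynomial.eval_add, Polynomial.eval_pow, Polynomial.eval_X,
      Polynomial.eval_mul, Polynomial.eval_ofNat]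
    have h6 : w.length ≤ tu H w.length := (hH.le _).trans (tu_ge _)
    rcases Nat.lt_or_ge w.length N0 with h | h
    · exact (h2 w _ (hf2 w hw h)).mono' (Nat.pow_le_pow_left (by omega) _)
    · refine (h2 w _ (hf3 w hw h)).mono' (Nat.pow_le_pow_left ?_ _)
      have h7 : 2 ^ lv H (2 * r + 2) w.length ≤ tu H w.length := by
        refine le_trans ?_ (tu_high hN ((le_max_left _ _).trans h) ((le_max_right _ _).trans h))
        unfold lv
        rw [← tow_succ]
      rw [pow_succ]
      omega

theorem closure_tu (hH : BaseFn H) :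
    NTIME (tu H) = DTIME (tu H) ∧ coNTIME (tu H) = NTIME (tu H) := by
  have hid : ∀ n, n ≤ tu H n := fun n => (hH.le n).trans (tu_ge n)
  have h1 : NTIME (tu H) ⊆ DTIME (tu H) := by
    intro L hL
    have := both_dtime hH hL true
    simpa using this
  have h2 : ∀ L ∈ NTIME (tu H), Lᶜ ∈ NTIME (tu H) := by
    intro L hL
    have h3 := dtime_sub_ntime hid (both_dtime hH hL false)
    have e : {w : List Bool | w ∈ L ↔ false = true} = Lᶜ := by
      ext w
      simp
    rw [e] at h3
    exact h3
  refine ⟨Set.Subset.antisymm h1 (dtime_sub_ntime hid), Set.Subset.antisymm ?_ ?_⟩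
  · intro L hL
    have := h2 _ hL
    rwa [compl_compl] at this
  · intro L hL
    exact h2 L hL

end

theorem union_closure (h : ℕ → ℕ) (hh : TMComputable h) :
    ∃ t : ℕ → ℕ, TMComputable t ∧ Monotone t ∧ (∀ n, h n ≤ t n) ∧
      coNTIME t = NTIME t ∧ NTIME t = DTIME t := by
  obtain ⟨H, hH, hle⟩ := exists_base hh
  exact ⟨tu H, tmComputable_of_cb (cb_tu hH), tu_mono hH, fun n => (hle n).trans (tu_ge n),
    (closure_tu hH).2, (closure_tu hH).1⟩

end Pool.Agent.W2helper61.NT
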