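import Pool.Agent.W2helper61.NT.Hard

/-!
The set of codes of computable time bounds `t ≥ id` for which `NTIME(Pol t)` is closed under
complementation: upper bound in the arithmetical hierarchy.
-/

set_option autoImplicit false

namespace Pool.Agent.W2helper61.NT

open Turing Pool.Agent.H583R2

/-- `NTIME(Pol t)` in terms of codes -/
theorem ntime_iff {t : ℕ → ℕ} (hid : ∀ n, n ≤ t n) {L : Set (List Bool)} :
    L ∈ NTIME t ↔ ∃ e j, (∀ w, w ∈ L ↔ ∃ s, AccC (mN e) w s) ∧
      ∀ w ∈ L, AccC (mN e) w (t w.length ^ j + j) := by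
  constructor
  · rintro ⟨M, p, h1, h2⟩
    obtain ⟨cd, D, hD, hc1, hc2⟩ := exists_code M
    obtain ⟨q, hq⟩ := poly_le_pow p
    obtain ⟨j, hj⟩ := poly_norm D q
    obtain ⟨e, _, hem⟩ := exists_mN cd 0
    refine ⟨e, j, ?_, ?_⟩
    · intro w
      rw [h1, hem]
      exact ⟨fun ⟨s, hs⟩ => ⟨_, hc1 _ _ hs⟩, fun ⟨s, hs⟩ => ⟨_, hc2 _ _ hs⟩⟩
    · intro w hw
      rw [hem]
      refine (hc1 _ _ (h2 w hw)).mono ?_
      have h3 := hj (t w.length)
      have h4 : D * p.eval (t w.length) ≤ D * (t w.length + 2) ^ q :=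
        Nat.mul_le_mul_left _ (hq _)
      omega
  · rintro ⟨e, j, h1, h2⟩
    have hf : PF (fun q : List Bool × List Bool × ℕ => haltN (mN e) q.1 q.2.1 q.2.2) :=
      pf_haltN (PF.const _) PF.fst (PF.fst' PF.snd) (PF.snd' PF.snd)
    obtain ⟨M, c, h3, h4⟩ := guess_machine hf
    have h5 : ∀ w s, M.AccIn w s → ∃ s', AccC (mN e) w s' := by
      rintro w s ⟨y, n, _, h⟩
      obtain ⟨m, _, hm⟩ := h3 w y n h
      exact ⟨m, y.take m, by rw [List.length_take]; omega, hm⟩
    have h6 : ∀ w s, AccC (mN e) w s → M.AccIn w (s + (w.length + s + 2) ^ c) := by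
      rintro w s ⟨y, hy, h⟩
      obtain ⟨n, hn, h7⟩ := h4 w y s (by
        rw [List.take_of_length_le hy]
        exact h)
      exact ⟨y, n, by omega, h7⟩
    refine ⟨M, (Polynomial.X ^ j + Polynomial.C j) +
      (Polynomial.X + (Polynomial.X ^ j + Polynomial.C j) + 2) ^ c, ?_, ?_⟩
    · intro w
      rw [h1]
      exact ⟨fun ⟨s, hs⟩ => ⟨_, h6 w s hs⟩, fun ⟨s, hs⟩ => h5 w s hs⟩
    · intro w hw
      refine AccIn.mono (h6 w _ (h2 w hw)) ?_
      simp only [Polynomial.eval_add, Polynomial.eval_pow, Polynomial.eval_X,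
        Polynomial.eval_C, Polynomial.eval_ofNat]
      have h7 := hid w.length
      have h8 : (w.length + (t w.length ^ j + j) + 2) ^ c ≤
          (t w.length + (t w.length ^ j + j) + 2) ^ c := Nat.pow_le_pow_left (by omega) _
      omega

/-- closure in terms of codes -/
theorem closed_iff {t : ℕ → ℕ} (hid : ∀ n, n ≤ t n) :
    coNTIME t = NTIME t ↔ ∀ e j,
      (∃ w s, AccC (mN e) w s ∧ ¬ AccC (mN e) w (t w.length ^ j + j)) ∨
      (∃ e' j', ∀ w s, (AccC (mN e) w (t w.length ^ j + j) ∨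
        AccC (mN e') w (t w.length ^ j' + j')) ∧ ¬ (AccC (mN e) w s ∧ AccC (mN e') w s)) := by
  constructor
  · intro h e j
    by_cases hb : ∃ w s, AccC (mN e) w s ∧ ¬ AccC (mN e) w (t w.length ^ j + j)
    · exact Or.inl hb
    · right
      push Not at hb
      have h1 : {w | ∃ s, AccC (mN e) w s} ∈ NTIME t := by
        rw [ntime_iff hid]
        exact ⟨e, j, fun w => Iff.rfl, fun w ⟨s, hs⟩ => hb w s hs⟩
      rw [← h] at h1
      have h2 : {w | ∃ s, AccC (mN e) w s}ᶜ ∈ NTIME t := h1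
      rw [ntime_iff hid] at h2
      obtain ⟨e', j', h3, h4⟩ := h2
      refine ⟨e', j', ?_⟩
      intro w s
      constructor
      · by_cases hw : ∃ s, AccC (mN e) w s
        · obtain ⟨s', hs'⟩ := hw
          exact Or.inl (hb w s' hs')
        · exact Or.inr (h4 w hw)
      · rintro ⟨h5, h6⟩
        exact (h3 w).2 ⟨s, h6⟩ ⟨s, h5⟩
  · intro h
    have key : ∀ L ∈ NTIME t, Lᶜ ∈ NTIME t := by
      intro L hL
      rw [ntime_iff hid] at hL ⊢
      obtain ⟨e, j, h1, h2⟩ := hL
      rcases h e j with ⟨w, s, h3, h4⟩ | ⟨e', j', h3⟩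
      · exact absurd (h2 w ((h1 w).2 ⟨s, h3⟩)) h4
      · have h4 : ∀ w, w ∉ L → AccC (mN e') w (t w.length ^ j' + j') := by
          intro w hw
          rcases (h3 w 0).1 with h5 | h5
          · exact absurd ((h1 w).2 ⟨_, h5⟩) hw
          · exact h5
        refine ⟨e', j', ?_, fun w hw => h4 w hw⟩
        intro w
        constructor
        · intro hw
          exact ⟨_, h4 w hw⟩
        · rintro ⟨s, hs⟩ hw
          obtain ⟨s', hs'⟩ := (h1 w).1 hw
          exact (h3 w (max s s')).2 ⟨hs'.mono (le_max_right _ _), hs.mono (le_max_left _ _)⟩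
    refine Set.Subset.antisymm ?_ ?_
    · intro L hL
      have := key _ hL
      rwa [compl_compl] at this
    · intro L hL
      exact key L hL

/-! ### decidability of step-bounded acceptance -/

/-- code `e` accepts the `m`-th word within `s` steps -/
def accB (e m s : ℕ) : Bool := brute (mN e) (str m) s (2 ^ (s + 1))

theorem accB_iff (e m s : ℕ) : accB e m s = true ↔ AccC (mN e) (str m) s :=
  brute_iff le_rfl

/-- length of the `m`-th word -/
def lenS (m : ℕ) : ℕ := (str m).length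

theorem computable_lenS : Computable lenS :=
  computable_of_cb (PF.cb (PF.length (PF.str PF.id)))

theorem computable_accB {α : Type} [Primcodable α] {e m s : α → ℕ} (he : Computable e)
    (hm : Computable m) (hs : Computable s) : Computable (fun a => accB (e a) (m a) (s a)) := by
  set g : ℕ → ℕ := fun z => if accB (Nat.unpair z).1 (Nat.unpair (Nat.unpair z).2).1
    (Nat.unpair (Nat.unpair z).2).2 then 1 else 0 with hg
  have h1 : Cb g := by
    have h2 : Cb (fun z : ℕ => (z, 2 ^ ((Nat.unpair (Nat.unpair z).2).2 + 1))) :=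
      Cb.id.pair (cb_two_pow.comp (PF.cb (PF.succ (PF.snd' (pf_unpair
        (PF.snd' (pf_unpair PF.id)))))))
    have h3 : PF (fun q : ℕ × ℕ => if brute (mN (Nat.unpair q.1).1)
        (str (Nat.unpair (Nat.unpair q.1).2).1) (Nat.unpair (Nat.unpair q.1).2).2 q.2
        then 1 else 0) := by
      have hu : PF (fun q : ℕ × ℕ => Nat.unpair (Nat.unpair q.1).2) :=
        pf_unpair (PF.snd' (pf_unpair PF.fst))
      exact PF.ite (pf_brute (pf_mN (PF.fst' (pf_unpair PF.fst))) (PF.str (PF.fst' hu))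
        (PF.snd' hu) PF.snd) (PF.const 1) (PF.const 0)
    exact (Cb.pf h3 h2).congr (fun z => rfl)
  have h4 : Computable (fun a => g (Nat.pair (e a) (Nat.pair (m a) (s a)))) := by
    refine (computable_of_cb h1).comp ?_
    exact (Primrec₂.natPair.to_comp).comp he ((Primrec₂.natPair.to_comp).comp hm hs)
  have h5 : Computable (fun a => (g (Nat.pair (e a) (Nat.pair (m a) (s a))) == 1 : Bool)) := by
    exact (Primrec.beq.to_comp).comp h4 (Computable.const 1)
  refine h5.of_eq ?_
  intro a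
  simp only [hg, Nat.unpair_pair]
  cases accB (e a) (m a) (s a) <;> rfl

end Pool.Agent.W2helper61.NT
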